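import Pool.Agent.Helper240.ZU.Defs

/-! Project UE: universality of the Euler products of elliptic curves.  Definitions and statements. -/

set_option autoImplicit false

namespace Pool.Agent.P8H18.UE

open MeasureTheory

/-- every window `(x, x + δ]` contains at least `c e^x / x` of the numbers `lam v` -/
def Windows {V : Type} (lam : V → ℝ) : Prop :=
  ∀ δ : ℝ, 0 < δ → ∃ c : ℝ, 0 < c ∧ ∃ X₀ : ℝ, ∀ x : ℝ, X₀ ≤ x →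
    ∃ F : Finset V, c * Real.exp x / x ≤ (F.card : ℝ) ∧ ∀ v ∈ F, x < lam v ∧ lam v ≤ x + δ

/-- the key lemma -/
def S_KL : Prop := ∀ (V : Type) (lam : V → ℝ), Windows lam → ∀ (σ1 σ2 B : ℝ), 0 < σ1 →
  ∀ φ : ℂ → ℂ, IntegrableOn φ (ZU.rect σ1 σ2 B) → ∀ C : ℝ,
  (∀ F : Finset V, ∑ v ∈ F, ‖∫ s in ZU.rect σ1 σ2 B, φ s * Complex.exp (-(s * (lam v : ℂ)))‖ ≤ C) →
  ∀ ε : ℝ, 0 < ε → ∃ A : ℝ, ∀ x : ℝ, 0 ≤ x →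
    ‖∫ s in ZU.rect σ1 σ2 B, φ s * Complex.exp (-(s * (x : ℂ)))‖ ≤ A * Real.exp (-((1 - ε) * x))

/-- the duality theorem -/
def S_DUAL : Prop := ∀ (V : Type) (lam : V → ℝ), Windows lam → ∀ (σ1 σ2 B : ℝ), 1 / 2 < σ1 →
  σ1 < σ2 → σ2 < 1 → 0 < B →
  ∀ φ : ℂ → ℂ, IntegrableOn φ (ZU.rect σ1 σ2 B) → ∀ C : ℝ,
  (∀ F : Finset V, ∑ v ∈ F, ‖∫ s in ZU.rect σ1 σ2 B, φ s * Complex.exp (-(s * (lam v : ℂ)))‖ ≤ C) →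
  ∀ n : ℕ, ∫ s in ZU.rect σ1 σ2 B, φ s * s ^ n = 0

/-- density of the linear combinations with real coefficients in `[-1, 1]` -/
def S_LD : Prop := ∀ (V : Type) (lam : V → ℝ), Windows lam → ∀ (τ : V → ℝ) (c : ℝ), 0 < c →
  (∀ v, c ≤ τ v) → ∀ (σ1 σ2 B : ℝ), 1 / 2 < σ1 → σ1 < σ2 → σ2 < 1 → 0 < B →
  ∀ (g : Polynomial ℝ) (η : ℝ), 0 < η → ∃ (F : Finset V) (α : V → ℝ), (∀ v, |α v| ≤ 1) ∧
    ∫ s in ZU.rect σ1 σ2 B, ‖(g.map (algebraMap ℝ ℂ)).eval s -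
      ∑ v ∈ F, ((α v * τ v : ℝ) : ℂ) * Complex.exp (-(s * (lam v : ℂ)))‖ ^ 2 < η

end Pool.Agent.P8H18.UE
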