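import Pool.Agent.P8H18.UE.Defs
import Pool.Agent.P8H18.AA.Second

/-! Rounding of real coefficients to signs; curves over a finite field with a large trace. -/

set_option autoImplicit false
set_option linter.unusedSectionVars false

namespace Pool.Agent.P8H18.UE

open MeasureTheory Set

theorem round_step {R : Set ℂ} (hR : IsCompact R) {w u : ℂ → ℂ} (hw : ContinuousOn w R)
    (hu : ContinuousOn u R) {a : ℝ} (ha : |a| ≤ 1) :
    ∃ b : ℝ, (b = 1 ∨ b = -1) ∧ ∫ s in R, ‖w s + ((b - a : ℝ) : ℂ) * u s‖ ^ 2 ≤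
      (∫ s in R, ‖w s‖ ^ 2) + 4 * ∫ s in R, ‖u s‖ ^ 2 := by
  have i1 : IntegrableOn (fun s => ‖w s‖ ^ 2) R := (hw.norm.pow 2).integrableOn_compact hR
  have i2 : IntegrableOn (fun s => ‖u s‖ ^ 2) R := (hu.norm.pow 2).integrableOn_compact hR
  have i3 : IntegrableOn (fun s => inner ℝ (w s) (u s)) R :=
    (hw.inner hu).integrableOn_compact hR
  set I : ℝ := ∫ s in R, inner ℝ (w s) (u s) with hI
  have key : ∀ b : ℝ, ∫ s in R, ‖w s + ((b - a : ℝ) : ℂ) * u s‖ ^ 2 =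
      (∫ s in R, ‖w s‖ ^ 2) + 2 * (b - a) * I + (b - a) ^ 2 * ∫ s in R, ‖u s‖ ^ 2 := by
    intro b
    have e1 : ∀ s, ‖w s + ((b - a : ℝ) : ℂ) * u s‖ ^ 2 =
        (‖w s‖ ^ 2 + 2 * (b - a) * inner ℝ (w s) (u s)) + (b - a) ^ 2 * ‖u s‖ ^ 2 := by
      intro s
      have e2 : ((b - a : ℝ) : ℂ) * u s = (b - a) • u s := (Complex.real_smul).symm
      rw [e2, norm_add_sq_real, inner_smul_right, norm_smul, mul_pow, Real.norm_eq_abs, sq_abs]
      ring
    simp_rw [e1]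
    have i4 : IntegrableOn (fun s => 2 * (b - a) * inner ℝ (w s) (u s)) R := i3.const_mul _
    have i5 : IntegrableOn (fun s => (b - a) ^ 2 * ‖u s‖ ^ 2) R := i2.const_mul _
    have i6 : IntegrableOn (fun s => ‖w s‖ ^ 2 + 2 * (b - a) * inner ℝ (w s) (u s)) R := i1.add i4
    rw [integral_add i6 i5, integral_add i1 i4, integral_const_mul, integral_const_mul]
  have hu0 : 0 ≤ ∫ s in R, ‖u s‖ ^ 2 := integral_nonneg fun s => by positivity
  rw [abs_le] at ha
  rcases le_total I 0 with h | h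
  · refine ⟨1, Or.inl rfl, ?_⟩
    rw [key 1]
    have h1 : 2 * (1 - a) * I ≤ 0 := mul_nonpos_of_nonneg_of_nonpos (by linarith) h
    have h2 : (1 - a) ^ 2 ≤ 4 := by nlinarith
    nlinarith
  · refine ⟨-1, Or.inr rfl, ?_⟩
    rw [key (-1)]
    have h1 : 2 * (-1 - a) * I ≤ 0 := mul_nonpos_of_nonpos_of_nonneg (by linarith) h
    have h2 : (-1 - a) ^ 2 ≤ 4 := by nlinarith
    nlinarith

/-- **rounding** -/
theorem round_signs {V : Type} (R : Set ℂ) (hR : IsCompact R) (u : V → ℂ → ℂ)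
    (hu : ∀ v, ContinuousOn (u v) R) (α : V → ℝ) (hα : ∀ v, |α v| ≤ 1) (F : Finset V) :
    ∃ ε : V → ℝ, (∀ v, ε v = 1 ∨ ε v = -1) ∧
      ∫ s in R, ‖∑ v ∈ F, ((ε v - α v : ℝ) : ℂ) * u v s‖ ^ 2 ≤
        4 * ∑ v ∈ F, ∫ s in R, ‖u v s‖ ^ 2 := by
  classical
  induction F using Finset.induction_on with
  | empty => exact ⟨fun _ => 1, fun _ => Or.inl rfl, by simp⟩
  | insert m F hm ih =>
    obtain ⟨ε, hε, hint⟩ := ih
    have hc : ContinuousOn (fun s => ∑ v ∈ F, ((ε v - α v : ℝ) : ℂ) * u v s) R :=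
      continuousOn_finsetSum _ fun v _ => continuousOn_const.mul (hu v)
    obtain ⟨b, hb, hle⟩ := round_step hR hc (hu m) (hα m)
    refine ⟨Function.update ε m b, fun v => ?_, ?_⟩
    · by_cases h : v = m
      · rw [h, Function.update_self]
        exact hb
      · rw [Function.update_of_ne h]
        exact hε v
    · have e : ∀ s, ∑ v ∈ insert m F, ((Function.update ε m b v - α v : ℝ) : ℂ) * u v s =
          (∑ v ∈ F, ((ε v - α v : ℝ) : ℂ) * u v s) + ((b - α m : ℝ) : ℂ) * u m s := by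
        intro s
        rw [Finset.sum_insert hm, Function.update_self, add_comm]
        congr 1
        refine Finset.sum_congr rfl fun v hv => ?_
        have : v ≠ m := fun h => hm (h ▸ hv)
        rw [Function.update_of_ne this]
      simp only [e]
      rw [Finset.sum_insert hm]
      linarith

section loc
open Pool.Agent.P8H18.MF Pool.Agent.P8H18.AA
variable {F : Type} [Field F] [Fintype F] [DecidableEq F]

/-- both signs of a large trace occur -/
theorem large_trace (h6 : (6 : F) ≠ 0) : ∃ t : ℝ, Real.sqrt (Fintype.card F) / 2 ≤ t ∧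
    t ≤ 2 * Real.sqrt (Fintype.card F) ∧ (∃ a b : F, (tr a b : ℝ) = t) ∧
    ∃ a b : F, (tr a b : ℝ) = -t := by
  have hq : (2 : ℝ) ≤ Fintype.card F := by exact_mod_cast Fintype.one_lt_card (α := F)
  have h := sum_tr_sq (F := F) h6
  have h2 : ∑ a : F, ∑ b : F, (tr a b : ℝ) ^ 2 =
      (Fintype.card F : ℝ) ^ 2 * ((Fintype.card F : ℝ) - 1) := by exact_mod_cast h
  have h3 : ∃ a b : F, ((Fintype.card F : ℝ) - 1) ≤ (tr a b : ℝ) ^ 2 := by
    by_contra hcon
    push Not at hcon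
    have h4 : ∑ a : F, ∑ b : F, (tr a b : ℝ) ^ 2 < ∑ _a : F, ∑ _b : F, ((Fintype.card F : ℝ) - 1) :=
      Finset.sum_lt_sum_of_nonempty Finset.univ_nonempty fun a _ =>
        Finset.sum_lt_sum_of_nonempty Finset.univ_nonempty fun b _ => hcon a b
    rw [h2] at h4
    simp only [Finset.sum_const, Finset.card_univ, nsmul_eq_mul] at h4
    nlinarith
  obtain ⟨a, b, hab⟩ := h3
  obtain ⟨d, hd⟩ := quadraticChar_exists_neg_one (ringChar_ne h6)
  have hd0 : d ≠ 0 := by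
    rintro rfl
    rw [quadraticChar_zero] at hd
    norm_num at hd
  have htw : (tr (d ^ 2 * a) (d ^ 3 * b) : ℝ) = -(tr a b : ℝ) := by
    have : tr (d ^ 2 * a) (d ^ 3 * b) = - tr a b := by
      rw [tr_eq h6, tr_eq h6, S_twist hd0, hd]
      ring
    rw [this]
    push_cast
    rfl
  have hb := tr_bound h6 a b
  have hlow : Real.sqrt (Fintype.card F) / 2 ≤ |(tr a b : ℝ)| := by
    refine (pow_le_pow_iff_left₀ (by positivity) (abs_nonneg _) two_ne_zero).1 ?_
    rw [div_pow, Real.sq_sqrt (by linarith), sq_abs]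
    linarith
  rcases abs_cases (tr a b : ℝ) with ⟨h5, _⟩ | ⟨h5, _⟩
  · exact ⟨|(tr a b : ℝ)|, hlow, hb, ⟨a, b, h5.symm⟩, ⟨d ^ 2 * a, d ^ 3 * b, by rw [htw, h5]⟩⟩
  · exact ⟨|(tr a b : ℝ)|, hlow, hb, ⟨d ^ 2 * a, d ^ 3 * b, by rw [htw, h5]⟩,
      ⟨a, b, by rw [h5, neg_neg]⟩⟩

end loc

end Pool.Agent.P8H18.UE
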