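import Pool.Agent.P8H18.UE.Win
import Pool.Agent.P8H18.UE.Rnd
import Pool.Agent.P8H18.AA.Sum
import Pool.Agent.Helper240.ZU.D

/-! The choice of the reductions at the primes of small norm. -/

set_option autoImplicit false
set_option linter.unusedSectionVars false

namespace Pool.Agent.P8H18.UE

open MeasureTheory Filter Topology NumberField IsDedekindDomain Pool.Agent.P8H18.MF
  Pool.Agent.P8H18.AA
open Pool.Agent.H921R2.TatePole (nm two_le_nm nm_summable)
open Pool.Agent.H341R2 (card_v finite_v)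

theorem rect_eq (a b B : ℝ) : ZU.rect a b B = Set.Icc a b ×ℂ Set.Icc (-B) B := by
  ext z
  rw [Complex.mem_reProdIm]
  change (a ≤ z.re ∧ z.re ≤ b ∧ |z.im| ≤ B) ↔ _
  simp only [Set.mem_Icc, abs_le]
  tauto

theorem rect_compact (a b B : ℝ) : IsCompact (ZU.rect a b B) := by
  rw [rect_eq]
  exact isCompact_Icc.reProdIm isCompact_Icc

variable {K : Type} [Field K] [NumberField K]

/-- tails of convergent series over the primes -/
theorem exists_tail {x : ℝ} (hx : x < -1) {ε : ℝ} (hε : 0 < ε) (Z₁ : ℕ) : ∃ Z₀ : ℕ, Z₁ ≤ Z₀ ∧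
    ∀ A : Finset (HeightOneSpectrum (𝓞 K)), (∀ v ∈ A, Z₀ ≤ nm v) →
      ∑ v ∈ A, (nm v : ℝ) ^ x ≤ ε := by
  classical
  have hs : Summable fun v : HeightOneSpectrum (𝓞 K) => (nm v : ℝ) ^ x := nm_summable' hx
  have h1 := hs.hasSum
  have h2 := (tendsto_order.1 h1).1 (∑' v : HeightOneSpectrum (𝓞 K), (nm v : ℝ) ^ x - ε)
    (by linarith)
  obtain ⟨S, hS⟩ := eventually_atTop.1 h2
  refine ⟨max Z₁ (S.sup nm + 1), le_max_left _ _, fun A hA => ?_⟩
  have hdisj : Disjoint S A := by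
    rw [Finset.disjoint_left]
    intro v hv hvA
    have h3 := hA v hvA
    have h4 : nm v ≤ S.sup nm := Finset.le_sup (f := nm) hv
    have h5 := (le_max_right Z₁ (S.sup nm + 1)).trans h3
    omega
  have h3 : ∑ v ∈ S ∪ A, (nm v : ℝ) ^ x ≤ ∑' v : HeightOneSpectrum (𝓞 K), (nm v : ℝ) ^ x :=
    hs.sum_le_tsum _ fun v _ => by positivity
  rw [Finset.sum_union hdisj] at h3
  have h4 := hS S le_rfl
  linarith

/-- the norm of the exponentials -/
theorem norm_exp_lam (v : HeightOneSpectrum (𝓞 K)) (s : ℂ) :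
    ‖Complex.exp (-(s * ((Real.log (nm v) : ℝ) : ℂ)))‖ = (nm v : ℝ) ^ (-s.re) := by
  have hp : (0 : ℝ) < nm v := by exact_mod_cast nm_pos v
  rw [Complex.norm_exp, Real.rpow_def_of_pos hp]
  congr 1
  simp only [Complex.neg_re, Complex.mul_re, Complex.ofReal_re, Complex.ofReal_im, mul_zero,
    sub_zero]
  ring

/-- the exponentials as powers -/
theorem exp_lam_eq (v : HeightOneSpectrum (𝓞 K)) (s : ℂ) :
    Complex.exp (-((s - 1 / 2) * ((Real.log (nm v) : ℝ) : ℂ))) =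
      (Real.sqrt (nm v) : ℂ) * xv v s := by
  have hp : (0 : ℝ) < nm v := by exact_mod_cast nm_pos v
  have h1 : (Real.sqrt (nm v) : ℂ) = Complex.exp ((1 / 2) * ((Real.log (nm v) : ℝ) : ℂ)) := by
    have e1 : Real.sqrt (nm v) = Real.exp (1 / 2 * Real.log (nm v)) := by
      rw [Real.sqrt_eq_rpow, Real.rpow_def_of_pos hp]
      congr 1
      ring
    rw [e1]
    push_cast
    rfl
  have h2 : xv v s = Complex.exp (-(s * ((Real.log (nm v) : ℝ) : ℂ))) := by
    unfold xv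
    rw [Complex.cpow_def_of_ne_zero (nm_ne v), ← Complex.natCast_log]
    congr 1
    ring
  rw [h1, h2, ← Complex.exp_add]
  congr 1
  ring

/-- the area integral of a square -/
theorem int_exp_le (v : HeightOneSpectrum (𝓞 K)) {σ1 σ2 B : ℝ} (τ : ℝ) (hτ : |τ| ≤ 2) :
    ∫ s in ZU.rect σ1 σ2 B, ‖((τ : ℝ) : ℂ) *
      Complex.exp (-(s * ((Real.log (nm v) : ℝ) : ℂ)))‖ ^ 2 ≤
      4 * (volume (ZU.rect σ1 σ2 B)).toReal * (nm v : ℝ) ^ (-(2 * σ1)) := by
  have hp : (0 : ℝ) < nm v := by exact_mod_cast nm_pos v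
  have hp1 : (1 : ℝ) ≤ nm v := by exact_mod_cast nm_pos v
  have hc := rect_compact σ1 σ2 B
  have hcont : Continuous fun s : ℂ => ‖((τ : ℝ) : ℂ) *
      Complex.exp (-(s * ((Real.log (nm v) : ℝ) : ℂ)))‖ ^ 2 := by fun_prop
  have h1 : ∫ s in ZU.rect σ1 σ2 B, ‖((τ : ℝ) : ℂ) *
      Complex.exp (-(s * ((Real.log (nm v) : ℝ) : ℂ)))‖ ^ 2 ≤
      ∫ _s in ZU.rect σ1 σ2 B, 4 * (nm v : ℝ) ^ (-(2 * σ1)) := by
    refine setIntegral_mono_on (hcont.continuousOn.integrableOn_compact hc)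
      (integrableOn_const hc.measure_lt_top.ne) hc.measurableSet fun s hs => ?_
    rw [norm_mul, norm_exp_lam, mul_pow, Complex.norm_real, Real.norm_eq_abs]
    have h2 : |τ| ^ 2 ≤ 4 := by
      have := abs_nonneg τ
      nlinarith
    have h3 : ((nm v : ℝ) ^ (-s.re)) ^ 2 ≤ (nm v : ℝ) ^ (-(2 * σ1)) := by
      rw [← Real.rpow_natCast, ← Real.rpow_mul hp.le]
      refine Real.rpow_le_rpow_of_exponent_le hp1 ?_
      have := hs.1
      push_cast
      linarith
    exact mul_le_mul h2 h3 (by positivity) (by norm_num)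
  refine h1.trans (le_of_eq ?_)
  rw [setIntegral_const, smul_eq_mul]
  unfold Measure.real
  ring

/-- the logarithm of the Euler factor depends only on the residues -/
theorem lv_congr {v : HeightOneSpectrum (𝓞 K)} {a a' b b' : 𝓞 K} (s : ℂ)
    (ha : Ideal.Quotient.mk v.asIdeal a = Ideal.Quotient.mk v.asIdeal a')
    (hb : Ideal.Quotient.mk v.asIdeal b = Ideal.Quotient.mk v.asIdeal b') :
    lv s v a b = lv s v a' b' := by
  unfold lv
  rw [ha, hb]

theorem norm_sq_add_le (x y : ℂ) : ‖x + y‖ ^ 2 ≤ 2 * ‖x‖ ^ 2 + 2 * ‖y‖ ^ 2 := by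
  have h1 := norm_add_le x y
  have h2 : ‖x + y‖ ^ 2 ≤ (‖x‖ + ‖y‖) ^ 2 := pow_le_pow_left₀ (norm_nonneg _) h1 2
  nlinarith [sq_nonneg (‖x‖ - ‖y‖)]

/-- **the choice of the reductions** -/
theorem det (hLD : S_LD) (K : Type) [Field K] [NumberField K] {a b B : ℝ} (ha : 1 < a)
    (hab : a ≤ b) (hb : b < 3 / 2) (hB : 0 < B) (g : Polynomial ℝ) {η : ℝ} (hη : 0 < η) (Z₁ : ℕ) :
    ∃ Z : ℕ, Z₁ ≤ Z ∧ ∃ A A' : HeightOneSpectrum (𝓞 K) → 𝓞 K, ∀ s ∈ ZU.rect a b B,
      ‖(g.map (algebraMap ℝ ℂ)).eval s - ∑ v ∈ Pr K Z, lv s v (A v) (A' v)‖ ≤ η := by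
  classical
  set σ1 : ℝ := a / 2 with hσ1
  set σ2 : ℝ := b / 2 + 1 / 4 with hσ2
  obtain ⟨Ca, hCa, hsup⟩ := ZU.sup_le_area (a - 1 / 2) (b - 1 / 2) σ1 σ2 B (B + 1)
    (by rw [hσ1]; linarith) (by linarith) (by rw [hσ2]; linarith) hB (by linarith)
  set R := ZU.rect σ1 σ2 (B + 1) with hR
  have hRc : IsCompact R := rect_compact _ _ _
  set vol : ℝ := (volume R).toReal with hvol
  have hvol0 : 0 ≤ vol := ENNReal.toReal_nonneg
  -- the second order terms
  obtain ⟨hy0, hy1⟩ := y₀_bounds (σ := a) (by linarith)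
  set r₀ : ℝ := (2 : ℝ) ^ (1 / 2 - a) with hr₀
  set E : ℝ := 2 * (2 + (1 - r₀)⁻¹) with hE
  have hE0 : 0 < E := by
    have : 0 < (1 - r₀)⁻¹ := by
      rw [inv_pos]
      linarith
    rw [hE]
    linarith
  obtain ⟨Z₂, hZ₂, htail1⟩ := exists_tail (K := K) (x := 1 - 2 * a) (by linarith)
    (by positivity : 0 < η / (2 * E)) Z₁
  obtain ⟨Z₀, hZ₀, htail2⟩ := exists_tail (K := K) (x := -(2 * σ1)) (by rw [hσ1]; linarith)
    (by positivity : 0 < η ^ 2 / (8 * Ca * (32 * (vol + 1)))) Z₂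
  -- the index set
  set P : HeightOneSpectrum (𝓞 K) → Prop := fun v => (6 : 𝓞 K) ∉ v.asIdeal ∧ Z₀ ≤ nm v with hP
  have hlt := fun v : {v // P v} => large_trace (F := 𝓞 K ⧸ v.1.asIdeal) (six_ne v.2.1)
  choose t ht1 ht2 ht3 ht4 using hlt
  have hsq : ∀ v : HeightOneSpectrum (𝓞 K), 0 < Real.sqrt (nm v) := fun v =>
    Real.sqrt_pos.2 (by exact_mod_cast nm_pos v)
  set τ : {v // P v} → ℝ := fun v => t v / Real.sqrt (nm v.1) with hτ
  have hτ1 : ∀ v, 1 / 2 ≤ τ v := fun v => by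
    have h1 := ht1 v
    rw [card_v] at h1
    rw [hτ]
    simp only
    rw [le_div_iff₀ (hsq v.1)]
    linarith
  have hτ2 : ∀ v, τ v ≤ 2 := fun v => by
    have h1 := ht2 v
    rw [card_v] at h1
    rw [hτ]
    simp only
    rw [div_le_iff₀ (hsq v.1)]
    exact h1
  -- linear density
  set g' : Polynomial ℝ := g.comp (Polynomial.X + Polynomial.C (1 / 2)) with hg'
  have hg'e : ∀ s : ℂ, (g'.map (algebraMap ℝ ℂ)).eval s =
      (g.map (algebraMap ℝ ℂ)).eval (s + 1 / 2) := by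
    intro s
    rw [hg', Polynomial.map_comp, Polynomial.eval_comp]
    simp
  obtain ⟨F, α, hα, hLDi⟩ := hLD {v // P v} (fun v => Real.log (nm v.1)) (windows K Z₀) τ (1 / 2)
    (by norm_num) hτ1 σ1 σ2 (B + 1) (by rw [hσ1]; linarith) (by rw [hσ1, hσ2]; linarith)
    (by rw [hσ2]; linarith) (by linarith) g' (η ^ 2 / (16 * Ca)) (by positivity)
  rw [← hR] at hLDi
  set Z : ℕ := max Z₀ (F.sup (fun v => nm v.1) + 1) with hZ
  set F' : Finset {v // P v} := (Pr K Z).subtype P with hF'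
  have hFF' : F ⊆ F' := by
    intro v hv
    rw [hF', Finset.mem_subtype, mem_Pr]
    refine ⟨?_, v.2.1⟩
    have : nm v.1 ≤ F.sup (fun v => nm v.1) := Finset.le_sup (f := fun v : {v // P v} => nm v.1) hv
    have h2 := le_max_right Z₀ (F.sup (fun v => nm v.1) + 1)
    omega
  set α' : {v // P v} → ℝ := fun v => if v ∈ F then α v else 0 with hα'
  have hα'1 : ∀ v, |α' v| ≤ 1 := by
    intro v
    rw [hα']
    simp only
    split_ifs
    · exact hα v
    · simp
  set u : {v // P v} → ℂ → ℂ := fun v s => ((τ v : ℝ) : ℂ) *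
    Complex.exp (-(s * ((Real.log (nm v.1) : ℝ) : ℂ))) with hu
  have huc : ∀ v, Continuous (u v) := fun v => by
    rw [hu]
    fun_prop
  obtain ⟨ε, hε, hround⟩ := round_signs R hRc u (fun v => (huc v).continuousOn) α' hα'1 F'
  -- the error in the mean
  have hsumu : ∑ v ∈ F', ∫ s in R, ‖u v s‖ ^ 2 ≤
      4 * vol * (η ^ 2 / (8 * Ca * (32 * (vol + 1)))) := by
    have h1 : ∑ v ∈ F', ∫ s in R, ‖u v s‖ ^ 2 ≤
        ∑ v ∈ F', 4 * vol * (nm v.1 : ℝ) ^ (-(2 * σ1)) := by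
      refine Finset.sum_le_sum fun v _ => ?_
      refine int_exp_le v.1 (τ v) ?_
      rw [abs_le]
      constructor
      · have := hτ1 v
        linarith
      · exact hτ2 v
    refine h1.trans ?_
    rw [← Finset.mul_sum, Finset.sum_subtype_eq_sum_filter (s := Pr K Z) (p := P)
      (f := fun v => (nm v : ℝ) ^ (-(2 * σ1)))]
    refine mul_le_mul_of_nonneg_left (htail2 _ fun v hv => ?_) (by positivity)
    exact (Finset.mem_filter.1 hv).2.2
  set h : ℂ → ℂ := fun s => (g'.map (algebraMap ℝ ℂ)).eval s -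
    ∑ v ∈ F', ((ε v : ℝ) : ℂ) * u v s with hh
  have hdiff : Differentiable ℂ h := by
    rw [hh]
    refine Differentiable.sub (Polynomial.differentiable _) ?_
    refine Differentiable.fun_sum fun v _ => ?_
    rw [hu]
    fun_prop
  have hL2 : ∫ s in R, ‖h s‖ ^ 2 ≤ η ^ 2 / (4 * Ca) := by
    set h1 : ℂ → ℂ := fun s => (g'.map (algebraMap ℝ ℂ)).eval s -
      ∑ v ∈ F, ((α v * τ v : ℝ) : ℂ) *
        Complex.exp (-(s * ((Real.log (nm v.1) : ℝ) : ℂ))) with hh1
    set h2 : ℂ → ℂ := fun s => ∑ v ∈ F', ((ε v - α' v : ℝ) : ℂ) * u v s with hh2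
    have e1 : ∀ s, h s = h1 s + -(h2 s) := by
      intro s
      have e2 : ∑ v ∈ F, ((α v * τ v : ℝ) : ℂ) *
          Complex.exp (-(s * ((Real.log (nm v.1) : ℝ) : ℂ))) =
          ∑ v ∈ F', ((α' v : ℝ) : ℂ) * u v s := by
        rw [← Finset.sum_subset hFF' (f := fun v => ((α' v : ℝ) : ℂ) * u v s)]
        · refine Finset.sum_congr rfl fun v hv => ?_
          rw [hα', hu]
          simp only [if_pos hv]
          push_cast
          ring
        · intro v _ hv
          rw [hα']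
          simp only [if_neg hv]
          push_cast
          ring
      rw [hh, hh1, hh2]
      simp only
      rw [e2]
      have e3 : ∑ v ∈ F', ((ε v - α' v : ℝ) : ℂ) * u v s = ∑ v ∈ F', ((ε v : ℝ) : ℂ) * u v s -
          ∑ v ∈ F', ((α' v : ℝ) : ℂ) * u v s := by
        rw [← Finset.sum_sub_distrib]
        refine Finset.sum_congr rfl fun v _ => ?_
        push_cast
        ring
      rw [e3]
      ring
    have c1 : Continuous h1 := by
      rw [hh1]
      refine Continuous.sub (Polynomial.continuous _) ?_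
      refine continuous_finsetSum _ fun v _ => ?_
      fun_prop
    have c2 : Continuous h2 := by
      rw [hh2]
      refine continuous_finsetSum _ fun v _ => ?_
      exact continuous_const.mul (huc v)
    have i1 : IntegrableOn (fun s => 2 * ‖h1 s‖ ^ 2) R :=
      ((c1.norm.pow 2).const_mul 2).continuousOn.integrableOn_compact hRc
    have i2 : IntegrableOn (fun s => 2 * ‖h2 s‖ ^ 2) R :=
      ((c2.norm.pow 2).const_mul 2).continuousOn.integrableOn_compact hRc
    have i3 : IntegrableOn (fun s => ‖h s‖ ^ 2) R :=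
      (hdiff.continuous.norm.pow 2).continuousOn.integrableOn_compact hRc
    have i4 : IntegrableOn (fun s => 2 * ‖h1 s‖ ^ 2 + 2 * ‖h2 s‖ ^ 2) R := i1.add i2
    have e4 : ∫ s in R, ‖h s‖ ^ 2 ≤ 2 * (∫ s in R, ‖h1 s‖ ^ 2) + 2 * ∫ s in R, ‖h2 s‖ ^ 2 := by
      rw [← integral_const_mul, ← integral_const_mul, ← integral_add i1 i2]
      refine setIntegral_mono_on i3 i4 hRc.measurableSet fun s _ => ?_
      rw [e1 s]
      have := norm_sq_add_le (h1 s) (-(h2 s))
      rwa [norm_neg] at this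
    have e5 : 4 * ∑ v ∈ F', ∫ s in R, ‖u v s‖ ^ 2 ≤ η ^ 2 / (16 * Ca) := by
      refine (mul_le_mul_of_nonneg_left hsumu (by norm_num)).trans ?_
      have e6 : 4 * (4 * vol * (η ^ 2 / (8 * Ca * (32 * (vol + 1))))) =
          (vol / (vol + 1)) * (η ^ 2 / (16 * Ca)) := by
        field_simp
        ring
      rw [e6]
      refine mul_le_of_le_one_left (by positivity) ?_
      rw [div_le_one (by positivity)]
      linarith
    have e7 : η ^ 2 / (4 * Ca) = 2 * (η ^ 2 / (16 * Ca)) + 2 * (η ^ 2 / (16 * Ca)) := by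
      field_simp
      ring
    rw [e7]
    have e8 : ∫ s in R, ‖h1 s‖ ^ 2 ≤ η ^ 2 / (16 * Ca) := hLDi.le
    have e9 : ∫ s in R, ‖h2 s‖ ^ 2 ≤ η ^ 2 / (16 * Ca) := hround.trans e5
    linarith
  -- the curves
  have hex : ∀ v : HeightOneSpectrum (𝓞 K), ∃ x y : 𝓞 K, (∀ hv : P v, ((tr
      (Ideal.Quotient.mk v.asIdeal x) (Ideal.Quotient.mk v.asIdeal y) : ℤ) : ℝ) =
        ε ⟨v, hv⟩ * t ⟨v, hv⟩) ∧ (¬ P v → x = 0 ∧ y = 0) := by
    intro v
    by_cases hv : P v
    · rcases hε ⟨v, hv⟩ with h1 | h1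
      · obtain ⟨x, y, hxy⟩ := ht3 ⟨v, hv⟩
        obtain ⟨x', rfl⟩ := Ideal.Quotient.mk_surjective x
        obtain ⟨y', rfl⟩ := Ideal.Quotient.mk_surjective y
        exact ⟨x', y', fun _ => by rw [h1, one_mul]; exact hxy, fun h2 => absurd hv h2⟩
      · obtain ⟨x, y, hxy⟩ := ht4 ⟨v, hv⟩
        obtain ⟨x', rfl⟩ := Ideal.Quotient.mk_surjective x
        obtain ⟨y', rfl⟩ := Ideal.Quotient.mk_surjective y
        exact ⟨x', y', fun _ => by rw [h1, neg_one_mul]; exact hxy, fun h2 => absurd hv h2⟩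
    · exact ⟨0, 0, fun h1 => absurd h1 hv, fun _ => ⟨rfl, rfl⟩⟩
  choose A A' hA1 hA2 using hex
  refine ⟨Z, (hZ₂.trans hZ₀).trans (le_max_left _ _), A, A', fun s hs => ?_⟩
  -- the value of the approximation
  have hsplit : ∑ v ∈ Pr K Z, lv s v (A v) (A' v) =
      ∑ v ∈ (Pr K Z).filter P, lv s v (A v) (A' v) := by
    symm
    refine Finset.sum_subset (Finset.filter_subset _ _) fun v hv hv2 => ?_
    have h1 : ¬ P v := fun h2 => hv2 (Finset.mem_filter.2 ⟨hv, h2⟩)
    obtain ⟨h3, h4⟩ := hA2 v h1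
    rw [h3, h4]
    unfold lv
    split_ifs with h6
    · rfl
    · rw [map_zero]
      exact ll_zero (six_ne h6) _
  have hfirst : (g.map (algebraMap ℝ ℂ)).eval s - ∑ v ∈ (Pr K Z).filter P,
      (tv v (A v) (A' v) : ℂ) * xv v s = h (s - 1 / 2) := by
    rw [hh]
    simp only
    rw [hg'e, sub_add_cancel]
    congr 1
    rw [← Finset.sum_subtype_eq_sum_filter (s := Pr K Z) (p := P)
      (f := fun v => (tv v (A v) (A' v) : ℂ) * xv v s)]
    refine Finset.sum_congr rfl fun v _ => ?_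
    rw [hu]
    simp only
    rw [exp_lam_eq, hτ]
    simp only
    have h1 : tv v.1 (A v.1) (A' v.1) = ε v * t v := by
      unfold tv
      rw [if_neg v.2.1]
      exact hA1 v.1 v.2
    rw [h1]
    have h2 : (Real.sqrt (nm v.1) : ℂ) ≠ 0 := by
      exact_mod_cast (hsq v.1).ne'
    push_cast
    field_simp
  have hsec : ‖∑ v ∈ (Pr K Z).filter P, (lv s v (A v) (A' v) -
      (tv v (A v) (A' v) : ℂ) * xv v s)‖ ≤ η / 2 := by
    have t3 : ∀ v ∈ (Pr K Z).filter P, ‖lv s v (A v) (A' v) -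
        (tv v (A v) (A' v) : ℂ) * xv v s‖ ≤ E * (nm v : ℝ) ^ (1 - 2 * a) := by
      intro v hv
      have hPv := (Finset.mem_filter.1 hv).2
      have h6 : (6 : 𝓞 K) ∉ v.asIdeal := hPv.1
      have hq0 : (0 : ℝ) < nm v := by exact_mod_cast nm_pos v
      have hsz := (sz_le v hs.1).trans (pow_le_two v (by linarith : 1 / 2 < a))
      have k1 := ll_two (six_ne h6) (Ideal.Quotient.mk v.asIdeal (A v))
        (Ideal.Quotient.mk v.asIdeal (A' v)) hy0 hy1 hsz
      have e1 : lv s v (A v) (A' v) - (tv v (A v) (A' v) : ℂ) * xv v s =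
          ll (Ideal.Quotient.mk v.asIdeal (A v)) (Ideal.Quotient.mk v.asIdeal (A' v)) (xv v s) -
            (tr (Ideal.Quotient.mk v.asIdeal (A v)) (Ideal.Quotient.mk v.asIdeal (A' v)) : ℂ) *
              xv v s := by
        unfold lv tv
        rw [if_neg h6, if_neg h6]
        push_cast
        rfl
      rw [e1]
      refine k1.trans ?_
      have k2 : sz (𝓞 K ⧸ v.asIdeal) (xv v s) ^ 2 ≤ (nm v : ℝ) ^ (1 - 2 * a) := by
        calc sz (𝓞 K ⧸ v.asIdeal) (xv v s) ^ 2 ≤ ((nm v : ℝ) ^ (1 / 2 - a)) ^ 2 := by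
              refine pow_le_pow_left₀ ?_ (sz_le v hs.1) 2
              unfold sz
              positivity
          _ = (nm v : ℝ) ^ (1 - 2 * a) := by
              rw [← Real.rpow_natCast, ← Real.rpow_mul hq0.le]
              congr 1
              push_cast
              ring
      exact mul_le_mul_of_nonneg_left k2 hE0.le
    refine (norm_sum_le _ _).trans ((Finset.sum_le_sum t3).trans ?_)
    rw [← Finset.mul_sum]
    have t4 := htail1 ((Pr K Z).filter P) fun v hv =>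
      hZ₀.trans (Finset.mem_filter.1 hv).2.2
    calc E * ∑ v ∈ (Pr K Z).filter P, (nm v : ℝ) ^ (1 - 2 * a) ≤ E * (η / (2 * E)) :=
          mul_le_mul_of_nonneg_left t4 hE0.le
      _ = η / 2 := by field_simp
  have hsup1 : ‖h (s - 1 / 2)‖ ≤ η / 2 := by
    have hmem : s - 1 / 2 ∈ ZU.rect (a - 1 / 2) (b - 1 / 2) B := by
      obtain ⟨h1, h2, h3⟩ := hs
      refine ⟨?_, ?_, ?_⟩
      · simp only [Complex.sub_re, Complex.one_re, Complex.div_ofNat_re]
        linarith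
      · simp only [Complex.sub_re, Complex.one_re, Complex.div_ofNat_re]
        linarith
      · simpa [Complex.sub_im] using h3
    have h1 := hsup h Set.univ isOpen_univ (Set.subset_univ _) hdiff.differentiableOn _ hmem
    have h2 : ‖h (s - 1 / 2)‖ ^ 2 ≤ (η / 2) ^ 2 := by
      refine h1.trans ?_
      refine (mul_le_mul_of_nonneg_left hL2 hCa.le).trans (le_of_eq ?_)
      field_simp
      norm_num
    exact (pow_le_pow_iff_left₀ (norm_nonneg _) (by positivity) two_ne_zero).1 h2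
  rw [hsplit]
  have e : (g.map (algebraMap ℝ ℂ)).eval s - ∑ v ∈ (Pr K Z).filter P, lv s v (A v) (A' v) =
      h (s - 1 / 2) - ∑ v ∈ (Pr K Z).filter P, (lv s v (A v) (A' v) -
        (tv v (A v) (A' v) : ℂ) * xv v s) := by
    rw [← hfirst, Finset.sum_sub_distrib]
    ring
  rw [e]
  refine (norm_sub_le _ _).trans ?_
  linarith

end Pool.Agent.P8H18.UE
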