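import Pool.Agent.P8H18.UE.Key
import Pool.Agent.Helper240.ZU.G0
import Pool.Agent.Helper240.ZU.G3
import Pool.Agent.Helper240.ZU.G5

/-! Project UE: the duality theorem (written by helper43). -/

set_option autoImplicit false

namespace Pool.Agent.P8H18.UE

open MeasureTheory Filter Topology Set

namespace Dual

open Key

variable {σ1 σ2 B : ℝ} {φ : ℂ → ℂ}

lemma DD_cont (h1 : 0 < σ1) (hφ : IntegrableOn φ (ZU.rect σ1 σ2 B)) :
    ContinuousOn (DD σ1 σ2 B φ) (Ici 0) := by
  unfold DD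
  refine continuousOn_of_dominated (bound := fun s => ‖φ s‖) ?_ ?_ hφ.norm ?_
  · intro x _
    exact (hφ.aestronglyMeasurable).mul (Continuous.aestronglyMeasurable (by fun_prop))
  · intro x hx
    filter_upwards [ae_restrict_mem (rect_meas σ1 σ2 B)] with s hs
    rw [norm_mul]
    exact mul_le_of_le_one_right (norm_nonneg _) (norm_exp_le h1 hx hs)
  · filter_upwards with s
    exact Continuous.continuousOn (by fun_prop)

/-- the Laplace transform -/
noncomputable def AA (σ1 σ2 B : ℝ) (φ : ℂ → ℂ) (z : ℂ) : ℂ :=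
  ∫ x in Ioi (0:ℝ), DD σ1 σ2 B φ x * Complex.exp (z * (x : ℂ))

lemma x_le {ε x : ℝ} (hε : 0 < ε) : x ≤ 1 / ε * Real.exp (ε * x) := by
  have h2 := Real.add_one_le_exp (ε * x)
  rw [one_div_mul_eq_div, le_div_iff₀ hε]
  linarith

lemma AA_diff (h1 : 0 < σ1) (hφ : IntegrableOn φ (ZU.rect σ1 σ2 B))
    (hD : ∀ ε : ℝ, 0 < ε → ∃ A : ℝ, ∀ x : ℝ, 0 ≤ x →
      ‖DD σ1 σ2 B φ x‖ ≤ A * Real.exp (-((1 - ε) * x))) :
    DifferentiableOn ℂ (AA σ1 σ2 B φ) {z | z.re < 1} := by
  intro z0 hz0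
  have hz0' : z0.re < 1 := hz0
  set ε := (1 - z0.re) / 4 with hε
  have hε0 : 0 < ε := by rw [hε]; linarith
  obtain ⟨A, hA⟩ := hD ε hε0
  have hA0 : 0 ≤ A := by
    have := (norm_nonneg _).trans (hA 0 le_rfl)
    simpa using this
  have hcont := DD_cont (σ2 := σ2) (B := B) h1 hφ
  have hmD : AEStronglyMeasurable (DD σ1 σ2 B φ) (volume.restrict (Ioi (0:ℝ))) :=
    (hcont.mono Ioi_subset_Ici_self).aestronglyMeasurable measurableSet_Ioi
  have key := hasDerivAt_integral_of_dominated_loc_of_deriv_le (μ := volume.restrict (Ioi (0:ℝ)))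
    (F := fun z x => DD σ1 σ2 B φ x * Complex.exp (z * (x : ℂ)))
    (F' := fun z x => DD σ1 σ2 B φ x * (Complex.exp (z * (x : ℂ)) * (x : ℂ)))
    (bound := fun x => A * (1 / ε) * Real.exp (-ε * x)) (x₀ := z0) (s := Metric.ball z0 ε)
    (Metric.ball_mem_nhds z0 hε0) ?_ ?_ ?_ ?_ ?_ ?_
  · exact key.2.differentiableAt.differentiableWithinAt
  · filter_upwards with z
    exact hmD.mul (Continuous.aestronglyMeasurable (by fun_prop))
  · have hb : IntegrableOn (fun x : ℝ => A * Real.exp (-(3 * ε) * x)) (Ioi (0:ℝ)) :=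
      (integrableOn_exp_mul_Ioi (by linarith : -(3 * ε) < 0) 0).const_mul A
    refine Integrable.mono' hb (hmD.mul (Continuous.aestronglyMeasurable (by fun_prop))) ?_
    filter_upwards [ae_restrict_mem measurableSet_Ioi] with x hx
    have hx0 : (0:ℝ) ≤ x := le_of_lt hx
    rw [norm_mul, Complex.norm_exp, Complex.re_mul_ofReal]
    calc _ ≤ A * Real.exp (-((1 - ε) * x)) * Real.exp (z0.re * x) :=
          mul_le_mul_of_nonneg_right (hA x hx0) (Real.exp_pos _).le
      _ = A * Real.exp (-(3 * ε) * x) := by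
          rw [mul_assoc, ← Real.exp_add]
          congr 2
          have : z0.re = 1 - 4 * ε := by rw [hε]; ring
          rw [this]; ring
  · exact hmD.mul (Continuous.aestronglyMeasurable (by fun_prop))
  · filter_upwards [ae_restrict_mem measurableSet_Ioi] with x hx z hz
    have hx0 : (0:ℝ) ≤ x := le_of_lt hx
    have hzr : z.re ≤ 1 - 3 * ε := by
      have h2 : |(z - z0).re| ≤ ‖z - z0‖ := Complex.abs_re_le_norm _
      rw [Metric.mem_ball, dist_eq_norm] at hz
      rw [Complex.sub_re, abs_le] at h2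
      have : z0.re = 1 - 4 * ε := by rw [hε]; ring
      linarith [h2.2]
    rw [norm_mul, norm_mul, Complex.norm_exp, Complex.re_mul_ofReal, Complex.norm_real,
      Real.norm_eq_abs, abs_of_nonneg hx0]
    calc _ ≤ A * Real.exp (-((1 - ε) * x)) * (Real.exp ((1 - 3 * ε) * x) *
          (1 / ε * Real.exp (ε * x))) := by
          refine mul_le_mul (hA x hx0) ?_ (by positivity) (by positivity)
          refine mul_le_mul ?_ (x_le hε0) hx0 (Real.exp_pos _).le
          exact Real.exp_le_exp.2 (mul_le_mul_of_nonneg_right hzr hx0)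
      _ = A * (1 / ε) * (Real.exp (-((1 - ε) * x)) * Real.exp ((1 - 3 * ε) * x) *
          Real.exp (ε * x)) := by ring
      _ = A * (1 / ε) * Real.exp (-ε * x) := by
          rw [← Real.exp_add, ← Real.exp_add]
          congr 2
          ring
  · exact (integrableOn_exp_mul_Ioi (by linarith : -ε < 0) 0).const_mul _
  · filter_upwards with x z _
    have h2 : HasDerivAt (fun z : ℂ => z * (x : ℂ)) (x : ℂ) z := by
      simpa using (hasDerivAt_id z).mul_const (x : ℂ)
    exact (h2.cexp).const_mul (DD σ1 σ2 B φ x)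

lemma AA_eq (hφ : IntegrableOn φ (ZU.rect σ1 σ2 B)) {z : ℂ}
    (hz : z.re < σ1) : AA σ1 σ2 B φ z = ∫ s in ZU.rect σ1 σ2 B, φ s * (s - z)⁻¹ := by
  unfold AA DD
  have e1 : ∀ x : ℝ, (∫ s in ZU.rect σ1 σ2 B, φ s * Complex.exp (-(s * (x : ℂ)))) *
      Complex.exp (z * (x : ℂ)) =
      ∫ s in ZU.rect σ1 σ2 B, φ s * Complex.exp (-(s - z) * (x : ℂ)) := by
    intro x
    rw [← integral_mul_const]
    refine integral_congr_ae (ae_of_all _ fun s => ?_)
    simp only
    rw [mul_assoc, ← Complex.exp_add]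
    congr 2
    ring
  simp_rw [e1]
  have hint : Integrable (Function.uncurry fun (x : ℝ) (s : ℂ) =>
      φ s * Complex.exp (-(s - z) * (x : ℂ)))
      ((volume.restrict (Ioi (0:ℝ))).prod (volume.restrict (ZU.rect σ1 σ2 B))) := by
    have hb : Integrable (fun p : ℝ × ℂ => Real.exp ((z.re - σ1) * p.1) * ‖φ p.2‖)
        ((volume.restrict (Ioi (0:ℝ))).prod (volume.restrict (ZU.rect σ1 σ2 B))) :=
      (integrableOn_exp_mul_Ioi (by linarith : z.re - σ1 < 0) 0).mul_prod hφ.norm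
    refine Integrable.mono' hb ?_ ?_
    · refine AEStronglyMeasurable.mul ?_ (Continuous.aestronglyMeasurable (by fun_prop))
      exact hφ.aestronglyMeasurable.comp_snd
    · have hmem : ∀ᵐ p : ℝ × ℂ ∂((volume.restrict (Ioi (0:ℝ))).prod
          (volume.restrict (ZU.rect σ1 σ2 B))), p ∈ (Ioi (0:ℝ)) ×ˢ (ZU.rect σ1 σ2 B) := by
        rw [Measure.prod_restrict]
        exact ae_restrict_mem (measurableSet_Ioi.prod (rect_meas σ1 σ2 B))
      filter_upwards [hmem] with p hp
      obtain ⟨hx, hs⟩ := hp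
      have hx0 : (0:ℝ) ≤ p.1 := le_of_lt hx
      simp only [Function.uncurry]
      rw [norm_mul, mul_comm, Complex.norm_exp, Complex.re_mul_ofReal]
      refine mul_le_mul_of_nonneg_right ?_ (norm_nonneg _)
      apply Real.exp_le_exp.2
      refine mul_le_mul_of_nonneg_right ?_ hx0
      rw [Complex.neg_re, Complex.sub_re]
      have := hs.1
      linarith
  rw [integral_integral_swap hint]
  refine setIntegral_congr_fun (rect_meas σ1 σ2 B) fun s hs => ?_
  have hre : (-(s - z)).re < 0 := by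
    rw [Complex.neg_re, Complex.sub_re]
    have := hs.1
    linarith
  show ∫ x in Ioi (0:ℝ), φ s * Complex.exp (-(s - z) * (x : ℂ)) = φ s * (s - z)⁻¹
  rw [integral_const_mul, integral_exp_mul_complex_Ioi hre 0]
  congr 1
  simp only [Complex.ofReal_zero, mul_zero, Complex.exp_zero]
  rw [neg_div_neg_eq, one_div]

lemma Phi_diff (hφ : IntegrableOn φ (ZU.rect σ1 σ2 B)) :
    DifferentiableOn ℂ (fun z => ∫ s in ZU.rect σ1 σ2 B, φ s * (s - z)⁻¹) (ZU.rect σ1 σ2 B)ᶜ := by
  have hR : IsCompact (ZU.rect σ1 σ2 B) := by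
    have h : ZU.rect σ1 σ2 B = Set.Icc σ1 σ2 ×ℂ Set.Icc (-B) B := by
      ext z
      simp only [ZU.rect, Set.mem_ofPred_eq, Complex.mem_reProdIm, Set.mem_Icc, abs_le]
      tauto
    rw [h]
    exact isCompact_Icc.reProdIm isCompact_Icc
  have h := ZU.param_diff (ZU.rect σ1 σ2 B) hR φ hφ {1}ᶜ isOpen_compl_singleton
    (fun v => (v - 1)⁻¹) (by
      refine DifferentiableOn.inv (by fun_prop) ?_
      intro v hv
      exact sub_ne_zero.mpr hv)
  have hset : {z : ℂ | ∀ s ∈ ZU.rect σ1 σ2 B, s + 1 - z ∈ ({1} : Set ℂ)ᶜ} =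
      (ZU.rect σ1 σ2 B)ᶜ := by
    ext z
    simp only [Set.mem_ofPred_eq, mem_compl_iff, mem_singleton_iff]
    constructor
    · intro h hz
      exact h z hz (by ring)
    · intro hz s hs' he
      have : s = z := by linear_combination he
      exact hz (this ▸ hs')
  rw [hset] at h
  refine h.congr ?_
  intro z _
  refine integral_congr_ae (ae_of_all _ fun s => ?_)
  have : s + 1 - z - 1 = s - z := by ring
  simp only [this]

end Dual

theorem dual : S_DUAL := by
  intro V lam hW σ1 σ2 B h1 h12 h2 hB φ hφ C hC n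
  have h0 : 0 < σ1 := by linarith
  have hD := fun ε (hε : (0:ℝ) < ε) => Key.main hW h0 hφ hC hε
  obtain ⟨Ψ, hΨ, hΨe⟩ := ZU.stepping σ1 σ2 B hB h12 h2
    (fun z => ∫ s in ZU.rect σ1 σ2 B, φ s * (s - z)⁻¹) (Dual.AA σ1 σ2 B φ) (Dual.Phi_diff hφ)
    ((Dual.AA_diff h0 hφ hD).mono fun z hz => hz.2.2) 0 (fun j => j.elim0) (fun j => j.elim0) (by
      intro z _ _ hz
      rw [Dual.AA_eq hφ hz]
      simp)
  exact ZU.moments_zero σ1 σ2 B φ hφ Ψ hΨ hΨe n

end Pool.Agent.P8H18.UE
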