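import Pool.Agent.P8H18.UE.Stm2

/-! Project UE: the family of the curves. -/

set_option autoImplicit false
set_option linter.unusedSectionVars false

namespace Pool.Agent.P8H18.UE

open Finset MeasureTheory Filter Topology NumberField IsDedekindDomain
open Pool.Agent.P8H18.MF Pool.Agent.P8H18.AA
open Pool.Agent.H921R2.TatePole (nm two_le_nm)
open Pool.Agent.H341R2 (card_v finite_v)

section lin

variable {R : Type} [CommRing R] {ι : Type} [Fintype ι] [DecidableEq ι]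
  {β : Module.Basis ι ℤ R}

theorem hasM_cmul (k : ℂ) {f : R → R → ℂ} {c : ℂ} (h : HasM β f c) :
    HasM β (fun a b => k * f a b) (k * c) := by
  have h1 := Tendsto.const_mul k h
  refine h1.congr fun N => ?_
  unfold mean2
  rw [mul_div_assoc']
  congr 1
  rw [mul_sum]
  exact sum_congr rfl fun a _ => by rw [mul_sum]

theorem hasM_nil : HasM β (fun _ _ => (0 : ℂ)) 0 := by
  unfold HasM
  have : mean2 β (fun _ _ => (0 : ℂ)) = fun _ => 0 := by
    funext N
    unfold mean2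
    simp
  rw [this]
  exact tendsto_const_nhds

theorem hasM_add' {f g : R → R → ℂ} {c d : ℂ} (h1 : HasM β f c) (h2 : HasM β g d) :
    HasM β (fun a b => f a b + g a b) (c + d) := by
  have := Tendsto.add h1 h2
  refine this.congr fun N => ?_
  unfold mean2
  rw [← add_div]
  congr 1
  simp_rw [sum_add_distrib]

theorem hasM_fsum {τ : Type*} (s : Finset τ) {f : τ → R → R → ℂ} {c : τ → ℂ}
    (h : ∀ i ∈ s, HasM β (f i) (c i)) :
    HasM β (fun a b => ∑ i ∈ s, f i a b) (∑ i ∈ s, c i) := by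
  classical
  induction s using Finset.induction_on with
  | empty => simpa using (hasM_nil (β := β))
  | insert i s hi ih =>
    have h1 := hasM_add' (h i (mem_insert_self _ _))
      (ih fun j hj => h j (mem_insert_of_mem hj))
    simp only [sum_insert hi]
    exact h1

end lin

variable {K : Type} [Field K] [NumberField K] {ι : Type} [Fintype ι] [DecidableEq ι]

/-- the local mean of a function over the equations minimal at `v` -/
noncomputable def Lm (v : HeightOneSpectrum (𝓞 K))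
    (φ : 𝓞 K ⧸ v.asIdeal → 𝓞 K ⧸ v.asIdeal → ℂ) : ℂ :=
  (∑ x, ∑ y, φ x y) / (Fintype.card (𝓞 K ⧸ v.asIdeal) : ℂ) ^ 2 - φ 0 0 / (nm v : ℂ) ^ 10

/-- the local factor -/
noncomputable def fT (c : Prop) (T : Finset (HeightOneSpectrum (𝓞 K)))
    (φ : ∀ v : HeightOneSpectrum (𝓞 K), 𝓞 K ⧸ v.asIdeal → 𝓞 K ⧸ v.asIdeal → ℂ)
    (v : HeightOneSpectrum (𝓞 K)) (a b : 𝓞 K) : ℂ := by
  classical
  exact if MinAt c v a b then
    (if v ∈ T then φ v (Ideal.Quotient.mk v.asIdeal a) (Ideal.Quotient.mk v.asIdeal b) else 1)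
    else 0

/-- the local mean of the local factor -/
noncomputable def eT (c : Prop) (T : Finset (HeightOneSpectrum (𝓞 K)))
    (φ : ∀ v : HeightOneSpectrum (𝓞 K), 𝓞 K ⧸ v.asIdeal → 𝓞 K ⧸ v.asIdeal → ℂ)
    (v : HeightOneSpectrum (𝓞 K)) : ℂ := by
  classical
  exact dc c v * (if v ∈ T then Lm v (φ v) / dc c v else 1)

theorem per_fT (c : Prop) (T : Finset (HeightOneSpectrum (𝓞 K)))
    (φ : ∀ v : HeightOneSpectrum (𝓞 K), 𝓞 K ⧸ v.asIdeal → 𝓞 K ⧸ v.asIdeal → ℂ)
    (v : HeightOneSpectrum (𝓞 K)) : Per (v.asIdeal ^ 6) (fT c T φ v) := by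
  classical
  have h1 := per_min c v
  intro a b a' b' ha hb
  have h2 := h1 a b a' b' ha hb
  have ha1 : a - a' ∈ v.asIdeal := Ideal.pow_le_self (by norm_num) ha
  have hb1 : b - b' ∈ v.asIdeal := Ideal.pow_le_self (by norm_num) hb
  have h3 : MinAt c v a b ↔ MinAt c v a' b' := by
    simp only at h2
    by_cases h4 : MinAt c v a b <;> by_cases h5 : MinAt c v a' b'
    · exact ⟨fun _ => h5, fun _ => h4⟩
    · rw [if_pos h4, if_neg h5] at h2; exact absurd h2 one_ne_zero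
    · rw [if_neg h4, if_pos h5] at h2; exact absurd h2.symm one_ne_zero
    · exact ⟨fun h => absurd h h4, fun h => absurd h h5⟩
  unfold fT
  simp only [h3, Ideal.Quotient.eq.2 ha1, Ideal.Quotient.eq.2 hb1]

theorem hasM_fT (β : Module.Basis ι ℤ (𝓞 K)) (c : Prop) (T : Finset (HeightOneSpectrum (𝓞 K)))
    (hT : ∀ v ∈ T, (6 : 𝓞 K) ∉ v.asIdeal)
    (φ : ∀ v : HeightOneSpectrum (𝓞 K), 𝓞 K ⧸ v.asIdeal → 𝓞 K ⧸ v.asIdeal → ℂ)
    (v : HeightOneSpectrum (𝓞 K)) : HasM β (fT c T φ v) (eT c T φ v) := by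
  classical
  by_cases hv : v ∈ T
  · have h6 := hT v hv
    have : Finite (𝓞 K ⧸ v.asIdeal ^ 4) := finite_pow v 4
    have : Finite (𝓞 K ⧸ v.asIdeal ^ 6) := finite_pow v 6
    have i4 : Fintype (𝓞 K ⧸ v.asIdeal ^ 4) := Fintype.ofFinite _
    have i6 : Fintype (𝓞 K ⧸ v.asIdeal ^ 6) := Fintype.ofFinite _
    have h1 := hasM_mod (β := β) v.asIdeal (φ v)
    have h2 := hasM_indicator (β := β) (v.asIdeal ^ 4) (v.asIdeal ^ 6)
    have h3 := h1.sub (hasM_cmul (φ v 0 0) h2)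
    have e1 : (fun a b : 𝓞 K => φ v (Ideal.Quotient.mk v.asIdeal a)
        (Ideal.Quotient.mk v.asIdeal b) -
        φ v 0 0 * (if a ∈ v.asIdeal ^ 4 ∧ b ∈ v.asIdeal ^ 6 then (1 : ℂ) else 0)) =
        fT c T φ v := by
      funext a b
      unfold fT
      rw [if_pos hv]
      by_cases hab : a ∈ v.asIdeal ^ 4 ∧ b ∈ v.asIdeal ^ 6
      · have hm : ¬ MinAt c v a b := fun h => h.2 h6 hab
        rw [if_pos hab, if_neg hm]
        have ha : Ideal.Quotient.mk v.asIdeal a = 0 :=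
          Ideal.Quotient.eq_zero_iff_mem.2 (Ideal.pow_le_self (by norm_num) hab.1)
        have hb : Ideal.Quotient.mk v.asIdeal b = 0 :=
          Ideal.Quotient.eq_zero_iff_mem.2 (Ideal.pow_le_self (by norm_num) hab.2)
        rw [ha, hb, mul_one, sub_self]
      · have hm : MinAt c v a b := ⟨fun h => absurd h h6, fun _ => hab⟩
        rw [if_neg hab, if_pos hm, mul_zero, sub_zero]
    rw [e1] at h3
    have e2 : (∑ x : 𝓞 K ⧸ v.asIdeal, ∑ y : 𝓞 K ⧸ v.asIdeal, φ v x y) /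
        (Fintype.card (𝓞 K ⧸ v.asIdeal) : ℂ) ^ 2 -
        φ v 0 0 * (1 / ((Fintype.card (𝓞 K ⧸ v.asIdeal ^ 4) : ℂ) *
          Fintype.card (𝓞 K ⧸ v.asIdeal ^ 6))) = eT c T φ v := by
      unfold eT Lm
      rw [if_pos hv, mul_div_cancel₀ _ (dc_ne c v), card_pow, card_pow]
      push_cast
      rw [← pow_add, mul_one_div]
    rw [e2] at h3
    exact h3
  · have h1 := hasM_gv β c (φ := fun _ _ _ => 1) (fun _ _ => rfl) v
    have e1 : gv (fun _ _ _ => (1 : ℂ)) c v = fT c T φ v := by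
      funext a b
      unfold gv psiG fT
      rw [if_neg hv, ite_self]
    have e2 : EG c (fun _ _ _ => (1 : ℂ)) v = eT c T φ v := by
      unfold EG eT
      rw [if_neg hv]
      congr 1
      unfold MG
      split_ifs
      · rfl
      · rw [sum_const2, mul_one, div_self card_ne, sub_self, zero_div, add_zero]
    rw [e1, e2] at h1
    exact h1

theorem hasM_fin_fT (β : Module.Basis ι ℤ (𝓞 K)) (c : Prop)
    (T : Finset (HeightOneSpectrum (𝓞 K))) (hT : ∀ v ∈ T, (6 : 𝓞 K) ∉ v.asIdeal)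
    (φ : ∀ v : HeightOneSpectrum (𝓞 K), 𝓞 K ⧸ v.asIdeal → 𝓞 K ⧸ v.asIdeal → ℂ)
    (S : Finset (HeightOneSpectrum (𝓞 K))) :
    ∃ J : Ideal (𝓞 K), J ≠ ⊥ ∧ (∀ w : HeightOneSpectrum (𝓞 K), w ∉ S →
      IsCoprime (w.asIdeal ^ 6) J) ∧ HasM β (fun a b => ∏ v ∈ S, fT c T φ v a b)
        (∏ v ∈ S, eT c T φ v) ∧ Per J (fun a b => ∏ v ∈ S, fT c T φ v a b) := by
  classical
  induction S using Finset.induction_on with
  | empty =>
    refine ⟨⊤, top_ne_bot, fun w _ => ?_, ?_, ?_⟩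
    · rw [Ideal.isCoprime_iff_sup_eq, sup_top_eq]
    · simp only [prod_empty]
      exact hasM_one β
    · intro a b a' b' _ _
      simp only [prod_empty]
  | insert v S hv ih =>
    obtain ⟨J, hJ, hJc, hM, hP⟩ := ih
    have e1 : (fun a b : 𝓞 K => ∏ w ∈ insert v S, fT c T φ w a b) =
        fun a b => fT c T φ v a b * ∏ w ∈ S, fT c T φ w a b := by
      funext a b
      rw [prod_insert hv]
    have hI : v.asIdeal ^ 6 ≠ ⊥ := pow_ne_zero 6 v.ne_bot
    obtain ⟨h1, h2⟩ := hasM_step β hI hJ (hJc v hv) (per_fT c T φ v) hP (hasM_fT β c T hT φ v) hM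
    refine ⟨v.asIdeal ^ 6 * J, mul_ne_zero hI hJ, fun w hw => ?_, ?_, ?_⟩
    · rw [mem_insert, not_or] at hw
      exact (coprime_pow hw.1 6 6).mul_right (hJc w hw.2)
    · rw [e1, prod_insert hv]
      exact h1
    · rw [e1]
      exact h2

/-- **the mean over the family of a product of local functions** -/
theorem fam_mean (β : Module.Basis ι ℤ (𝓞 K)) (c : Prop)
    (T : Finset (HeightOneSpectrum (𝓞 K))) (hT : ∀ v ∈ T, (6 : 𝓞 K) ∉ v.asIdeal)
    (φ : ∀ v : HeightOneSpectrum (𝓞 K), 𝓞 K ⧸ v.asIdeal → 𝓞 K ⧸ v.asIdeal → ℂ) :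
    HasM β (fun a b => by
      classical
      exact if Red c a b then ∏ v ∈ T, φ v (Ideal.Quotient.mk v.asIdeal a)
        (Ideal.Quotient.mk v.asIdeal b) else 0)
      ((∏' v : HeightOneSpectrum (𝓞 K), dc c v) * ∏ v ∈ T, (Lm v (φ v) / dc c v)) := by
  classical
  obtain ⟨ψ, hψ⟩ : ∃ ψ : HeightOneSpectrum (𝓞 K) → 𝓞 K → 𝓞 K → ℂ, ∀ v a b, ψ v a b =
    if v ∈ T then φ v (Ideal.Quotient.mk v.asIdeal a) (Ideal.Quotient.mk v.asIdeal b) else 1 :=
    ⟨_, fun _ _ _ => rfl⟩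
  obtain ⟨u, hu⟩ : ∃ u : HeightOneSpectrum (𝓞 K) → ℝ, ∀ v, u v =
    if v ∈ T then ∑ x, ∑ y, ‖φ v x y - 1‖ else 0 := ⟨_, fun _ => rfl⟩
  have hus : Summable u := by
    refine summable_of_ne_finset_zero (s := T) fun v hv => ?_
    rw [hu, if_neg hv]
  have hub : ∀ v a b, ‖ψ v a b - 1‖ ≤ u v := by
    intro v a b
    rw [hψ, hu]
    split_ifs with hv
    · refine le_trans ?_ (single_le_sum (f := fun x => ∑ y, ‖φ v x y - 1‖)
        (fun x _ => sum_nonneg fun y _ => norm_nonneg _) (mem_univ (Ideal.Quotient.mk v.asIdeal a)))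
      exact single_le_sum (f := fun y => ‖φ v (Ideal.Quotient.mk v.asIdeal a) y - 1‖)
        (fun y _ => norm_nonneg _) (mem_univ (Ideal.Quotient.mk v.asIdeal b))
    · rw [sub_self, norm_zero]
  have hm2 : Multipliable fun v : HeightOneSpectrum (𝓞 K) =>
      if v ∈ T then Lm v (φ v) / dc c v else 1 := by
    refine multipliable_of_ne_finset_one (s := T) fun v hv => ?_
    rw [if_neg hv]
  have hE : Multipliable (eT c T φ) := (dc_multipliable (K := K) c).mul hm2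
  have h1 := hasM_tprod c β ψ u hus hub (eT c T φ) hE (fun S => by
    obtain ⟨_, _, _, h, _⟩ := hasM_fin_fT β c T hT φ S
    have e : (fun a b : 𝓞 K => ∏ v ∈ S, (if MinAt c v a b then ψ v a b else 0)) =
        fun a b => ∏ v ∈ S, fT c T φ v a b := by
      funext a b
      refine prod_congr rfl fun v _ => ?_
      unfold fT
      rw [hψ]
    rw [e]
    exact h)
  have h2 : ∏' v, eT c T φ v = (∏' v : HeightOneSpectrum (𝓞 K), dc c v) *
      ∏ v ∈ T, (Lm v (φ v) / dc c v) := by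
    have h3 : ∏' v, eT c T φ v = (∏' v : HeightOneSpectrum (𝓞 K), dc c v) *
        ∏' v : HeightOneSpectrum (𝓞 K), (if v ∈ T then Lm v (φ v) / dc c v else 1) :=
      (dc_multipliable (K := K) c).tprod_mul hm2
    rw [h3]
    congr 1
    rw [tprod_eq_prod (s := T) fun v hv => if_neg hv]
    exact prod_congr rfl fun v hv => if_pos hv
  rw [h2] at h1
  have e2 : (fun a b : 𝓞 K => if Red c a b then ∏' v, ψ v a b else 0) =
      fun a b => if Red c a b then ∏ v ∈ T, φ v (Ideal.Quotient.mk v.asIdeal a)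
        (Ideal.Quotient.mk v.asIdeal b) else 0 := by
    funext a b
    congr 1
    rw [tprod_eq_prod (s := T) fun v hv => by rw [hψ, if_neg hv]]
    exact prod_congr rfl fun v hv => by rw [hψ, if_pos hv]
  rw [e2] at h1
  exact h1

/-- the product of the densities is a positive real number -/
theorem dprod_pos (β : Module.Basis ι ℤ (𝓞 K)) (c : Prop) :
    ∃ r : ℝ, 0 < r ∧ (∏' v : HeightOneSpectrum (𝓞 K), dc c v) = r := by
  classical
  have h1 := hasM_red (K := K) β c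
  have hcl : IsClosed {z : ℂ | z.im = 0 ∧ 0 ≤ z.re} :=
    (isClosed_eq Complex.continuous_im continuous_const).inter
      (isClosed_le continuous_const Complex.continuous_re)
  have h2 : (∏' v : HeightOneSpectrum (𝓞 K), dc c v) ∈ {z : ℂ | z.im = 0 ∧ 0 ≤ z.re} := by
    refine hcl.mem_of_tendsto h1 (Filter.Eventually.of_forall fun N => ?_)
    have h3 := (fr_eq (β := β) (fun a b => Red c a b) N)
    have h4 : mean2 β (fun a b => if Red c a b then (1 : ℂ) else 0) N =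
        (fr β (fun a b => Red c a b) N : ℂ) := by
      rw [h3]
    rw [Set.mem_ofPred_eq, h4]
    exact ⟨Complex.ofReal_im _, by
      rw [Complex.ofReal_re]
      unfold fr
      positivity⟩
  obtain ⟨h5, h6⟩ := h2
  have h7 : (∏' v : HeightOneSpectrum (𝓞 K), dc c v) =
      (((∏' v : HeightOneSpectrum (𝓞 K), dc c v).re : ℝ) : ℂ) :=
    Complex.ext (by simp) (by simp [h5])
  refine ⟨(∏' v : HeightOneSpectrum (𝓞 K), dc c v).re, lt_of_le_of_ne h6 fun h8 => ?_, h7⟩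
  refine dprod_ne (K := K) c ?_
  rw [h7, ← h8]
  simp

/-- the indicator of a class has a positive local mean -/
theorem Lm_ind (v : HeightOneSpectrum (𝓞 K)) (e f : 𝓞 K ⧸ v.asIdeal) :
    ∃ r : ℝ, 0 < r ∧ Lm v (fun x y => if x = e ∧ y = f then 1 else 0) = r := by
  classical
  have h2 : (2 : ℝ) ≤ nm v := by exact_mod_cast two_le_nm v
  have hq : (0 : ℝ) < nm v := by linarith
  have hs : (∑ x : 𝓞 K ⧸ v.asIdeal, ∑ y : 𝓞 K ⧸ v.asIdeal,
      (if x = e ∧ y = f then (1 : ℂ) else 0)) = 1 := by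
    rw [sum_eq_single e, sum_eq_single f]
    · simp
    · intro y _ hy
      rw [if_neg fun h => hy h.2]
    · intro h; exact absurd (mem_univ _) h
    · intro x _ hx
      exact sum_eq_zero fun y _ => if_neg fun h => hx h.1
    · intro h; exact absurd (mem_univ _) h
  obtain ⟨t, ht0, ht1, ht⟩ : ∃ t : ℝ, 0 ≤ t ∧ t ≤ 1 ∧
      (if (0 : 𝓞 K ⧸ v.asIdeal) = e ∧ (0 : 𝓞 K ⧸ v.asIdeal) = f then (1 : ℂ) else 0) = t := by
    split_ifs
    · exact ⟨1, by norm_num, le_rfl, by simp⟩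
    · exact ⟨0, le_rfl, by norm_num, by simp⟩
  refine ⟨1 / (nm v : ℝ) ^ 2 - t / (nm v : ℝ) ^ 10, ?_, ?_⟩
  · have h3 : t / (nm v : ℝ) ^ 10 ≤ 1 / (nm v : ℝ) ^ 10 := by gcongr
    have h4 : 1 / (nm v : ℝ) ^ 10 < 1 / (nm v : ℝ) ^ 2 := by
      refine one_div_lt_one_div_of_lt (by positivity) ?_
      exact pow_lt_pow_right₀ (by linarith) (by norm_num)
    linarith
  · unfold Lm
    beta_reduce
    rw [hs, ht]
    have : (Fintype.card (𝓞 K ⧸ v.asIdeal) : ℂ) = ((nm v : ℕ) : ℂ) := by rw [card_v]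
    rw [this]
    push_cast
    rfl

theorem Lm_tr {v : HeightOneSpectrum (𝓞 K)} (h6 : (6 : 𝓞 K) ∉ v.asIdeal) :
    Lm v (fun x y => (tr x y : ℂ)) = 0 := by
  have h1 : (∑ x : 𝓞 K ⧸ v.asIdeal, ∑ y : 𝓞 K ⧸ v.asIdeal, (tr x y : ℂ)) = 0 := by
    have := sum_tr_zero (F := 𝓞 K ⧸ v.asIdeal) (six_ne h6)
    have h2 : (((∑ x : 𝓞 K ⧸ v.asIdeal, ∑ y : 𝓞 K ⧸ v.asIdeal, (tr x y : ℝ)) : ℝ) : ℂ) = 0 := by
      rw [this]; simp
    push_cast at h2
    exact h2
  unfold Lm
  beta_reduce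
  rw [h1, tr_zero_zero (six_ne h6)]
  simp

theorem Lm_tr_sq {v : HeightOneSpectrum (𝓞 K)} (h6 : (6 : 𝓞 K) ∉ v.asIdeal) :
    ∃ r : ℝ, 0 ≤ r ∧ r ≤ nm v ∧ Lm v (fun x y => (tr x y : ℂ) ^ 2) = r := by
  have hq : (0 : ℝ) < nm v := by exact_mod_cast nm_pos v
  refine ⟨(∑ x : 𝓞 K ⧸ v.asIdeal, ∑ y : 𝓞 K ⧸ v.asIdeal, (tr x y : ℝ) ^ 2) / (nm v : ℝ) ^ 2,
    ?_, ?_, ?_⟩
  · exact div_nonneg (sum_nonneg fun x _ => sum_nonneg fun y _ => sq_nonneg _) (by positivity)
  · have h2 := sum_tr_sq_le (F := 𝓞 K ⧸ v.asIdeal) (six_ne h6)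
    rw [card_v] at h2
    have hh : (Ideal.absNorm v.asIdeal : ℝ) = nm v := rfl
    rw [div_le_iff₀ (by positivity)]
    calc _ ≤ _ := h2
      _ = _ := by ring
  · unfold Lm
    beta_reduce
    rw [tr_zero_zero (six_ne h6)]
    have : (Fintype.card (𝓞 K ⧸ v.asIdeal) : ℂ) = ((nm v : ℕ) : ℂ) := by rw [card_v]
    rw [this]
    push_cast
    ring

theorem dc_half (c : Prop) {v : HeightOneSpectrum (𝓞 K)} (h6 : (6 : 𝓞 K) ∉ v.asIdeal) {r : ℝ}
    (h : dc c v = r) : 1 / 2 ≤ r := by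
  classical
  obtain ⟨t, ht1, _, ht⟩ := dv_real v
  have h1 : dc c v = dv v := by
    unfold dc
    rw [if_neg h6]
  rw [h, ht] at h1
  have h2 : r = t := by exact_mod_cast h1
  rw [h2]
  exact ht1

theorem fam : S_FAM := by
  classical
  intro K _ _ ι _ _ β c T hT e f
  obtain ⟨D, hD, hDe⟩ := dprod_pos (K := K) β c
  choose w hw hwe using fun v : HeightOneSpectrum (𝓞 K) => Lm_ind v (e v) (f v)
  choose d hd hd1 hde using fun v : HeightOneSpectrum (𝓞 K) => dc_real (K := K) c v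
  have hrr0 : ∀ v : HeightOneSpectrum (𝓞 K), ∃ r : ℝ, (6 : 𝓞 K) ∉ v.asIdeal →
      (0 ≤ r ∧ r ≤ nm v ∧ Lm v (fun x y => (tr x y : ℂ) ^ 2) = r) := by
    intro v
    by_cases h6 : (6 : 𝓞 K) ∈ v.asIdeal
    · exact ⟨0, fun h => absurd h6 h⟩
    · obtain ⟨r, hr⟩ := Lm_tr_sq h6
      exact ⟨r, fun _ => hr⟩
  choose rr hrr using hrr0
  obtain ⟨δ0, hδe⟩ : ∃ δ0 : ℝ, δ0 = D * ∏ v ∈ T, (w v / d v) := ⟨_, rfl⟩
  have hδ0 : 0 < δ0 := by
    rw [hδe]
    exact mul_pos hD (prod_pos fun v _ => div_pos (hw v) (hd v))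
  refine ⟨δ0 / 2, by positivity, ?_⟩
  intro W hW hTW R hR u hu η hη hsum
  obtain ⟨Cl, hCl⟩ : ∃ Cl : 𝓞 K → 𝓞 K → Prop, ∀ a b, Cl a b ↔ (Red c a b ∧
      ∀ v ∈ T, Ideal.Quotient.mk v.asIdeal a = e v ∧ Ideal.Quotient.mk v.asIdeal b = f v) :=
    ⟨_, fun _ _ => Iff.rfl⟩
  have key : ∀ (V : Finset (HeightOneSpectrum (𝓞 K))), V ⊆ W →
      ∀ χ : ∀ v : HeightOneSpectrum (𝓞 K), 𝓞 K ⧸ v.asIdeal → 𝓞 K ⧸ v.asIdeal → ℂ,
      HasM β (fun a b => if Cl a b then ∏ v ∈ V, χ v (Ideal.Quotient.mk v.asIdeal a)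
        (Ideal.Quotient.mk v.asIdeal b) else 0) ((δ0 : ℂ) * ∏ v ∈ V, (Lm v (χ v) / dc c v)) := by
    intro V hV χ
    have hdis : Disjoint T V := hTW.mono_right hV
    have h6 : ∀ v ∈ T ∪ V, (6 : 𝓞 K) ∉ v.asIdeal := by
      intro v hv
      rcases mem_union.1 hv with h | h
      · exact hT v h
      · exact hW v (hV h)
    obtain ⟨φ, hφ⟩ : ∃ φ : ∀ v : HeightOneSpectrum (𝓞 K), 𝓞 K ⧸ v.asIdeal → 𝓞 K ⧸ v.asIdeal → ℂ,
        ∀ v, φ v = if v ∈ T then (fun x y => if x = e v ∧ y = f v then 1 else 0) else χ v :=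
      ⟨_, fun _ => rfl⟩
    have h1 := fam_mean β c (T ∪ V) h6 φ
    have hφT : ∀ v ∈ T, φ v = fun x y => if x = e v ∧ y = f v then 1 else 0 := by
      intro v hv
      rw [hφ, if_pos hv]
    have hφV : ∀ v ∈ V, φ v = χ v := by
      intro v hv
      rw [hφ, if_neg (fun h => (Finset.disjoint_left.1 hdis) h hv)]
    have e1 : (∏' v : HeightOneSpectrum (𝓞 K), dc c v) * ∏ v ∈ T ∪ V, (Lm v (φ v) / dc c v) =
        (δ0 : ℂ) * ∏ v ∈ V, (Lm v (χ v) / dc c v) := by
      rw [prod_union hdis, hDe, hδe, ← mul_assoc]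
      push_cast
      congr 1
      · congr 1
        refine prod_congr rfl fun v hv => ?_
        rw [hφT v hv, hde]
        congr 1
        exact hwe v
      · exact prod_congr rfl fun v hv => by rw [hφV v hv]
    rw [e1] at h1
    have e2 : (fun a b : 𝓞 K => if Red c a b then ∏ v ∈ T ∪ V, φ v (Ideal.Quotient.mk v.asIdeal a)
        (Ideal.Quotient.mk v.asIdeal b) else 0) =
        fun a b => if Cl a b then ∏ v ∈ V, χ v (Ideal.Quotient.mk v.asIdeal a)
        (Ideal.Quotient.mk v.asIdeal b) else 0 := by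
      funext a b
      have h2 : ∏ v ∈ T, φ v (Ideal.Quotient.mk v.asIdeal a) (Ideal.Quotient.mk v.asIdeal b) =
          if (∀ v ∈ T, Ideal.Quotient.mk v.asIdeal a = e v ∧ Ideal.Quotient.mk v.asIdeal b = f v)
            then 1 else 0 := by
        rw [prod_congr rfl fun v hv => by rw [hφT v hv], prod_ite_zero, prod_const_one]
      have h3 : ∏ v ∈ V, φ v (Ideal.Quotient.mk v.asIdeal a) (Ideal.Quotient.mk v.asIdeal b) =
          ∏ v ∈ V, χ v (Ideal.Quotient.mk v.asIdeal a) (Ideal.Quotient.mk v.asIdeal b) :=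
        prod_congr rfl fun v hv => by rw [hφV v hv]
      rw [prod_union hdis, h2, h3]
      by_cases hr : Red c a b
      · by_cases ht : ∀ v ∈ T, Ideal.Quotient.mk v.asIdeal a = e v ∧
            Ideal.Quotient.mk v.asIdeal b = f v
        · rw [if_pos hr, if_pos ht, if_pos ((hCl a b).2 ⟨hr, ht⟩), one_mul]
        · rw [if_pos hr, if_neg ht, if_neg (fun h => ht ((hCl a b).1 h).2), zero_mul]
      · rw [if_neg hr, if_neg (fun h => hr ((hCl a b).1 h).1)]
    rw [e2] at h1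
    exact h1
  -- the mean of the indicator
  have hM1 : HasM β (fun a b => if Cl a b then (1 : ℂ) else 0) (δ0 : ℂ) := by
    have := key ∅ (empty_subset _) (fun _ _ _ => 1)
    simpa using this
  -- the means of the pairs
  obtain ⟨m, hm⟩ : ∃ m : HeightOneSpectrum (𝓞 K) → HeightOneSpectrum (𝓞 K) → ℝ,
      ∀ v v', m v v' = if v' = v then rr v / d v else 0 := ⟨_, fun _ _ => rfl⟩
  have htv : ∀ v ∈ W, ∀ a b, (tv v a b : ℂ) =
      (tr (Ideal.Quotient.mk v.asIdeal a) (Ideal.Quotient.mk v.asIdeal b) : ℂ) := by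
    intro v hv a b
    unfold tv
    rw [if_neg (hW v hv)]
    push_cast
    rfl
  have hM2 : ∀ v ∈ W, ∀ v' ∈ W, HasM β
      (fun a b => if Cl a b then ((tv v a b * tv v' a b : ℝ) : ℂ) else 0)
      ((δ0 * m v v' : ℝ) : ℂ) := by
    intro v hv v' hv'
    by_cases h : v' = v
    · subst h
      have h1 := key {v'} (by simpa using hv) (fun v x y => (tr x y : ℂ) ^ 2)
      rw [prod_singleton, (hrr v' (hW v' hv)).2.2, hde] at h1
      simp only [prod_singleton] at h1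
      rw [hm, if_pos rfl]
      have e1 : ((δ0 * (rr v' / d v') : ℝ) : ℂ) = (δ0 : ℂ) * ((rr v' : ℂ) / (d v' : ℂ)) := by
        push_cast; rfl
      rw [e1]
      have e2 : (fun a b : 𝓞 K => if Cl a b then ((tv v' a b * tv v' a b : ℝ) : ℂ) else 0) =
          fun a b => if Cl a b then (tr (Ideal.Quotient.mk v'.asIdeal a)
            (Ideal.Quotient.mk v'.asIdeal b) : ℂ) ^ 2 else 0 := by
        funext a b
        congr 1
        push_cast
        rw [htv v' hv, sq]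
      rw [e2]
      exact h1
    · have h1 := key {v, v'} (by
          intro x hx
          rw [mem_insert, mem_singleton] at hx
          rcases hx with rfl | rfl
          · exact hv
          · exact hv') (fun v x y => (tr x y : ℂ))
      rw [prod_pair (Ne.symm h), Lm_tr (hW v hv), zero_div, zero_mul, mul_zero] at h1
      simp only [prod_pair (Ne.symm h)] at h1
      rw [hm, if_neg h, mul_zero]
      have e2 : (fun a b : 𝓞 K => if Cl a b then ((tv v a b * tv v' a b : ℝ) : ℂ) else 0) =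
          fun a b => if Cl a b then (tr (Ideal.Quotient.mk v.asIdeal a)
            (Ideal.Quotient.mk v.asIdeal b) : ℂ) * (tr (Ideal.Quotient.mk v'.asIdeal a)
            (Ideal.Quotient.mk v'.asIdeal b) : ℂ) else 0 := by
        funext a b
        congr 1
        push_cast
        rw [htv v hv, htv v' hv']
      rw [e2, Complex.ofReal_zero]
      exact h1
  -- the integrals
  obtain ⟨C, hC⟩ : ∃ C : HeightOneSpectrum (𝓞 K) → HeightOneSpectrum (𝓞 K) → ℝ,
      ∀ v v', C v v' = ∫ s in R, (u v s * (starRingEnd ℂ) (u v' s)).re := ⟨_, fun _ _ => rfl⟩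
  have hcont : ∀ v v', Continuous fun s => (u v s * (starRingEnd ℂ) (u v' s)).re := by
    intro v v'
    have h1 := hu v
    have h2 := hu v'
    exact Complex.continuous_re.comp (h1.mul (Complex.continuous_conj.comp h2))
  have hJ : ∀ a b, ∫ s in R, ‖∑ v ∈ W, (tv v a b : ℂ) * u v s‖ ^ 2 =
      ∑ v ∈ W, ∑ v' ∈ W, C v v' * (tv v a b * tv v' a b) := by
    intro a b
    have e1 : ∀ s, ‖∑ v ∈ W, (tv v a b : ℂ) * u v s‖ ^ 2 =
        ∑ v ∈ W, ∑ v' ∈ W, (tv v a b * tv v' a b) * (u v s * (starRingEnd ℂ) (u v' s)).re := by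
      intro s
      have h1 : ((‖∑ v ∈ W, (tv v a b : ℂ) * u v s‖ ^ 2 : ℝ) : ℂ) =
          (∑ v ∈ W, (tv v a b : ℂ) * u v s) *
            (starRingEnd ℂ) (∑ v ∈ W, (tv v a b : ℂ) * u v s) := by
        rw [Complex.mul_conj, Complex.normSq_eq_norm_sq]
      have h2 : ‖∑ v ∈ W, (tv v a b : ℂ) * u v s‖ ^ 2 = ((∑ v ∈ W, (tv v a b : ℂ) * u v s) *
            (starRingEnd ℂ) (∑ v ∈ W, (tv v a b : ℂ) * u v s)).re := by
        rw [← h1, Complex.ofReal_re]
      rw [h2, map_sum, sum_mul_sum, Complex.re_sum]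
      refine sum_congr rfl fun v _ => ?_
      rw [Complex.re_sum]
      refine sum_congr rfl fun v' _ => ?_
      rw [map_mul, Complex.conj_ofReal]
      have e3 : (tv v a b : ℂ) * u v s * ((tv v' a b : ℂ) * (starRingEnd ℂ) (u v' s)) =
          ((tv v a b * tv v' a b : ℝ) : ℂ) * (u v s * (starRingEnd ℂ) (u v' s)) := by
        push_cast; ring
      rw [e3, Complex.re_ofReal_mul]
    simp only [e1]
    have hint : ∀ v v', IntegrableOn (fun s => (tv v a b * tv v' a b) *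
        (u v s * (starRingEnd ℂ) (u v' s)).re) R := fun v v' =>
      ((continuous_const.mul (hcont v v')).continuousOn).integrableOn_compact hR
    rw [integral_finsetSum _ fun v _ => integrable_finsetSum _ fun v' _ => hint v v']
    refine sum_congr rfl fun v _ => ?_
    rw [integral_finsetSum _ fun v' _ => hint v v']
    refine sum_congr rfl fun v' _ => ?_
    rw [integral_const_mul, hC, mul_comm]
  have hCvv : ∀ v, C v v = ∫ s in R, ‖u v s‖ ^ 2 := by
    intro v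
    rw [hC]
    congr 1
    funext s
    rw [Complex.mul_conj, Complex.ofReal_re, Complex.normSq_eq_norm_sq]
  obtain ⟨J, hJd⟩ : ∃ J : 𝓞 K → 𝓞 K → ℝ,
      ∀ a b, J a b = ∫ s in R, ‖∑ v ∈ W, (tv v a b : ℂ) * u v s‖ ^ 2 := ⟨_, fun _ _ => rfl⟩
  have hJ0 : ∀ a b, 0 ≤ J a b := by
    intro a b
    rw [hJd]
    exact integral_nonneg fun s => by positivity
  obtain ⟨G, hG⟩ : ∃ G : 𝓞 K → 𝓞 K → ℝ, ∀ a b, G a b = if Cl a b then η - J a b else 0 :=
    ⟨_, fun _ _ => rfl⟩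
  obtain ⟨S0, hS0⟩ : ∃ S0 : ℝ, S0 = ∑ v ∈ W, ∑ v' ∈ W, C v v' * m v v' := ⟨_, rfl⟩
  have hMG : HasM β (fun a b => (G a b : ℂ)) ((δ0 * (η - S0) : ℝ) : ℂ) := by
    have h1 := (hasM_cmul (η : ℂ) hM1).sub (hasM_fsum W fun v hv => hasM_fsum W fun v' hv' =>
      hasM_cmul ((C v v' : ℝ) : ℂ) (hM2 v hv v' hv'))
    have e1 : (η : ℂ) * (δ0 : ℂ) - ∑ v ∈ W, ∑ v' ∈ W, ((C v v' : ℝ) : ℂ) *
        ((δ0 * m v v' : ℝ) : ℂ) = ((δ0 * (η - S0) : ℝ) : ℂ) := by
      rw [hS0]
      push_cast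
      rw [mul_sub, mul_sum, mul_comm (η : ℂ)]
      congr 1
      refine sum_congr rfl fun v _ => ?_
      rw [mul_sum]
      refine sum_congr rfl fun v' _ => ?_
      ring
    rw [e1] at h1
    have e2 : (fun a b : 𝓞 K => (η : ℂ) * (if Cl a b then (1 : ℂ) else 0) -
        ∑ v ∈ W, ∑ v' ∈ W, ((C v v' : ℝ) : ℂ) *
          (if Cl a b then ((tv v a b * tv v' a b : ℝ) : ℂ) else 0)) =
        fun a b => (G a b : ℂ) := by
      funext a b
      rw [hG]
      by_cases h : Cl a b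
      · simp only [if_pos h]
        rw [hJd, hJ]
        push_cast
        rw [mul_one]
      · simp only [if_neg h]
        simp
    rw [e2] at h1
    exact h1
  have hS0le : S0 ≤ η / 4 := by
    have h1 : S0 = ∑ v ∈ W, C v v * (rr v / d v) := by
      rw [hS0]
      refine sum_congr rfl fun v hv => ?_
      rw [sum_eq_single v]
      · rw [hm, if_pos rfl]
      · intro v' _ hne
        rw [hm, if_neg hne, mul_zero]
      · intro h; exact absurd hv h
    have h2 : S0 ≤ ∑ v ∈ W, (1 / 4) * (8 * (nm v : ℝ) * ∫ s in R, ‖u v s‖ ^ 2) := by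
      rw [h1]
      refine sum_le_sum fun v hv => ?_
      rw [hCvv]
      have hI : 0 ≤ ∫ s in R, ‖u v s‖ ^ 2 := integral_nonneg fun s => by positivity
      obtain ⟨hr0, hr1, _⟩ := hrr v (hW v hv)
      have hd2 := dc_half c (hW v hv) (hde v)
      have h3 : rr v / d v ≤ 2 * (nm v : ℝ) := by
        rw [div_le_iff₀ (hd v)]
        have : (0 : ℝ) ≤ nm v := by positivity
        nlinarith
      calc (∫ s in R, ‖u v s‖ ^ 2) * (rr v / d v) ≤ (∫ s in R, ‖u v s‖ ^ 2) * (2 * (nm v : ℝ)) :=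
            mul_le_mul_of_nonneg_left h3 hI
        _ = (1 / 4) * (8 * (nm v : ℝ) * ∫ s in R, ‖u v s‖ ^ 2) := by ring
    rw [← mul_sum] at h2
    linarith
  have hdiag : Tendsto (fun X : ℕ => (X, X)) atTop (atTop : Filter (ℕ × ℕ)) :=
    tendsto_atTop_diagonal
  have hlim : Tendsto (fun X : ℕ => (mean2 β (fun a b => (G a b : ℂ)) (X, X)).re) atTop
      (𝓝 (δ0 * (η - S0))) := by
    have h1 := (Complex.continuous_re.tendsto _).comp (Tendsto.comp hMG hdiag)
    rw [Complex.ofReal_re] at h1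
    exact h1
  have hgt : δ0 / 2 * η < δ0 * (η - S0) := by
    have : η - S0 ≥ 3 / 4 * η := by linarith
    nlinarith [mul_pos hδ0 hη]
  filter_upwards [hlim.eventually (lt_mem_nhds hgt)] with X hX
  have hb : (0 : ℝ) < (box β X).card := by exact_mod_cast card_box_pos β X
  have e1 : (mean2 β (fun a b => (G a b : ℂ)) (X, X)).re =
      (∑ a ∈ box β X, ∑ b ∈ box β X, G a b) / ((box β X).card * (box β X).card) := by
    have : mean2 β (fun a b => (G a b : ℂ)) (X, X) =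
        (((∑ a ∈ box β X, ∑ b ∈ box β X, G a b) / ((box β X).card * (box β X).card) : ℝ) : ℂ) := by
      unfold mean2
      push_cast
      rfl
    rw [this, Complex.ofReal_re]
  rw [e1, lt_div_iff₀ (by positivity)] at hX
  obtain ⟨gd, hgd⟩ : ∃ gd : Finset (𝓞 K × 𝓞 K), gd = (box β X ×ˢ box β X).filter
    (fun p => Cl p.1 p.2 ∧ J p.1 p.2 ≤ η) := ⟨_, rfl⟩
  have e2 : ∑ a ∈ box β X, ∑ b ∈ box β X, G a b ≤ η * gd.card := by
    rw [← sum_product' (f := fun a b => G a b)]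
    have h3 : ∀ p ∈ box β X ×ˢ box β X, G p.1 p.2 ≤
        if Cl p.1 p.2 ∧ J p.1 p.2 ≤ η then η else 0 := by
      intro p _
      rw [hG]
      by_cases h1 : Cl p.1 p.2
      · rw [if_pos h1]
        by_cases h2 : J p.1 p.2 ≤ η
        · rw [if_pos ⟨h1, h2⟩]
          linarith [hJ0 p.1 p.2]
        · rw [if_neg fun h => h2 h.2]
          linarith
      · rw [if_neg h1, if_neg fun h => h1 h.1]
    refine (sum_le_sum h3).trans (le_of_eq ?_)
    rw [← sum_filter, sum_const, nsmul_eq_mul, mul_comm, hgd]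
  have e3 : {p : 𝓞 K × 𝓞 K | p.1 ∈ box β X ∧ p.2 ∈ box β X ∧ Red c p.1 p.2 ∧
        (∀ v ∈ T, Ideal.Quotient.mk v.asIdeal p.1 = e v ∧ Ideal.Quotient.mk v.asIdeal p.2 = f v) ∧
        ∫ s in R, ‖∑ v ∈ W, (tv v p.1 p.2 : ℂ) * u v s‖ ^ 2 ≤ η} = (gd : Set (𝓞 K × 𝓞 K)) := by
    ext p
    rw [hgd, mem_coe, mem_filter, mem_product, hCl, hJd, Set.mem_ofPred_eq]
    tauto
  rw [e3, Set.ncard_coe_finset]
  have h5 : δ0 / 2 * η * ((box β X).card * (box β X).card) < η * gd.card := hX.trans_le e2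
  have h6 : η * (δ0 / 2 * ((box β X).card : ℝ) ^ 2) < η * gd.card := by
    calc η * (δ0 / 2 * ((box β X).card : ℝ) ^ 2) =
        δ0 / 2 * η * ((box β X).card * (box β X).card) := by ring
      _ < _ := h5
  exact (lt_of_mul_lt_mul_left h6 hη.le).le

end Pool.Agent.P8H18.UE
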