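import Pool.Agent.Helper240.ZU.Ext
import Pool.Agent.Helper242.RK.Log

/-! Approximation of zero-free functions on a rectangle by exponentials of real polynomials. -/

set_option autoImplicit false
set_option linter.unusedSectionVars false

namespace Pool.Agent.P8H18.UE

open Complex Filter Topology

/-- the open rectangle -/
def orect (a b B : ℝ) : Set ℂ := {z : ℂ | a < z.re ∧ z.re < b ∧ |z.im| < B}

theorem orect_open (a b B : ℝ) : IsOpen (orect a b B) := by
  have h1 : orect a b B = {z : ℂ | a < z.re} ∩ ({z : ℂ | z.re < b} ∩ {z : ℂ | |z.im| < B}) := by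
    ext z; simp [orect]
  rw [h1]
  exact (isOpen_lt continuous_const continuous_re).inter ((isOpen_lt continuous_re
    continuous_const).inter (isOpen_lt continuous_im.abs continuous_const))

theorem orect_convex (a b B : ℝ) : Convex ℝ (orect a b B) := by
  have h1 : orect a b B = {z : ℂ | a < z.re} ∩ ({z : ℂ | z.re < b} ∩ ({z : ℂ | -B < z.im} ∩
      {z : ℂ | z.im < B})) := by
    ext z; simp [orect, abs_lt]
  rw [h1]
  exact (convex_halfSpace_re_gt a).inter ((convex_halfSpace_re_lt b).inter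
    ((convex_halfSpace_im_gt (-B)).inter (convex_halfSpace_im_lt B)))

theorem rect_eq' (a b B : ℝ) : ZU.rect a b B = Set.Icc a b ×ℂ Set.Icc (-B) B := by
  ext z
  rw [Complex.mem_reProdIm]
  change (a ≤ z.re ∧ z.re ≤ b ∧ |z.im| ≤ B) ↔ _
  simp only [Set.mem_Icc, abs_le]
  tauto

theorem rect_compact' (a b B : ℝ) : IsCompact (ZU.rect a b B) := by
  rw [rect_eq']; exact isCompact_Icc.reProdIm isCompact_Icc

theorem rect_compl_conn (a b B : ℝ) : IsConnected (ZU.rect a b B)ᶜ := by
  have e : (ZU.rect a b B)ᶜ =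
      (({z : ℂ | z.re < a} ∪ {z : ℂ | B < z.im}) ∪ {z : ℂ | b < z.re}) ∪ {z : ℂ | z.im < -B} := by
    ext z
    change ¬ (a ≤ z.re ∧ z.re ≤ b ∧ |z.im| ≤ B) ↔
      (((z.re < a ∨ B < z.im) ∨ b < z.re) ∨ z.im < -B)
    rw [abs_le]
    constructor
    · intro h
      by_contra h'
      push Not at h'
      exact h ⟨h'.1.1.1, h'.1.2, h'.2, h'.1.1.2⟩
    · rintro (((h | h) | h) | h) ⟨h1, h2, h3, h4⟩ <;> linarith
  rw [e]
  have c1 : IsConnected {z : ℂ | z.re < a} :=
    ⟨⟨((a - 1 : ℝ) : ℂ), by change ((a - 1 : ℝ) : ℂ).re < a; simp⟩,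
      (convex_halfSpace_re_lt a).isPreconnected⟩
  have c2 : IsConnected {z : ℂ | B < z.im} :=
    ⟨⟨⟨0, B + 1⟩, by change B < B + 1; linarith⟩, (convex_halfSpace_im_gt B).isPreconnected⟩
  have c3 : IsConnected {z : ℂ | b < z.re} :=
    ⟨⟨⟨b + 1, 0⟩, by change b < b + 1; linarith⟩, (convex_halfSpace_re_gt b).isPreconnected⟩
  have c4 : IsConnected {z : ℂ | z.im < -B} :=
    ⟨⟨⟨0, -B - 1⟩, by change -B - 1 < -B; linarith⟩, (convex_halfSpace_im_lt (-B)).isPreconnected⟩
  refine IsConnected.union ⟨⟨a - 1, -B - 1⟩, ?_, ?_⟩ (IsConnected.union ⟨⟨b + 1, B + 1⟩, ?_, ?_⟩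
    (IsConnected.union ⟨⟨a - 1, B + 1⟩, ?_, ?_⟩ c1 c2) c3) c4
  · left; left; change a - 1 < a; linarith
  · change -B - 1 < -B; linarith
  · right; change B < B + 1; linarith
  · change b < b + 1; linarith
  · change a - 1 < a; linarith
  · change B < B + 1; linarith

theorem conj_rect {a b B : ℝ} {s : ℂ} (hs : s ∈ ZU.rect a b B) :
    (starRingEnd ℂ) s ∈ ZU.rect a b B := by
  obtain ⟨h1, h2, h3⟩ := hs
  exact ⟨by simpa using h1, by simpa using h2, by simpa using h3⟩

/-- the real part of the coefficients -/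
theorem symm_poly (p : Polynomial ℂ) : ∃ g : Polynomial ℝ, ∀ s : ℂ,
    (g.map (algebraMap ℝ ℂ)).eval s =
      (p.eval s + (starRingEnd ℂ) (p.eval ((starRingEnd ℂ) s))) / 2 := by
  refine ⟨∑ n ∈ Finset.range (p.natDegree + 1), Polynomial.C (p.coeff n).re * Polynomial.X ^ n,
    fun s => ?_⟩
  rw [Polynomial.map_sum, Polynomial.eval_finsetSum, Polynomial.eval_eq_sum_range (p := p),
    Polynomial.eval_eq_sum_range (p := p), map_sum, ← Finset.sum_add_distrib, Finset.sum_div]
  refine Finset.sum_congr rfl fun n _ => ?_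
  rw [map_mul, map_pow, Complex.conj_conj, Polynomial.map_mul, Polynomial.map_pow,
    Polynomial.map_X, Polynomial.map_C, Polynomial.eval_mul, Polynomial.eval_pow,
    Polynomial.eval_X, Polynomial.eval_C]
  have h : (p.coeff n) + (starRingEnd ℂ) (p.coeff n) = 2 * ((p.coeff n).re : ℂ) := by
    rw [Complex.add_conj]
    push_cast
    rfl
  rw [← add_mul, h]
  simp only [Complex.coe_algebraMap]
  ring

/-- **targets** -/
theorem target {a b B : ℝ} (hab : a < b) (hB : 0 < B) {f : ℂ → ℂ}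
    (hc : ContinuousOn f (ZU.rect a b B)) (hd : DifferentiableOn ℂ f (orect a b B))
    (h0 : ∀ s ∈ ZU.rect a b B, f s ≠ 0)
    (hsym : ∀ s ∈ ZU.rect a b B, f ((starRingEnd ℂ) s) = (starRingEnd ℂ) (f s))
    (hpos : ∀ x : ℝ, a ≤ x → x ≤ b → 0 < (f x).re) {ε : ℝ} (hε : 0 < ε) :
    ∃ g : Polynomial ℝ, ∀ s ∈ ZU.rect a b B,
      ‖Complex.exp ((g.map (algebraMap ℝ ℂ)).eval s) - f s‖ ≤ ε := by
  set R := ZU.rect a b B with hR
  have hRc : IsCompact R := rect_compact' a b B
  set c0 : ℝ := (a + b) / 2 with hc0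
  -- uniform continuity
  obtain ⟨δ, hδ, huc⟩ := Metric.uniformContinuousOn_iff.1
    (hRc.uniformContinuousOn_of_continuous hc) (ε / 2) (by linarith)
  obtain ⟨D, hD⟩ := hRc.exists_bound_of_continuousOn (f := fun s : ℂ => s - c0)
    (by fun_prop)
  have hc0R : (c0 : ℂ) ∈ R := by
    refine ⟨?_, ?_, ?_⟩
    · rw [ofReal_re]; linarith
    · rw [ofReal_re]; linarith
    · rw [ofReal_im, abs_zero]; exact hB.le
  have hD0 : 0 ≤ D := (norm_nonneg _).trans (hD _ hc0R)
  set r : ℝ := 1 - min (1 / 2) (δ / (2 * (D + 1))) with hr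
  have hr1 : r < 1 := by
    have : 0 < min (1 / 2 : ℝ) (δ / (2 * (D + 1))) := lt_min (by norm_num) (by positivity)
    rw [hr]; linarith
  have hr0 : 0 < r := by
    have : min (1 / 2 : ℝ) (δ / (2 * (D + 1))) ≤ 1 / 2 := min_le_left _ _
    rw [hr]; linarith
  have hrD : (1 - r) * D < δ := by
    have h1 : 1 - r ≤ δ / (2 * (D + 1)) := by
      have : min (1 / 2 : ℝ) (δ / (2 * (D + 1))) ≤ δ / (2 * (D + 1)) := min_le_right _ _
      rw [hr]; linarith
    calc (1 - r) * D ≤ δ / (2 * (D + 1)) * D := by gcongr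
      _ = (D / (D + 1)) * (δ / 2) := by
          field_simp
      _ ≤ 1 * (δ / 2) := by
          gcongr
          rw [div_le_one (by positivity)]
          linarith
      _ < δ := by linarith
  -- the dilation
  set φ : ℂ → ℂ := fun s => (c0 : ℂ) + (r : ℂ) * (s - c0) with hφ
  have hφre : ∀ s, (φ s).re = c0 + r * (s.re - c0) := by
    intro s
    simp [hφ]
  have hφim : ∀ s, (φ s).im = r * s.im := by
    intro s
    simp [hφ]
  have hφR : ∀ s ∈ R, φ s ∈ orect a b B := by
    intro s hs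
    obtain ⟨h1, h2, h3⟩ := hs
    refine ⟨?_, ?_, ?_⟩
    · rw [hφre]
      nlinarith
    · rw [hφre]
      nlinarith
    · rw [hφim, abs_mul, abs_of_pos hr0]
      have := abs_nonneg s.im
      nlinarith
  have hoR : orect a b B ⊆ R := fun s hs => ⟨hs.1.le, hs.2.1.le, hs.2.2.le⟩
  have hφc : Differentiable ℂ φ := by
    rw [hφ]
    fun_prop
  set U : Set ℂ := φ ⁻¹' (orect a b B) with hU
  have hUo : IsOpen U := (orect_open a b B).preimage hφc.continuous
  have hUc : Convex ℝ U := by
    intro x hx y hy t u ht hu htu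
    have h1 := orect_convex a b B hx hy ht hu htu
    have h2 : φ (t • x + u • y) = t • φ x + u • φ y := by
      simp only [hφ, Complex.real_smul]
      have h3 : (t : ℂ) + u = 1 := by exact_mod_cast htu
      have h4 : (u : ℂ) = 1 - t := by linear_combination h3
      rw [h4]
      ring
    show φ (t • x + u • y) ∈ orect a b B
    rw [h2]
    exact h1
  have hRU : R ⊆ U := fun s hs => hφR s hs
  have hφconj : ∀ s, φ ((starRingEnd ℂ) s) = (starRingEnd ℂ) (φ s) := by
    intro s
    simp [hφ]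
  have hUconj : ∀ s ∈ U, (starRingEnd ℂ) s ∈ U := by
    intro s hs
    show φ ((starRingEnd ℂ) s) ∈ orect a b B
    rw [hφconj]
    obtain ⟨h1, h2, h3⟩ := (hs : φ s ∈ orect a b B)
    exact ⟨by simpa using h1, by simpa using h2, by simpa using h3⟩
  -- the logarithm
  obtain ⟨L, hLd, hL⟩ := Pool.Agent.Helper242.RK.exists_log hUc hUo ⟨_, hRU hc0R⟩
    (f := fun s => f (φ s)) (hd.comp hφc.differentiableOn fun s hs => hs)
    (fun s hs => h0 _ (hoR hs))
  have hφc0 : φ c0 = c0 := by simp [hφ]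
  -- normalisation
  set L1 : ℂ → ℂ := fun s => L s - I * ((L c0).im : ℂ) with hL1
  have hfc0 : f c0 = (((f c0).re : ℝ) : ℂ) := by
    have h1 := hsym _ hc0R
    rw [Complex.conj_ofReal] at h1
    exact (Complex.conj_eq_iff_re.1 h1.symm).symm
  have hunit : Complex.exp (I * ((L c0).im : ℂ)) = 1 := by
    have h1 : Complex.exp (L c0) = f c0 := by
      have := hL _ (hRU hc0R)
      simp only [hφc0] at this
      exact this
    have h2 : Complex.exp (L c0) = (Real.exp (L c0).re : ℂ) * Complex.exp (I * ((L c0).im : ℂ)) := by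
      rw [Complex.ofReal_exp, ← Complex.exp_add]
      congr 1
      conv_lhs => rw [← Complex.re_add_im (L c0)]
      ring
    have h3 : (f c0).re = Real.exp (L c0).re := by
      have h4 : ‖f c0‖ = Real.exp (L c0).re := by rw [← h1, Complex.norm_exp]
      rw [← h4, hfc0, Complex.norm_real, Real.norm_of_nonneg (hpos c0 (by linarith) (by linarith)).le,
        Complex.ofReal_re]
    rw [h1, hfc0, h3] at h2
    have h5 : ((Real.exp (L c0).re : ℝ) : ℂ) ≠ 0 := by exact_mod_cast (Real.exp_pos _).ne'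
    have h6 : ((Real.exp (L c0).re : ℝ) : ℂ) * (Complex.exp (I * ((L c0).im : ℂ)) - 1) = 0 := by
      rw [mul_sub, ← h2]
      ring
    rcases mul_eq_zero.1 h6 with h7 | h7
    · exact absurd h7 h5
    · exact sub_eq_zero.1 h7
  have hL1e : ∀ s ∈ U, Complex.exp (L1 s) = f (φ s) := by
    intro s hs
    rw [hL1]
    simp only
    rw [Complex.exp_sub, hunit, div_one]
    exact hL s hs
  have hL1d : DifferentiableOn ℂ L1 U := hLd.sub_const _
  have hL1c : L1 c0 = ((L c0).re : ℂ) := by
    have h1 := Complex.re_add_im (L c0)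
    rw [hL1]
    simp only
    linear_combination -h1
  -- symmetry of the logarithm
  set L2 : ℂ → ℂ := (starRingEnd ℂ) ∘ L1 ∘ (starRingEnd ℂ) with hL2
  have hL2d : DifferentiableOn ℂ L2 U := by
    intro s hs
    have h1 : DifferentiableAt ℂ L1 ((starRingEnd ℂ) s) :=
      (hL1d _ (hUconj s hs)).differentiableAt (hUo.mem_nhds (hUconj s hs))
    have h2 := h1.conj_conj
    rw [Complex.conj_conj] at h2
    exact h2.differentiableWithinAt
  have hL2e : ∀ s ∈ U, Complex.exp (L2 s) = f (φ s) := by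
    intro s hs
    rw [hL2]
    simp only [Function.comp]
    rw [Complex.exp_conj, hL1e _ (hUconj s hs), hφconj, hsym _ (hoR hs), Complex.conj_conj]
  have hLL : Set.EqOn L1 L2 U := by
    refine hUo.eqOn_of_deriv_eq hUc.isPreconnected hL1d hL2d ?_ (hRU hc0R) ?_
    · intro s hs
      have d1 : HasDerivAt L1 (deriv L1 s) s :=
        ((hL1d s hs).differentiableAt (hUo.mem_nhds hs)).hasDerivAt
      have d2 : HasDerivAt L2 (deriv L2 s) s :=
        ((hL2d s hs).differentiableAt (hUo.mem_nhds hs)).hasDerivAt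
      have e1 := d1.cexp
      have e2 := d2.cexp
      have e3 : (fun s => Complex.exp (L1 s)) =ᶠ[𝓝 s] fun s => Complex.exp (L2 s) := by
        filter_upwards [hUo.mem_nhds hs] with w hw
        rw [hL1e w hw, hL2e w hw]
      have e4 := (e2.congr_of_eventuallyEq e3).unique e1
      rw [hL1e s hs, hL2e s hs] at e4
      exact (mul_left_cancel₀ (h0 _ (hoR hs)) e4).symm
    · rw [hL2]
      simp only [Function.comp]
      rw [Complex.conj_ofReal, hL1c, Complex.conj_ofReal]
  -- the polynomial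
  obtain ⟨M, hM⟩ := hRc.exists_bound_of_continuousOn (f := fun s => f (φ s))
    (hc.comp hφc.continuous.continuousOn fun s hs => hoR (hφR s hs))
  have hM0 : 0 ≤ M := (norm_nonneg _).trans (hM _ hc0R)
  set η : ℝ := min 1 (ε / (4 * (M + 1))) with hη
  have hη0 : 0 < η := lt_min one_pos (by positivity)
  obtain ⟨p, hp⟩ := ZU.runge hRc (rect_compl_conn a b B) hUo hRU L1 hL1d η hη0
  obtain ⟨g, hg⟩ := symm_poly p
  refine ⟨g, fun s hs => ?_⟩
  have hclose : ‖(g.map (algebraMap ℝ ℂ)).eval s - L1 s‖ ≤ η := by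
    have h1 := hp s hs
    have h2 := hp _ (conj_rect hs)
    have h3 : L1 s = (starRingEnd ℂ) (L1 ((starRingEnd ℂ) s)) := hLL (hRU hs)
    have h4 : (g.map (algebraMap ℝ ℂ)).eval s - L1 s = -(((L1 s - p.eval s) +
        (starRingEnd ℂ) (L1 ((starRingEnd ℂ) s) - p.eval ((starRingEnd ℂ) s))) / 2) := by
      rw [hg, map_sub, ← h3]
      ring
    rw [h4, norm_neg, norm_div, Complex.norm_ofNat]
    have h5 := norm_add_le (L1 s - p.eval s)
      ((starRingEnd ℂ) (L1 ((starRingEnd ℂ) s) - p.eval ((starRingEnd ℂ) s)))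
    rw [Complex.norm_conj] at h5
    linarith
  have hη1 : η ≤ 1 := min_le_left _ _
  have e1 : Complex.exp ((g.map (algebraMap ℝ ℂ)).eval s) - f s =
      f (φ s) * (Complex.exp ((g.map (algebraMap ℝ ℂ)).eval s - L1 s) - 1) +
        (f (φ s) - f s) := by
    rw [Complex.exp_sub, hL1e s (hRU hs)]
    have := h0 _ (hoR (hφR s hs))
    field_simp
    ring
  rw [e1]
  refine (norm_add_le _ _).trans ?_
  have h2 : ‖f (φ s) * (Complex.exp ((g.map (algebraMap ℝ ℂ)).eval s - L1 s) - 1)‖ ≤ ε / 2 := by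
    rw [norm_mul]
    have h3 := Complex.norm_exp_sub_one_le (hclose.trans hη1)
    calc ‖f (φ s)‖ * ‖Complex.exp ((g.map (algebraMap ℝ ℂ)).eval s - L1 s) - 1‖
        ≤ M * (2 * η) := by
          refine mul_le_mul (hM s hs) (h3.trans ?_) (norm_nonneg _) hM0
          linarith
      _ ≤ M * (2 * (ε / (4 * (M + 1)))) := by
          gcongr
          exact min_le_right _ _
      _ = (M / (M + 1)) * (ε / 2) := by
          field_simp
          ring
      _ ≤ 1 * (ε / 2) := by
          gcongr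
          rw [div_le_one (by positivity)]
          linarith
      _ = ε / 2 := one_mul _
  have h3 : ‖f (φ s) - f s‖ ≤ ε / 2 := by
    have h4 : dist (φ s) s < δ := by
      rw [dist_eq_norm]
      have h5 : φ s - s = -(((1 - r : ℝ) : ℂ) * (s - c0)) := by
        simp only [hφ]
        push_cast
        ring
      rw [h5, norm_neg, norm_mul, Complex.norm_real, Real.norm_of_nonneg (by linarith)]
      calc (1 - r) * ‖s - c0‖ ≤ (1 - r) * D :=
            mul_le_mul_of_nonneg_left (hD s hs) (by linarith)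
        _ < δ := hrD
    have h5 := huc (φ s) (hoR (hφR s hs)) s hs h4
    rw [dist_eq_norm] at h5
    exact h5.le
  linarith

end Pool.Agent.P8H18.UE
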