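import Pool.Agent.P8H18.UE.Main
import Pool.Agent.P8H18.UE.Tgt

/-! Universality: the final form on the level of the pairs. -/

set_option autoImplicit false
set_option linter.unusedSectionVars false

namespace Pool.Agent.P8H18.UE

open MeasureTheory Filter Topology NumberField IsDedekindDomain Pool.Agent.P8H18.MF
  Pool.Agent.P8H18.AA

variable {K : Type} [Field K] [NumberField K]

theorem interior_rect (a b B : ℝ) : orect a b B ⊆ interior (ZU.rect a b B) :=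
  interior_maximal (fun _ hs => ⟨hs.1.le, hs.2.1.le, hs.2.2.le⟩) (orect_open a b B)

/-- **universality**, for zero-free functions -/
theorem main' (hLD : S_LD) (hFAM : S_FAM) {ι : Type} [Fintype ι] [DecidableEq ι] (β : Module.Basis ι ℤ (𝓞 K))
    (c : Prop) {a b B : ℝ} (ha : 1 < a) (hab : a < b) (hb : b < 3 / 2) (hB : 0 < B)
    {f : ℂ → ℂ} (hc : ContinuousOn f (ZU.rect a b B))
    (hd : DifferentiableOn ℂ f (interior (ZU.rect a b B)))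
    (h0 : ∀ s ∈ ZU.rect a b B, f s ≠ 0)
    (hsym : ∀ s ∈ ZU.rect a b B, f ((starRingEnd ℂ) s) = (starRingEnd ℂ) (f s))
    (hpos : ∀ x : ℝ, a ≤ x → x ≤ b → 0 < (f x).re) {ε : ℝ} (hε : 0 < ε) :
    ∃ δ : ℝ, 0 < δ ∧ ∃ Y₀ X₁ : ℕ, ∀ X : ℕ, X₁ ≤ X → δ * ((box β X).card : ℝ) ^ 2 ≤
      (Set.ncard {p : 𝓞 K × 𝓞 K | p.1 ∈ box β X ∧ p.2 ∈ box β X ∧ Red c p.1 p.2 ∧
        ∀ N : ℕ, Y₀ ≤ N → N ^ 5 ≤ X → ∀ s ∈ ZU.rect a b B,
          ‖Complex.exp (∑ v ∈ Pr K (N + 1), lv s v p.1 p.2) - f s‖ ≤ ε} : ℝ) := by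
  classical
  obtain ⟨g, hg⟩ := target hab hB hc (hd.mono (interior_rect a b B)) h0 hsym hpos
    (half_pos hε)
  obtain ⟨δ, hδ, Y₀, X₁, h⟩ := main β hLD hFAM c ha hab.le hb hB g (half_pos hε)
  refine ⟨δ, hδ, Y₀, X₁, fun X hX => (h X hX).trans ?_⟩
  have hfin : {p : 𝓞 K × 𝓞 K | p.1 ∈ box β X ∧ p.2 ∈ box β X ∧
      Red c p.1 p.2 ∧ ∀ N : ℕ, Y₀ ≤ N → N ^ 5 ≤ X → ∀ s ∈ ZU.rect a b B,
          ‖Complex.exp (∑ v ∈ Pr K (N + 1), lv s v p.1 p.2) - f s‖ ≤ ε}.Finite :=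
    (Finset.finite_toSet (box β X ×ˢ box β X)).subset fun p hp =>
      Finset.mem_coe.2 (Finset.mem_product.2 ⟨hp.1, hp.2.1⟩)
  refine Nat.cast_le.2 (Set.ncard_le_ncard ?_ hfin)
  rintro p ⟨h1, h2, h3, h4⟩
  refine ⟨h1, h2, h3, fun N hN hNX s hs => ?_⟩
  have h5 := h4 N hN hNX s hs
  have h6 := hg s hs
  have h7 := norm_sub_le_norm_sub_add_norm_sub (Complex.exp (∑ v ∈ Pr K (N + 1), lv s v p.1 p.2))
    (Complex.exp ((g.map (algebraMap ℝ ℂ)).eval s)) (f s)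
  linarith

end Pool.Agent.P8H18.UE
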