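import Pool.Agent.P8H18.UE.Defs

/-! Project UE: the key lemma (written by helper43). -/

set_option autoImplicit false

namespace Pool.Agent.P8H18.UE

open MeasureTheory Finset

namespace Key

/-! ### Lagrange interpolation at well-spaced nodes -/

lemma prod_abs {m j : ℕ} (hj : j < m) :
    ∏ i ∈ (range m).erase j, |(i : ℝ) - j| = (Nat.factorial j : ℝ) * (Nat.factorial (m - 1 - j) : ℝ) := by
  set f : ℕ → ℝ := fun i => if i = j then 1 else |(i : ℝ) - j| with hf
  have h1 : ∏ i ∈ (range m).erase j, |(i : ℝ) - j| = ∏ i ∈ range m, f i := by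
    rw [← mul_prod_erase (range m) f (mem_range.2 hj)]
    have : f j = 1 := if_pos rfl
    rw [this, one_mul]
    refine prod_congr rfl fun i hi => ?_
    rw [hf]
    simp only
    rw [if_neg (ne_of_mem_erase hi)]
  have hm : m = j + 1 + (m - 1 - j) := by omega
  rw [h1]
  conv_lhs => rw [hm]
  rw [prod_range_add, prod_range_succ]
  have e1 : f j = 1 := if_pos rfl
  rw [e1, mul_one]
  congr 1
  · rw [← prod_range_reflect]
    rw [← prod_range_add_one_eq_factorial]
    push_cast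
    refine prod_congr rfl fun i hi => ?_
    rw [mem_range] at hi
    rw [hf]
    simp only
    rw [if_neg (by omega)]
    have h2 : ((j - 1 - i : ℕ) : ℝ) = (j : ℝ) - 1 - i := by
      rw [Nat.cast_sub (by omega), Nat.cast_sub (by omega)]
      norm_num
    rw [h2]
    have : (j : ℝ) - 1 - i - j = -(i + 1) := by ring
    rw [this, abs_neg, abs_of_nonneg (by positivity)]
  · rw [← prod_range_add_one_eq_factorial]
    push_cast
    refine prod_congr rfl fun i hi => ?_
    rw [hf]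
    simp only
    rw [if_neg (by omega)]
    push_cast
    have : (j : ℝ) + 1 + i - j = i + 1 := by ring
    rw [this, abs_of_nonneg (by positivity)]

lemma prod_odd {m j : ℕ} (hj : j < m) :
    ∏ i ∈ (range m).erase j, (2 * (i : ℝ) + 1) ≤ 2 ^ m * (Nat.factorial m : ℝ) := by
  have h1 : ∏ i ∈ (range m).erase j, (2 * (i : ℝ) + 1) ≤ ∏ i ∈ range m, (2 * (i : ℝ) + 1) := by
    rw [← mul_prod_erase (range m) _ (mem_range.2 hj)]
    refine le_mul_of_one_le_left (prod_nonneg fun i _ => by positivity) ?_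
    have : (0:ℝ) ≤ j := Nat.cast_nonneg j
    linarith
  refine h1.trans ?_
  have h2 : ∏ i ∈ range m, (2 * (i : ℝ) + 1) ≤ ∏ i ∈ range m, (2 * ((i : ℝ) + 1)) :=
    prod_le_prod (fun i _ => by positivity) fun i _ => by linarith
  refine h2.trans (le_of_eq ?_)
  rw [prod_mul_distrib, prod_const, card_range, ← prod_range_add_one_eq_factorial]
  push_cast
  rfl

lemma lag_prod {m j : ℕ} (hj : j < m) :
    ∏ i ∈ (range m).erase j, ((2 * (i : ℝ) + 1) / |(i : ℝ) - j|) ≤ m * 4 ^ m := by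
  rw [prod_div_distrib, prod_abs hj]
  have hpos : (0:ℝ) < (Nat.factorial j : ℝ) * (Nat.factorial (m - 1 - j) : ℝ) := by positivity
  rw [div_le_iff₀ hpos]
  refine (prod_odd hj).trans ?_
  obtain ⟨N, rfl⟩ : ∃ N, m = N + 1 := ⟨m - 1, by omega⟩
  have hjN : j ≤ N := by omega
  have h1 : N + 1 - 1 - j = N - j := by omega
  rw [h1, Nat.factorial_succ]
  have h2 : Nat.choose N j * Nat.factorial j * Nat.factorial (N - j) = Nat.factorial N :=
    Nat.choose_mul_factorial_mul_factorial hjN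
  have h3 : Nat.choose N j ≤ 2 ^ N := by
    rw [← Nat.sum_range_choose]
    exact single_le_sum (f := fun i => Nat.choose N i) (fun _ _ => Nat.zero_le _)
      (mem_range.2 (by omega))
  have h4 : (Nat.factorial N : ℝ) = (Nat.choose N j : ℝ) * ((Nat.factorial j : ℝ) *
      (Nat.factorial (N - j) : ℝ)) := by
    rw [← h2]; push_cast; ring
  have h5 : (Nat.choose N j : ℝ) ≤ 2 ^ N := by exact_mod_cast h3
  push_cast
  rw [h4]
  have hp : (0:ℝ) ≤ (Nat.factorial j : ℝ) * (Nat.factorial (N - j) : ℝ) := by positivity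
  have h6 : (4:ℝ) ^ (N + 1) = 2 ^ (N + 1) * 2 ^ (N + 1) := by
    rw [← mul_pow]; norm_num
  rw [h6]
  calc (2:ℝ) ^ (N + 1) * (((N:ℝ) + 1) * ((Nat.choose N j : ℝ) * ((Nat.factorial j : ℝ) *
      (Nat.factorial (N - j) : ℝ)))) =
      (2:ℝ) ^ (N + 1) * ((N:ℝ) + 1) * ((Nat.factorial j : ℝ) * (Nat.factorial (N - j) : ℝ)) *
        (Nat.choose N j : ℝ) := by ring
    _ ≤ (2:ℝ) ^ (N + 1) * ((N:ℝ) + 1) * ((Nat.factorial j : ℝ) * (Nat.factorial (N - j) : ℝ)) *
        2 ^ (N + 1) := by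
        refine mul_le_mul_of_nonneg_left ?_ (by positivity)
        refine h5.trans ?_
        exact pow_le_pow_right₀ (by norm_num) (by omega)
    _ = _ := by ring

lemma lag {m : ℕ} {T : Polynomial ℂ} (hT : T.degree < m) {x δ : ℝ} (hδ : 0 < δ) {y : ℕ → ℝ}
    (hy : ∀ j < m, x + 2 * j * δ < y j ∧ y j ≤ x + (2 * j + 1) * δ) {b : ℝ}
    (hb : ∀ j < m, ‖T.eval (y j : ℂ)‖ ≤ b) :
    ‖T.eval (x : ℂ)‖ ≤ m * (m * 4 ^ m) * b := by
  have hsep : ∀ i < m, ∀ j < m, j ≠ i → |(i : ℝ) - j| * δ ≤ |y j - y i| := by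
    have key : ∀ i < m, ∀ j < m, j < i → ((i : ℝ) - j) * δ ≤ y i - y j := by
      intro i hi j hj hij
      have h1 := (hy i hi).1
      have h2 := (hy j hj).2
      have h3 : (j : ℝ) + 1 ≤ i := by exact_mod_cast hij
      nlinarith
    intro i hi j hj hij
    rcases lt_or_gt_of_ne hij with h | h
    · have h1 := key i hi j hj h
      have h3 : (j : ℝ) ≤ i := by exact_mod_cast h.le
      rw [abs_of_nonneg (by linarith), abs_sub_comm]
      exact h1.trans (le_abs_self _)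
    · have h1 := key j hj i hi h
      have h3 : (i : ℝ) ≤ j := by exact_mod_cast h.le
      rw [abs_sub_comm, abs_of_nonneg (by linarith)]
      exact h1.trans (le_abs_self _)
  have hinj : Set.InjOn (fun j : ℕ => (y j : ℂ)) (range m : Finset ℕ) := by
    intro i hi j hj hij
    rw [mem_coe, mem_range] at hi hj
    by_contra hne
    have h1 := hsep i hi j hj (fun h => hne h.symm)
    have h2 : y i = y j := Complex.ofReal_injective hij
    rw [h2, sub_self, abs_zero] at h1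
    have h3 : 0 < |(i : ℝ) - j| := abs_pos.2 (sub_ne_zero.2 (by exact_mod_cast hne))
    nlinarith
  have hI := Lagrange.eq_interpolate (s := range m) (v := fun j : ℕ => (y j : ℂ)) (f := T) hinj
    (by rw [card_range]; exact hT)
  rw [hI, Lagrange.interpolate_apply, Polynomial.eval_finsetSum]
  refine (norm_sum_le _ _).trans ?_
  have h1 : ∀ j ∈ range m, ‖(Polynomial.C (T.eval (y j : ℂ)) *
      Lagrange.basis (range m) (fun j : ℕ => (y j : ℂ)) j).eval (x : ℂ)‖ ≤ m * 4 ^ m * b := by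
    intro j hj
    have hj' := mem_range.1 hj
    rw [Polynomial.eval_mul, Polynomial.eval_C, norm_mul, mul_comm]
    have hb0 : 0 ≤ b := (norm_nonneg _).trans (hb j hj')
    refine mul_le_mul ?_ (hb j hj') (norm_nonneg _) (by positivity)
    unfold Lagrange.basis Lagrange.basisDivisor
    rw [Polynomial.eval_prod, norm_prod]
    refine le_trans (prod_le_prod (fun _ _ => norm_nonneg _) fun i hi => ?_) (lag_prod hj')
    have hi' := mem_range.1 (mem_of_mem_erase hi)
    have hij := ne_of_mem_erase hi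
    rw [Polynomial.eval_mul, Polynomial.eval_C, Polynomial.eval_sub, Polynomial.eval_X,
      Polynomial.eval_C, ← Complex.ofReal_sub, ← Complex.ofReal_sub, ← Complex.ofReal_inv,
      ← Complex.ofReal_mul, Complex.norm_real, Real.norm_eq_abs, abs_mul, abs_inv,
      inv_mul_eq_div]
    have h2 := hsep i hi' j hj' (fun h => hij h.symm)
    have h3 : |x - y i| ≤ (2 * i + 1) * δ := by
      have := hy i hi'
      have h4 : (0:ℝ) ≤ 2 * i * δ := by positivity
      rw [abs_le]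
      constructor <;> linarith [this.1, this.2]
    have h4 : 0 < |(i : ℝ) - j| := abs_pos.2 (sub_ne_zero.2 (by exact_mod_cast hij))
    rw [div_le_div_iff₀ (by nlinarith) h4]
    calc |x - y i| * |(i : ℝ) - j| ≤ ((2 * i + 1) * δ) * |(i : ℝ) - j| :=
          mul_le_mul_of_nonneg_right h3 h4.le
      _ = (2 * i + 1) * (|(i : ℝ) - j| * δ) := by ring
      _ ≤ (2 * i + 1) * |y j - y i| := mul_le_mul_of_nonneg_left h2 (by positivity)
  refine (sum_le_sum h1).trans (le_of_eq ?_)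
  rw [sum_const, card_range, nsmul_eq_mul]
  ring

/-! ### Taylor polynomials -/

section taylor

variable {σ1 σ2 B : ℝ} {φ : ℂ → ℂ}

lemma rect_meas (σ1 σ2 B : ℝ) : MeasurableSet (ZU.rect σ1 σ2 B) := by
  have h1 : ZU.rect σ1 σ2 B = {z : ℂ | σ1 ≤ z.re} ∩ ({z : ℂ | z.re ≤ σ2} ∩ {z : ℂ | |z.im| ≤ B}) := by
    ext z; simp [ZU.rect]
  rw [h1]
  exact ((isClosed_le continuous_const Complex.continuous_re).inter
    ((isClosed_le Complex.continuous_re continuous_const).inter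
    (isClosed_le Complex.continuous_im.abs continuous_const))).measurableSet

/-- the size of the rectangle -/
noncomputable def MM (σ1 σ2 B : ℝ) : ℝ := 1 + |σ1| + |σ2| + |B|

lemma MM_pos (σ1 σ2 B : ℝ) : 1 ≤ MM σ1 σ2 B := by
  unfold MM
  have := abs_nonneg σ1
  have := abs_nonneg σ2
  have := abs_nonneg B
  linarith

lemma norm_le_MM {s : ℂ} (hs : s ∈ ZU.rect σ1 σ2 B) : ‖s‖ ≤ MM σ1 σ2 B := by
  obtain ⟨h1, h2, h3⟩ := hs
  refine (Complex.norm_le_abs_re_add_abs_im s).trans ?_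
  unfold MM
  have h4 : |s.re| ≤ |σ1| + |σ2| := by
    rw [abs_le]
    have := neg_abs_le σ1
    have := le_abs_self σ2
    have := abs_nonneg σ1
    have := abs_nonneg σ2
    constructor <;> linarith
  have h5 := h3.trans (le_abs_self B)
  linarith

/-- the transform -/
noncomputable def DD (σ1 σ2 B : ℝ) (φ : ℂ → ℂ) (x : ℝ) : ℂ :=
  ∫ s in ZU.rect σ1 σ2 B, φ s * Complex.exp (-(s * (x : ℂ)))

lemma norm_exp_le {x : ℝ} (h1 : 0 < σ1) (hx : 0 ≤ x) {s : ℂ} (hs : s ∈ ZU.rect σ1 σ2 B) :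
    ‖Complex.exp (-(s * (x : ℂ)))‖ ≤ 1 := by
  rw [Complex.norm_exp, Real.exp_le_one_iff, Complex.neg_re, Complex.re_mul_ofReal]
  have : 0 ≤ s.re * x := mul_nonneg (h1.le.trans hs.1) hx
  linarith

lemma int_mul {g : ℂ → ℂ} (hφ : IntegrableOn φ (ZU.rect σ1 σ2 B)) (hg : Continuous g) {c : ℝ}
    (hc : ∀ s ∈ ZU.rect σ1 σ2 B, ‖g s‖ ≤ c) :
    IntegrableOn (fun s => φ s * g s) (ZU.rect σ1 σ2 B) := by
  refine Integrable.mul_bdd (c := c) hφ hg.aestronglyMeasurable ?_
  filter_upwards [ae_restrict_mem (rect_meas σ1 σ2 B)] with s hs using hc s hs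

lemma DD_le {x : ℝ} (h1 : 0 < σ1) (hx : 0 ≤ x) (hφ : IntegrableOn φ (ZU.rect σ1 σ2 B)) :
    ‖DD σ1 σ2 B φ x‖ ≤ ∫ s in ZU.rect σ1 σ2 B, ‖φ s‖ := by
  unfold DD
  refine norm_integral_le_of_norm_le hφ.norm ?_
  filter_upwards [ae_restrict_mem (rect_meas σ1 σ2 B)] with s hs
  rw [norm_mul]
  exact mul_le_of_le_one_right (norm_nonneg _) (norm_exp_le h1 hx hs)

/-- the Taylor polynomial -/
noncomputable def TT (σ1 σ2 B : ℝ) (φ : ℂ → ℂ) (x : ℝ) (m : ℕ) : Polynomial ℂ :=
  ∑ k ∈ range m, Polynomial.C ((∫ s in ZU.rect σ1 σ2 B, φ s * (Complex.exp (-(s * (x : ℂ))) *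
    (-s) ^ k)) / (Nat.factorial k : ℂ)) * (Polynomial.X - Polynomial.C (x : ℂ)) ^ k

lemma TT_degree (x : ℝ) {m : ℕ} (_hm : 0 < m) : (TT σ1 σ2 B φ x m).degree < m := by
  unfold TT
  refine (Polynomial.degree_sum_le _ _).trans_lt ?_
  rw [Finset.sup_lt_iff (by exact WithBot.bot_lt_coe m)]
  intro k hk
  rw [mem_range] at hk
  refine (Polynomial.degree_mul_le _ _).trans_lt ?_
  rw [Polynomial.degree_pow, Polynomial.degree_X_sub_C, nsmul_one]
  refine (add_le_add Polynomial.degree_C_le le_rfl).trans_lt ?_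
  rw [zero_add]
  exact_mod_cast hk

lemma TT_eval (x y : ℝ) (m : ℕ) : (TT σ1 σ2 B φ x m).eval (y : ℂ) =
    ∑ k ∈ range m, (∫ s in ZU.rect σ1 σ2 B, φ s * (Complex.exp (-(s * (x : ℂ))) *
    (-s) ^ k)) / (Nat.factorial k : ℂ) * ((y : ℂ) - x) ^ k := by
  unfold TT
  rw [Polynomial.eval_finsetSum]
  refine sum_congr rfl fun k _ => ?_
  simp

lemma TT_self (x : ℝ) {m : ℕ} (hm : 0 < m) :
    (TT σ1 σ2 B φ x m).eval (x : ℂ) = DD σ1 σ2 B φ x := by
  rw [TT_eval, sum_eq_single_of_mem 0 (mem_range.2 hm)]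
  · simp [DD]
  · intro k _ hk
    rw [sub_self, zero_pow hk, mul_zero]

lemma TT_near {x y : ℝ} (h1 : 0 < σ1) (hx : 0 ≤ x) (hφ : IntegrableOn φ (ZU.rect σ1 σ2 B)) {m : ℕ}
    {r : ℝ} (hr0 : 0 ≤ r) (hr : MM σ1 σ2 B * |y - x| ≤ r) (hr2 : r ≤ (m + 1) / 2) :
    ‖DD σ1 σ2 B φ y - (TT σ1 σ2 B φ x m).eval (y : ℂ)‖ ≤
      (∫ s in ZU.rect σ1 σ2 B, ‖φ s‖) * (2 * (r ^ m / (Nat.factorial m : ℝ))) := by
  have hM := MM_pos σ1 σ2 B
  have hexp : ∀ s : ℂ, Complex.exp (-(s * (y : ℂ))) =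
      Complex.exp (-(s * (x : ℂ))) * Complex.exp (-(s * ((y : ℂ) - x))) := by
    intro s
    rw [← Complex.exp_add]
    congr 1
    ring
  have hsmall : ∀ s ∈ ZU.rect σ1 σ2 B, ‖-(s * ((y : ℂ) - x))‖ ≤ r := by
    intro s hs
    rw [norm_neg, norm_mul, ← Complex.ofReal_sub, Complex.norm_real, Real.norm_eq_abs]
    exact (mul_le_mul_of_nonneg_right (norm_le_MM hs) (abs_nonneg _)).trans hr
  have hT : (TT σ1 σ2 B φ x m).eval (y : ℂ) = ∫ s in ZU.rect σ1 σ2 B, φ s *
      (Complex.exp (-(s * (x : ℂ))) * ∑ k ∈ range m, (-(s * ((y : ℂ) - x))) ^ k /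
        (Nat.factorial k : ℂ)) := by
    rw [TT_eval]
    have e1 : ∀ s : ℂ, φ s * (Complex.exp (-(s * (x : ℂ))) * ∑ k ∈ range m,
        (-(s * ((y : ℂ) - x))) ^ k / (Nat.factorial k : ℂ)) =
        ∑ k ∈ range m, (((y : ℂ) - x) ^ k / (Nat.factorial k : ℂ)) *
          (φ s * (Complex.exp (-(s * (x : ℂ))) * (-s) ^ k)) := by
      intro s
      rw [mul_sum, mul_sum]
      refine sum_congr rfl fun k _ => ?_
      rw [show -(s * ((y : ℂ) - x)) = (-s) * ((y : ℂ) - x) by ring, mul_pow]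
      ring
    simp_rw [e1]
    rw [integral_finsetSum]
    · refine sum_congr rfl fun k _ => ?_
      rw [integral_const_mul]
      ring
    · intro k _
      refine Integrable.const_mul ?_ _
      refine int_mul (g := fun s => Complex.exp (-(s * (x : ℂ))) * (-s) ^ k) hφ (by fun_prop)
        (c := MM σ1 σ2 B ^ k) fun s hs => ?_
      rw [norm_mul, norm_pow, norm_neg]
      calc ‖Complex.exp (-(s * (x : ℂ)))‖ * ‖s‖ ^ k ≤ 1 * MM σ1 σ2 B ^ k :=
            mul_le_mul (norm_exp_le h1 hx hs) (pow_le_pow_left₀ (norm_nonneg _) (norm_le_MM hs) k)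
              (by positivity) zero_le_one
        _ = _ := one_mul _
  rw [hT]
  unfold DD
  have hi1 : IntegrableOn (fun s => φ s * Complex.exp (-(s * (y : ℂ)))) (ZU.rect σ1 σ2 B) := by
    refine int_mul (g := fun s => Complex.exp (-(s * (y : ℂ)))) hφ (by fun_prop)
      (c := Real.exp r) fun s hs => ?_
    rw [hexp, norm_mul]
    calc _ ≤ 1 * Real.exp r := by
          refine mul_le_mul (norm_exp_le h1 hx hs) ?_ (norm_nonneg _) zero_le_one
          refine (Complex.norm_exp_le_exp_norm _).trans (Real.exp_le_exp.2 (hsmall s hs))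
      _ = _ := one_mul _
  have hi2 : IntegrableOn (fun s => φ s * (Complex.exp (-(s * (x : ℂ))) * ∑ k ∈ range m,
      (-(s * ((y : ℂ) - x))) ^ k / (Nat.factorial k : ℂ))) (ZU.rect σ1 σ2 B) := by
    refine int_mul (g := fun s => Complex.exp (-(s * (x : ℂ))) * ∑ k ∈ range m,
      (-(s * ((y : ℂ) - x))) ^ k / (Nat.factorial k : ℂ)) hφ ?_
      (c := Real.exp r) fun s hs => ?_
    · refine Continuous.mul (by fun_prop) (continuous_finsetSum _ fun k _ => ?_)
      exact Continuous.div_const (by fun_prop) _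
    · rw [norm_mul]
      calc _ ≤ 1 * Real.exp r := by
            refine mul_le_mul (norm_exp_le h1 hx hs) ?_ (norm_nonneg _) zero_le_one
            refine (norm_sum_le _ _).trans ?_
            refine le_trans (sum_le_sum fun k _ => ?_) (Real.sum_le_exp_of_nonneg hr0 m)
            rw [norm_div, norm_pow, Complex.norm_natCast]
            exact div_le_div_of_nonneg_right (pow_le_pow_left₀ (norm_nonneg _) (hsmall s hs) k)
              (Nat.cast_nonneg _)
        _ = _ := one_mul _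
  rw [← integral_sub hi1 hi2, ← integral_mul_const]
  refine norm_integral_le_of_norm_le (hφ.norm.mul_const _) ?_
  filter_upwards [ae_restrict_mem (rect_meas σ1 σ2 B)] with s hs
  rw [hexp, ← mul_sub, ← mul_sub, norm_mul]
  refine mul_le_mul_of_nonneg_left ?_ (norm_nonneg _)
  rw [norm_mul]
  have hb := Complex.exp_bound' (x := -(s * ((y : ℂ) - x))) (n := m) (by
    rw [div_le_iff₀ (by positivity)]
    have := hsmall s hs
    push_cast
    linarith)
  calc _ ≤ 1 * (‖-(s * ((y : ℂ) - x))‖ ^ m / (Nat.factorial m : ℝ) * 2) :=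
        mul_le_mul (norm_exp_le h1 hx hs) hb (norm_nonneg _) zero_le_one
    _ ≤ 2 * (r ^ m / (Nat.factorial m : ℝ)) := by
        rw [one_mul, mul_comm]
        refine mul_le_mul_of_nonneg_left ?_ (by norm_num)
        exact div_le_div_of_nonneg_right (pow_le_pow_left₀ (norm_nonneg _) (hsmall s hs) m)
          (Nat.cast_nonneg _)

end taylor

/-! ### The estimate -/

lemma fact_bound (m : ℕ) : (m : ℝ) ^ m / (Nat.factorial m : ℝ) ≤ Real.exp m :=
  Real.pow_div_factorial_le_exp _ (Nat.cast_nonneg m) m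

lemma x_exp_anti {x y : ℝ} (hx : 1 ≤ x) (hxy : x ≤ y) : y * Real.exp (-y) ≤ x * Real.exp (-x) := by
  have hx0 : 0 < x := by linarith
  have h1 : y / x ≤ Real.exp (y - x) := by
    have h2 : y / x ≤ 1 + (y - x) := by
      rw [div_le_iff₀ hx0]
      nlinarith
    have h3 := Real.add_one_le_exp (y - x)
    linarith
  rw [div_le_iff₀ hx0, Real.exp_sub, div_mul_eq_mul_div, le_div_iff₀ (Real.exp_pos x)] at h1
  rw [Real.exp_neg, Real.exp_neg, ← div_eq_mul_inv, ← div_eq_mul_inv,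
    div_le_div_iff₀ (Real.exp_pos y) (Real.exp_pos x)]
  linarith

/-- the bound at a good node -/
lemma node {V : Type} {lam : V → ℝ} {σ1 σ2 B : ℝ} {φ : ℂ → ℂ} {C : ℝ}
    (hC : ∀ F : Finset V, ∑ v ∈ F, ‖DD σ1 σ2 B φ (lam v)‖ ≤ C) {δ c X₀ : ℝ} (hc : 0 < c)
    (hw : ∀ x : ℝ, X₀ ≤ x → ∃ F : Finset V, c * Real.exp x / x ≤ (F.card : ℝ) ∧
      ∀ v ∈ F, x < lam v ∧ lam v ≤ x + δ) {x : ℝ} (hx1 : 1 ≤ x) (hx : X₀ ≤ x) :
    ∃ y : ℝ, x < y ∧ y ≤ x + δ ∧ ‖DD σ1 σ2 B φ y‖ ≤ C / c * (x * Real.exp (-x)) := by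
  obtain ⟨F, hF, hF2⟩ := hw x hx
  have hx0 : 0 < x := by linarith
  have hpos : 0 < c * Real.exp x / x := by positivity
  have hcard : (0:ℝ) < F.card := lt_of_lt_of_le hpos hF
  have hne : F.Nonempty := card_pos.1 (by exact_mod_cast hcard)
  obtain ⟨v, hv, hmin⟩ := exists_min_image F (fun v => ‖DD σ1 σ2 B φ (lam v)‖) hne
  refine ⟨lam v, (hF2 v hv).1, (hF2 v hv).2, ?_⟩
  have h1 : (F.card : ℝ) * ‖DD σ1 σ2 B φ (lam v)‖ ≤ C := by
    refine le_trans ?_ (hC F)
    have := card_nsmul_le_sum F (fun v => ‖DD σ1 σ2 B φ (lam v)‖) _ hmin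
    rwa [nsmul_eq_mul] at this
  have h2 : c * Real.exp x / x * ‖DD σ1 σ2 B φ (lam v)‖ ≤ C :=
    (mul_le_mul_of_nonneg_right hF (norm_nonneg _)).trans h1
  rw [div_mul_eq_mul_div, div_le_iff₀ hx0] at h2
  rw [Real.exp_neg, div_mul_eq_mul_div, le_div_iff₀ hc, ← div_eq_mul_inv, mul_div_assoc',
    le_div_iff₀ (Real.exp_pos x)]
  linarith

theorem main {V : Type} {lam : V → ℝ} (hW : Windows lam) {σ1 σ2 B : ℝ} (h1 : 0 < σ1)
    {φ : ℂ → ℂ} (hφ : IntegrableOn φ (ZU.rect σ1 σ2 B)) {C : ℝ}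
    (hC : ∀ F : Finset V, ∑ v ∈ F, ‖DD σ1 σ2 B φ (lam v)‖ ≤ C) {ε : ℝ} (hε : 0 < ε) :
    ∃ A : ℝ, ∀ x : ℝ, 0 ≤ x → ‖DD σ1 σ2 B φ x‖ ≤ A * Real.exp (-((1 - ε) * x)) := by
  set I0 := ∫ s in ZU.rect σ1 σ2 B, ‖φ s‖ with hI0
  have hI00 : 0 ≤ I0 := integral_nonneg fun _ => norm_nonneg _
  have htriv : ∀ x, 0 ≤ x → ‖DD σ1 σ2 B φ x‖ ≤ I0 := fun x hx => DD_le h1 hx hφ
  rcases le_or_gt 1 ε with hε1 | hε1
  · refine ⟨I0, fun x hx => (htriv x hx).trans ?_⟩
    refine le_mul_of_one_le_right hI00 (Real.one_le_exp ?_)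
    nlinarith
  set M := MM σ1 σ2 B with hM
  have hM1 : 1 ≤ M := MM_pos _ _ _
  set κ := ε / 12 with hκ
  have hκ0 : 0 < κ := by positivity
  set δ := Real.exp (-(1 / κ)) / (32 * Real.exp 1 * M) with hδ
  have hδ0 : 0 < δ := by positivity
  have he1 : 1 ≤ Real.exp 1 := Real.one_le_exp zero_le_one
  have hδM : 2 * M * δ ≤ 1 / 2 := by
    have h2 : Real.exp (-(1 / κ)) ≤ 1 := by
      rw [Real.exp_le_one_iff]
      have : 0 < 1 / κ := by positivity
      linarith
    rw [hδ]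
    have h3 : 2 * M * (Real.exp (-(1 / κ)) / (32 * Real.exp 1 * M)) =
        Real.exp (-(1 / κ)) / (16 * Real.exp 1) := by field_simp; ring
    rw [h3, div_le_div_iff₀ (by positivity) (by norm_num)]
    nlinarith
  obtain ⟨c, hc, X₀, hw⟩ := hW δ hδ0
  have hC0 : 0 ≤ C := by simpa using hC ∅
  have hnode : ∀ x : ℝ, 1 ≤ x → X₀ ≤ x → ∃ y : ℝ, x < y ∧ y ≤ x + δ ∧
      ‖DD σ1 σ2 B φ y‖ ≤ C / c * (x * Real.exp (-x)) := fun x hx1 hx =>
    node hC hc hw hx1 hx
  set X1 := max X₀ 1 with hX1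
  have hX11 : 1 ≤ X1 := le_max_right _ _
  -- the large values
  have hlarge : ∀ x : ℝ, X1 ≤ x → ‖DD σ1 σ2 B φ x‖ ≤
      (Real.exp 6 * (C / c * (4 / ε)) + 2 * I0) * Real.exp (-((1 - ε) * x)) := by
    intro x hx
    have hx1 : 1 ≤ x := hX11.trans hx
    have hx0 : 0 ≤ x := by linarith
    have hxX : X₀ ≤ x := (le_max_left _ _).trans hx
    set m : ℕ := ⌈κ * x⌉₊ + 1 with hm
    have hm0 : 0 < m := by omega
    have hm1 : κ * x ≤ m := by
      have := Nat.le_ceil (κ * x)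
      rw [hm]; push_cast; linarith
    have hm2 : (m : ℝ) ≤ κ * x + 2 := by
      have := (Nat.ceil_lt_add_one (by positivity : 0 ≤ κ * x)).le
      rw [hm]; push_cast; linarith
    have hmR : (1:ℝ) ≤ m := by exact_mod_cast hm0
    -- nodes
    have hy : ∀ j : ℕ, ∃ y : ℝ, x + 2 * j * δ < y ∧ y ≤ x + 2 * j * δ + δ ∧
        ‖DD σ1 σ2 B φ y‖ ≤ C / c * (x * Real.exp (-x)) := by
      intro j
      have hj0 : 0 ≤ 2 * (j:ℝ) * δ := by positivity
      obtain ⟨y, h2, h3, h4⟩ := hnode (x + 2 * j * δ) (by linarith) (by linarith)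
      refine ⟨y, h2, h3, h4.trans ?_⟩
      refine mul_le_mul_of_nonneg_left ?_ (by positivity)
      exact x_exp_anti hx1 (by linarith)
    choose y hy1 hy2 hy3 using hy
    set r : ℝ := 2 * M * δ * m with hr
    have hr0 : 0 ≤ r := by positivity
    have hr2 : r ≤ (m + 1) / 2 := by
      have : 2 * M * δ * m ≤ 1 / 2 * m := mul_le_mul_of_nonneg_right hδM (by positivity)
      rw [hr]; linarith
    have hrj : ∀ j < m, MM σ1 σ2 B * |y j - x| ≤ r := by
      intro j hj
      have hj1 : (j:ℝ) + 1 ≤ m := by exact_mod_cast hj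
      have hj0 : 0 ≤ 2 * (j:ℝ) * δ := by positivity
      have h2 : |y j - x| ≤ 2 * m * δ := by
        rw [abs_of_nonneg (by linarith [hy1 j])]
        have h3 := hy2 j
        have h4 : (j + 1) * δ ≤ m * δ := mul_le_mul_of_nonneg_right hj1 hδ0.le
        nlinarith
      calc MM σ1 σ2 B * |y j - x| ≤ M * (2 * m * δ) :=
            mul_le_mul_of_nonneg_left h2 (by linarith)
        _ = r := by rw [hr]; ring
    set τ : ℝ := I0 * (2 * (r ^ m / (Nat.factorial m : ℝ))) with hτ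
    set b : ℝ := C / c * (x * Real.exp (-x)) + τ with hb
    have hbj : ∀ j < m, ‖(TT σ1 σ2 B φ x m).eval (y j : ℂ)‖ ≤ b := by
      intro j hj
      have h2 := TT_near (y := y j) h1 hx0 hφ hr0 (hrj j hj) hr2
      have h3 := hy3 j
      have h4 : ‖(TT σ1 σ2 B φ x m).eval (y j : ℂ)‖ ≤ ‖DD σ1 σ2 B φ (y j)‖ +
          ‖DD σ1 σ2 B φ (y j) - (TT σ1 σ2 B φ x m).eval (y j : ℂ)‖ := by
        have := norm_sub_le (DD σ1 σ2 B φ (y j)) (DD σ1 σ2 B φ (y j) -
          (TT σ1 σ2 B φ x m).eval (y j : ℂ))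
        rwa [sub_sub_cancel] at this
      rw [hb]
      linarith
    have hlag := lag (TT_degree (σ1 := σ1) (σ2 := σ2) (B := B) (φ := φ) x hm0) hδ0
      (y := y) (fun j _ => ⟨hy1 j, by have := hy2 j; linarith⟩) hbj
    rw [TT_self x hm0] at hlag
    -- the size of the constants
    have hm16 : (m:ℝ) * (m * 4 ^ m) ≤ 16 ^ m := by
      have h2 : (m:ℝ) ≤ 2 ^ m := by exact_mod_cast Nat.lt_two_pow_self.le
      have h3 : (16:ℝ) ^ m = 2 ^ m * (2 ^ m * 4 ^ m) := by
        rw [← mul_pow, ← mul_pow]; norm_num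
      rw [h3]
      refine mul_le_mul h2 (mul_le_mul_of_nonneg_right h2 (by positivity)) (by positivity)
        (by positivity)
    have he3 : (16:ℝ) ≤ Real.exp 3 := by
      have h2 : (2.7182818283:ℝ) < Real.exp 1 := Real.exp_one_gt_d9
      have h3 : Real.exp 3 = Real.exp 1 ^ 3 := by
        rw [← Real.exp_nat_mul]; norm_num
      rw [h3]
      have h4 : (2.7:ℝ) ^ 3 ≤ Real.exp 1 ^ 3 := pow_le_pow_left₀ (by norm_num) (by linarith) 3
      linarith [show (16:ℝ) ≤ 2.7 ^ 3 by norm_num]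
    have h16 : (16:ℝ) ^ m ≤ Real.exp 6 * Real.exp (ε / 4 * x) := by
      calc (16:ℝ) ^ m ≤ Real.exp 3 ^ m := pow_le_pow_left₀ (by norm_num) he3 m
        _ = Real.exp (m * 3) := by rw [← Real.exp_nat_mul]
        _ ≤ Real.exp (6 + ε / 4 * x) := by
            apply Real.exp_le_exp.2
            rw [hκ] at hm2
            linarith
        _ = _ := Real.exp_add _ _
    have hτ2 : 16 ^ m * τ ≤ 2 * I0 * Real.exp (-x) := by
      have h2 : r ^ m / (Nat.factorial m : ℝ) ≤ (2 * M * δ * Real.exp 1) ^ m := by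
        have h3 : r ^ m / (Nat.factorial m : ℝ) = (2 * M * δ) ^ m * ((m:ℝ) ^ m /
            (Nat.factorial m : ℝ)) := by rw [hr, mul_pow]; ring
        rw [h3, mul_pow (2 * M * δ) (Real.exp 1) m]
        refine mul_le_mul_of_nonneg_left ?_ (by positivity)
        refine (fact_bound m).trans (le_of_eq ?_)
        rw [← Real.exp_nat_mul, mul_one]
      have h4 : 16 * (2 * M * δ * Real.exp 1) = Real.exp (-(1 / κ)) := by
        rw [hδ]; field_simp; ring
      calc 16 ^ m * τ = 2 * I0 * (16 ^ m * (r ^ m / (Nat.factorial m : ℝ))) := by rw [hτ]; ring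
        _ ≤ 2 * I0 * (16 ^ m * (2 * M * δ * Real.exp 1) ^ m) := by
            refine mul_le_mul_of_nonneg_left ?_ (by positivity)
            exact mul_le_mul_of_nonneg_left h2 (by positivity)
        _ = 2 * I0 * Real.exp (-(1 / κ)) ^ m := by rw [← mul_pow, h4]
        _ ≤ 2 * I0 * Real.exp (-x) := by
            refine mul_le_mul_of_nonneg_left ?_ (by positivity)
            rw [← Real.exp_nat_mul]
            apply Real.exp_le_exp.2
            have h5 : x ≤ m * (1 / κ) := by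
              rw [mul_one_div, le_div_iff₀ hκ0]
              linarith
            linarith
    have hxe : x ≤ 4 / ε * Real.exp (ε / 4 * x) := by
      have h2 := Real.add_one_le_exp (ε / 4 * x)
      have h3 : 4 / ε * (ε / 4 * x) = x := by field_simp
      calc x = 4 / ε * (ε / 4 * x) := h3.symm
        _ ≤ 4 / ε * Real.exp (ε / 4 * x) :=
            mul_le_mul_of_nonneg_left (by linarith) (by positivity)
    have hb0 : 0 ≤ b := (norm_nonneg _).trans (hbj 0 hm0)
    calc ‖DD σ1 σ2 B φ x‖ ≤ m * (m * 4 ^ m) * b := hlag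
      _ ≤ 16 ^ m * b := mul_le_mul_of_nonneg_right hm16 hb0
      _ = 16 ^ m * (C / c * (x * Real.exp (-x))) + 16 ^ m * τ := by rw [hb]; ring
      _ ≤ (Real.exp 6 * Real.exp (ε / 4 * x)) * (C / c * ((4 / ε * Real.exp (ε / 4 * x)) *
          Real.exp (-x))) + 2 * I0 * Real.exp (-x) := by
          refine add_le_add (mul_le_mul h16 ?_ (by positivity) (by positivity)) hτ2
          refine mul_le_mul_of_nonneg_left ?_ (by positivity)
          exact mul_le_mul_of_nonneg_right hxe (Real.exp_pos _).le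
      _ = Real.exp 6 * (C / c * (4 / ε)) * Real.exp (-((1 - ε / 2) * x)) +
          2 * I0 * Real.exp (-x) := by
          have : Real.exp (-((1 - ε / 2) * x)) = Real.exp (ε / 4 * x) * Real.exp (ε / 4 * x) *
              Real.exp (-x) := by
            rw [← Real.exp_add, ← Real.exp_add]
            congr 1
            ring
          rw [this]; ring
      _ ≤ Real.exp 6 * (C / c * (4 / ε)) * Real.exp (-((1 - ε) * x)) +
          2 * I0 * Real.exp (-((1 - ε) * x)) := by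
          refine add_le_add (mul_le_mul_of_nonneg_left ?_ (by positivity))
            (mul_le_mul_of_nonneg_left ?_ (by positivity))
          · apply Real.exp_le_exp.2; nlinarith
          · apply Real.exp_le_exp.2; nlinarith
      _ = _ := by ring
  refine ⟨max (Real.exp 6 * (C / c * (4 / ε)) + 2 * I0) (I0 * Real.exp ((1 - ε) * X1)), ?_⟩
  intro x hx
  rcases le_or_gt X1 x with h2 | h2
  · exact (hlarge x h2).trans (mul_le_mul_of_nonneg_right (le_max_left _ _) (Real.exp_pos _).le)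
  · refine (htriv x hx).trans ?_
    refine le_trans ?_ (mul_le_mul_of_nonneg_right (le_max_right _ _) (Real.exp_pos _).le)
    rw [mul_assoc, ← Real.exp_add]
    refine le_mul_of_one_le_right hI00 (Real.one_le_exp ?_)
    nlinarith

end Key

theorem key : S_KL := by
  intro V lam hW σ1 σ2 B h1 φ hφ C hC ε hε
  exact Key.main hW h1 hφ hC hε

end Pool.Agent.P8H18.UE

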