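import Pool.Agent.P8H18.UE.Defs
import Pool.Agent.Helper240.ZU.B2

/-! Project UE: density of the linear combinations with real coefficients. -/

set_option autoImplicit false

namespace Pool.Agent.P8H18.UE

open MeasureTheory Complex

/-- the change of variables `s ↦ conj s` on the rectangle -/
theorem setInt_conj (a b B : ℝ) (F : ℂ → ℂ) :
    ∫ s in ZU.rect a b B, F ((starRingEnd ℂ) s) = ∫ s in ZU.rect a b B, F s := by
  have hmp : MeasurePreserving (fun s : ℂ => (starRingEnd ℂ) s) volume volume :=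
    Complex.conjLIE.measurePreserving
  have hemb : MeasurableEmbedding (fun s : ℂ => (starRingEnd ℂ) s) :=
    Complex.conjLIE.toHomeomorph.measurableEmbedding
  have h := hmp.setIntegral_preimage_emb hemb F (ZU.rect a b B)
  have hpre : (fun s : ℂ => (starRingEnd ℂ) s) ⁻¹' (ZU.rect a b B) = ZU.rect a b B := by
    ext s
    simp only [Set.mem_preimage, ZU.rect, Set.mem_ofPred_eq, Complex.conj_re, Complex.conj_im,
      abs_neg]
  rw [hpre] at h
  exact h

/-- integrability after the change of variables -/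
theorem intOn_conj (a b B : ℝ) (F : ℂ → ℂ) (hF : IntegrableOn F (ZU.rect a b B)) :
    IntegrableOn (fun s => F ((starRingEnd ℂ) s)) (ZU.rect a b B) := by
  have hmp : MeasurePreserving (fun s : ℂ => (starRingEnd ℂ) s) volume volume :=
    Complex.conjLIE.measurePreserving
  have hemb : MeasurableEmbedding (fun s : ℂ => (starRingEnd ℂ) s) :=
    Complex.conjLIE.toHomeomorph.measurableEmbedding
  have h := (hmp.integrableOn_comp_preimage (f := F) (s := ZU.rect a b B) hemb).2 hF
  have hpre : (fun s : ℂ => (starRingEnd ℂ) s) ⁻¹' (ZU.rect a b B) = ZU.rect a b B := by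
    ext s
    simp only [Set.mem_preimage, ZU.rect, Set.mem_ofPred_eq, Complex.conj_re, Complex.conj_im,
      abs_neg]
  rw [hpre] at h
  exact h

theorem ld (hdual : S_DUAL) : S_LD := by
  classical
  intro V lam hW τ c hc hτ σ1 σ2 B h1 h12 h2 hB g η hη
  obtain ⟨R, hR⟩ : ∃ R, R = ZU.rect σ1 σ2 B := ⟨_, rfl⟩
  rw [← hR]
  have hRc : IsCompact R := by rw [hR]; exact ZU.J_b2.rect_compact _ _ _
  have hRm : MeasurableSet R := hRc.measurableSet
  haveI : IsFiniteMeasure (volume.restrict R) :=
    ⟨by rw [Measure.restrict_apply_univ]; exact hRc.measure_lt_top⟩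
  have mem : ∀ h : ℂ → ℂ, ContinuousOn h R → MemLp h 2 (volume.restrict R) := by
    intro h hh
    obtain ⟨C, hC⟩ := hRc.exists_bound_of_continuousOn hh
    refine MemLp.of_bound (hh.aestronglyMeasurable hRm) C ?_
    exact (ae_restrict_iff' hRm).2 (Filter.Eventually.of_forall hC)
  obtain ⟨G, hG⟩ : ∃ G : ℂ → ℂ, ∀ s, G s = (g.map (algebraMap ℝ ℂ)).eval s := ⟨_, fun s => rfl⟩
  have hGc : Continuous G := by
    have : G = fun s => (g.map (algebraMap ℝ ℂ)).eval s := funext hG
    rw [this]; exact Polynomial.continuous _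
  have hgc : ContinuousOn G R := hGc.continuousOn
  obtain ⟨X, hX⟩ : ∃ X : V → ℂ → ℂ, ∀ v s, X v s = Complex.exp (-(s * (lam v : ℂ))) :=
    ⟨_, fun v s => rfl⟩
  have hXc : ∀ v, Continuous (X v) := by
    intro v
    have : X v = fun s => Complex.exp (-(s * (lam v : ℂ))) := funext (hX v)
    rw [this]; fun_prop
  obtain ⟨E, hE⟩ : ∃ E : V → ℂ → ℂ, ∀ v s, E v s = (τ v : ℂ) * X v s := ⟨_, fun v s => rfl⟩
  have hEc : ∀ v, Continuous (E v) := by
    intro v
    have : E v = fun s => (τ v : ℂ) * X v s := funext (hE v)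
    rw [this]; exact continuous_const.mul (hXc v)
  have memE : ∀ v, MemLp (E v) 2 (volume.restrict R) := fun v => mem _ (hEc v).continuousOn
  obtain ⟨e, he⟩ : ∃ e : V → Lp ℂ 2 (volume.restrict R), ∀ v, e v = (memE v).toLp (E v) :=
    ⟨_, fun v => rfl⟩
  have hlc : ∀ α : V →₀ ℝ, ∃ h : MemLp (fun s => α.sum (fun v a => (a : ℂ) * E v s)) 2
      (volume.restrict R), Finsupp.linearCombination ℝ e α = h.toLp _ := by
    intro α
    induction α using Finsupp.induction_linear with
    | zero =>
      refine ⟨by simpa using (MemLp.zero' : MemLp (fun _ : ℂ => (0:ℂ)) 2 (volume.restrict R)), ?_⟩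
      rw [map_zero]
      symm
      have : (fun s : ℂ => (0 : V →₀ ℝ).sum (fun v a => (a : ℂ) * E v s)) = 0 := by
        ext s; simp
      simp only [this]
      exact MemLp.toLp_zero _
    | add x y hx hy =>
      obtain ⟨mx, ex⟩ := hx
      obtain ⟨my, ey⟩ := hy
      have hfun : (fun s => (x + y).sum (fun v a => (a : ℂ) * E v s)) =
          (fun s => x.sum (fun v a => (a : ℂ) * E v s)) +
            (fun s => y.sum (fun v a => (a : ℂ) * E v s)) := by
        ext s
        rw [Pi.add_apply, Finsupp.sum_add_index']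
        · intro v; simp
        · intro v a b; push_cast; ring
      refine ⟨by rw [hfun]; exact mx.add my, ?_⟩
      rw [map_add, ex, ey, ← MemLp.toLp_add]
      exact MemLp.toLp_congr _ _ (by rw [hfun])
    | single v a =>
      have hfun : (fun s => (Finsupp.single v a).sum (fun v a => (a : ℂ) * E v s)) = a • E v := by
        ext s
        rw [Finsupp.sum_single_index (by simp)]
        rw [Pi.smul_apply, Complex.real_smul]
      refine ⟨by rw [hfun]; exact (memE v).const_smul a, ?_⟩
      rw [Finsupp.linearCombination_single, he, ← MemLp.toLp_const_smul]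
      exact MemLp.toLp_congr _ _ (by rw [hfun])
  obtain ⟨K, hK⟩ : ∃ K : Set (V →₀ ℝ), ∀ α, α ∈ K ↔ ∀ v, |α v| ≤ 1 :=
    ⟨{α | ∀ v, |α v| ≤ 1}, fun α => Iff.rfl⟩
  have hKc : Convex ℝ K := by
    intro x hx y hy a b ha hb hab
    rw [hK] at hx hy ⊢
    intro v
    rw [Finsupp.add_apply, Finsupp.smul_apply, Finsupp.smul_apply, smul_eq_mul, smul_eq_mul]
    calc |a * x v + b * y v| ≤ |a * x v| + |b * y v| := abs_add_le _ _
      _ = a * |x v| + b * |y v| := by
        rw [abs_mul, abs_mul, abs_of_nonneg ha, abs_of_nonneg hb]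
      _ ≤ a * 1 + b * 1 := by
        gcongr
        · exact hx v
        · exact hy v
      _ = 1 := by rw [mul_one, mul_one, hab]
  obtain ⟨S, hS⟩ : ∃ S : Set (Lp ℂ 2 (volume.restrict R)),
      S = (Finsupp.linearCombination ℝ e) '' K := ⟨_, rfl⟩
  have hSc : Convex ℝ S := by rw [hS]; exact hKc.linear_image _
  have memS : ∀ α ∈ K, Finsupp.linearCombination ℝ e α ∈ S := by
    intro α hα; rw [hS]; exact ⟨α, hα, rfl⟩
  have main : (mem G hgc).toLp G ∈ closure S := by
    by_contra hcon
    obtain ⟨f, u, hu1, hu2⟩ := RCLike.geometric_hahn_banach_closed_point (𝕜 := ℂ)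
      hSc.closure isClosed_closure hcon
    obtain ⟨w, hw⟩ : ∃ w, w = (InnerProductSpace.toDual ℂ (Lp ℂ 2 (volume.restrict R))).symm f :=
      ⟨_, rfl⟩
    have fw : ∀ x, f x = inner ℂ w x := by
      intro x; rw [hw]; exact InnerProductSpace.toDual_symm_apply.symm
    obtain ⟨ψ, hψ⟩ : ∃ ψ : ℂ → ℂ, ∀ s, ψ s = (starRingEnd ℂ) (w s) := ⟨_, fun s => rfl⟩
    have hwi : Integrable (fun s => w s) (volume.restrict R) :=
      (Lp.memLp w).integrable (by norm_num)
    have hψi : IntegrableOn ψ R := by
      have := (Complex.conjCLE : ℂ ≃L[ℝ] ℂ).toContinuousLinearMap.integrable_comp hwi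
      refine this.congr (Filter.Eventually.of_forall (fun s => ?_))
      rw [hψ]; rfl
    have fint : ∀ (h : ℂ → ℂ) (mh : MemLp h 2 (volume.restrict R)),
        f (mh.toLp h) = ∫ s in R, ψ s * h s := by
      intro h mh
      rw [fw, L2.inner_def]
      refine integral_congr_ae ?_
      filter_upwards [mh.coeFn_toLp] with s hs
      rw [hs, hψ, RCLike.inner_apply, mul_comm]
    have hpi : ∀ h : ℂ → ℂ, ContinuousOn h R → IntegrableOn (fun s => ψ s * h s) R :=
      fun h hh => hψi.mul_continuousOn hh hRc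
    -- the symmetrised function
    obtain ⟨φ, hφ⟩ : ∃ φ : ℂ → ℂ, ∀ s, φ s = (1 / 2 : ℂ) *
      (ψ s + (starRingEnd ℂ) (ψ ((starRingEnd ℂ) s))) := ⟨_, fun s => rfl⟩
    have hψci : IntegrableOn (fun s => (starRingEnd ℂ) (ψ ((starRingEnd ℂ) s))) R := by
      have h5 : IntegrableOn (fun s => ψ ((starRingEnd ℂ) s)) R := by
        rw [hR] at hψi ⊢; exact intOn_conj _ _ _ _ hψi
      have := (Complex.conjCLE : ℂ ≃L[ℝ] ℂ).toContinuousLinearMap.integrable_comp h5
      refine this.congr (Filter.Eventually.of_forall (fun s => ?_))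
      rfl
    have hφi : IntegrableOn φ R := by
      have : φ = fun s => (1 / 2 : ℂ) * (ψ s + (starRingEnd ℂ) (ψ ((starRingEnd ℂ) s))) :=
        funext hφ
      rw [this]
      exact (hψi.add hψci).const_mul _
    have hsym : ∀ h : ℂ → ℂ, Continuous h → (∀ s, h ((starRingEnd ℂ) s) = (starRingEnd ℂ) (h s)) →
        ∫ s in R, φ s * h s = (((∫ s in R, ψ s * h s).re : ℝ) : ℂ) := by
      intro h hh hhs
      have e1 : ∀ s, φ s * h s = (1 / 2 : ℂ) * (ψ s * h s +
          (starRingEnd ℂ) (ψ ((starRingEnd ℂ) s) * h ((starRingEnd ℂ) s))) := by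
        intro s
        rw [hφ, map_mul, hhs, Complex.conj_conj]; ring
      have i1 : IntegrableOn (fun s => ψ s * h s) R := hpi h hh.continuousOn
      have i2 : IntegrableOn (fun s => ψ ((starRingEnd ℂ) s) * h ((starRingEnd ℂ) s)) R := by
        rw [hR] at i1 ⊢; exact intOn_conj _ _ _ (fun s => ψ s * h s) i1
      have i3 : IntegrableOn (fun s =>
          (starRingEnd ℂ) (ψ ((starRingEnd ℂ) s) * h ((starRingEnd ℂ) s))) R := by
        have := (Complex.conjCLE : ℂ ≃L[ℝ] ℂ).toContinuousLinearMap.integrable_comp i2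
        refine this.congr (Filter.Eventually.of_forall (fun s => ?_))
        rfl
      have e2 : ∫ s in R, (starRingEnd ℂ) (ψ ((starRingEnd ℂ) s) * h ((starRingEnd ℂ) s)) =
          (starRingEnd ℂ) (∫ s in R, ψ s * h s) := by
        rw [integral_conj]
        congr 1
        rw [hR]
        exact setInt_conj _ _ _ (fun s => ψ s * h s)
      simp only [e1]
      rw [integral_const_mul, integral_add i1 i3, e2, Complex.add_conj]
      push_cast
      ring
    obtain ⟨q, hq⟩ : ∃ q : V → ℂ, ∀ v, q v = ∫ s in R, ψ s * X v s := ⟨_, fun v => rfl⟩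
    have fe : ∀ v, f (e v) = (τ v : ℂ) * q v := by
      intro v
      rw [he, fint, hq, ← integral_const_mul]
      refine integral_congr_ae (Filter.Eventually.of_forall (fun s => ?_))
      simp only [hE]; ring
    have hu0 : 0 < u := by
      have h0 := hu1 _ (subset_closure (memS 0 ((hK 0).2 (fun v => by simp))))
      rwa [map_zero, map_zero, map_zero] at h0
    have hsum1 : ∀ F : Finset V, ∑ v ∈ F, |(q v).re| ≤ u / c := by
      intro F
      obtain ⟨a, ha⟩ : ∃ a : V → ℝ, ∀ v, a v = SignType.sign ((q v).re) := ⟨_, fun v => rfl⟩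
      have ha1 : ∀ v, |a v| ≤ 1 := by
        intro v
        rw [ha]
        rcases lt_trichotomy ((q v).re) 0 with h | h | h
        · rw [sign_neg h]; simp
        · rw [h, sign_zero]; simp
        · rw [sign_pos h]; simp
      have haq : ∀ v, a v * (q v).re = |(q v).re| := by
        intro v
        rw [ha, sign_mul_self]
      have hα : Finsupp.onFinset F (fun v => if v ∈ F then a v else 0)
          (fun v hv => by by_contra h; exact hv (if_neg h)) ∈ K := by
        rw [hK]
        intro v
        rw [Finsupp.onFinset_apply]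
        split_ifs
        · exact ha1 v
        · simp
      have h3 := hu1 _ (subset_closure (memS _ hα))
      rw [Finsupp.linearCombination_onFinset, map_sum] at h3
      have h4 : ∀ v ∈ F, f ((if v ∈ F then a v else 0) • e v) =
          (a v : ℂ) * ((τ v : ℂ) * q v) := by
        intro v hv
        rw [if_pos hv]
        have : a v • e v = (a v : ℂ) • e v := (Complex.coe_smul (a v) (e v)).symm
        rw [this, map_smul, fe, smul_eq_mul]
      rw [Finset.sum_congr rfl h4] at h3
      have h5 : RCLike.re (∑ v ∈ F, (a v : ℂ) * ((τ v : ℂ) * q v)) =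
          ∑ v ∈ F, τ v * |(q v).re| := by
        rw [map_sum]
        refine Finset.sum_congr rfl (fun v _ => ?_)
        have : RCLike.re ((a v : ℂ) * ((τ v : ℂ) * q v)) = ((a v : ℂ) * ((τ v : ℂ) * q v)).re := rfl
        rw [this, Complex.re_ofReal_mul, Complex.re_ofReal_mul, ← haq v]
        ring
      rw [h5] at h3
      rw [le_div_iff₀ hc, Finset.sum_mul]
      refine le_trans (Finset.sum_le_sum (fun v _ => ?_)) h3.le
      rw [mul_comm]
      exact mul_le_mul_of_nonneg_right (hτ v) (abs_nonneg _)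
    have hXs : ∀ v s, X v ((starRingEnd ℂ) s) = (starRingEnd ℂ) (X v s) := by
      intro v s
      rw [hX, hX, ← Complex.exp_conj, map_neg, map_mul, Complex.conj_ofReal]
    have hsum2 : ∀ F : Finset V, ∑ v ∈ F,
        ‖∫ s in ZU.rect σ1 σ2 B, φ s * Complex.exp (-(s * (lam v : ℂ)))‖ ≤ u / c := by
      intro F
      refine le_trans (le_of_eq (Finset.sum_congr rfl (fun v _ => ?_))) (hsum1 F)
      have e1 : ∫ s in ZU.rect σ1 σ2 B, φ s * Complex.exp (-(s * (lam v : ℂ))) =
          ∫ s in R, φ s * X v s := by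
        rw [← hR]; simp only [hX]
      rw [e1, hsym _ (hXc v) (hXs v), ← hq, Complex.norm_real, Real.norm_eq_abs]
    have hmom := hdual V lam hW σ1 σ2 B h1 h12 h2 hB φ (by rw [← hR]; exact hφi) (u / c) hsum2
    rw [← hR] at hmom
    have hφpi : ∀ h : ℂ → ℂ, ContinuousOn h R → IntegrableOn (fun s => φ s * h s) R :=
      fun h hh => hφi.mul_continuousOn hh hRc
    have hpoly : ∀ p : Polynomial ℂ, ∫ s in R, φ s * p.eval s = 0 := by
      intro p
      induction p using Polynomial.induction_on' with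
      | add p q hp hq' =>
        simp only [Polynomial.eval_add, mul_add]
        rw [integral_add (hφpi _ p.continuous.continuousOn) (hφpi _ q.continuous.continuousOn),
          hp, hq', add_zero]
      | monomial n a =>
        have : ∀ s, φ s * (Polynomial.monomial n a).eval s = a * (φ s * s ^ n) := by
          intro s; rw [Polynomial.eval_monomial]; ring
        simp only [this]
        rw [integral_const_mul, hmom, mul_zero]
    have hGs : ∀ s, G ((starRingEnd ℂ) s) = (starRingEnd ℂ) (G s) := by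
      intro s
      rw [hG, hG, Polynomial.eval_map, Polynomial.eval_map, Polynomial.hom_eval₂]
      congr 1
      ext x
      simp
    have hG0 : (∫ s in R, ψ s * G s).re = 0 := by
      have h6 := hsym G hGc hGs
      have h7 : ∫ s in R, φ s * G s = 0 := by
        simp only [hG]; exact hpoly _
      rw [h7] at h6
      exact_mod_cast h6.symm
    have hzero : RCLike.re (f ((mem G hgc).toLp G)) = 0 := by
      rw [fint]
      exact hG0
    rw [hzero] at hu2
    linarith
  rw [Metric.mem_closure_iff] at main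
  obtain ⟨b, hbS, hb⟩ := main (Real.sqrt η) (Real.sqrt_pos.2 hη)
  rw [hS] at hbS
  obtain ⟨α, hαK, rfl⟩ := hbS
  rw [hK] at hαK
  obtain ⟨hm, hml⟩ := hlc α
  refine ⟨α.support, α, hαK, ?_⟩
  have hfun : ∀ s, α.sum (fun v a => (a : ℂ) * E v s) =
      ∑ v ∈ α.support, ((α v * τ v : ℝ) : ℂ) * Complex.exp (-(s * (lam v : ℂ))) := by
    intro s
    rw [Finsupp.sum]
    refine Finset.sum_congr rfl (fun v _ => ?_)
    rw [hE, hX]; push_cast; ring
  rw [dist_eq_norm, hml, ← MemLp.toLp_sub] at hb
  have hnorm : ∀ (h : ℂ → ℂ) (mh : MemLp h 2 (volume.restrict R)),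
      ‖mh.toLp h‖ ^ 2 = ∫ s in R, ‖h s‖ ^ 2 := by
    intro h mh
    rw [← inner_self_eq_norm_sq (𝕜 := ℂ), L2.inner_def]
    have : ∫ a in R, inner ℂ ((mh.toLp h) a) ((mh.toLp h) a) = ((∫ s in R, ‖h s‖ ^ 2 : ℝ) : ℂ) := by
      have h8 : ∫ s in R, ((‖h s‖ ^ 2 : ℝ) : ℂ) = ((∫ s in R, ‖h s‖ ^ 2 : ℝ) : ℂ) :=
        integral_ofReal
      rw [← h8]
      refine integral_congr_ae ?_
      filter_upwards [mh.coeFn_toLp] with s hs
      rw [hs, inner_self_eq_norm_sq_to_K]
      push_cast
      rfl
    rw [this]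
    exact Complex.ofReal_re _
  have h6 := hnorm _ ((mem G hgc).sub hm)
  have h7 : ‖((mem G hgc).sub hm).toLp (G - fun s => α.sum (fun v a => (a : ℂ) * E v s))‖ ^ 2
      < η := by
    have := mul_self_lt_mul_self (norm_nonneg _) hb
    rw [Real.mul_self_sqrt hη.le] at this
    rw [sq]; exact this
  rw [h6] at h7
  simpa only [Pi.sub_apply, hfun, hG] using h7

end Pool.Agent.P8H18.UE
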