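import Pool.Agent.P8H18.UE.Defs
import Pool.Agent.P8H18.AA.Second

/-! Project UE: the statement about the family of the curves. -/

set_option autoImplicit false

namespace Pool.Agent.P8H18.UE

open MeasureTheory Filter NumberField IsDedekindDomain Pool.Agent.P8H18.MF Pool.Agent.P8H18.AA
open Pool.Agent.H921R2.TatePole (nm)

/-- the proportion of the pairs in a residue class with a small sum over `W` -/
def S_FAM : Prop := ∀ (K : Type) [Field K] [NumberField K] (ι : Type) [Fintype ι] [DecidableEq ι]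
  (β : Module.Basis ι ℤ (𝓞 K)) (c : Prop) (T : Finset (HeightOneSpectrum (𝓞 K))),
  (∀ v ∈ T, (6 : 𝓞 K) ∉ v.asIdeal) →
  ∀ (e f : ∀ v : HeightOneSpectrum (𝓞 K), 𝓞 K ⧸ v.asIdeal), ∃ δ : ℝ, 0 < δ ∧
    ∀ W : Finset (HeightOneSpectrum (𝓞 K)), (∀ v ∈ W, (6 : 𝓞 K) ∉ v.asIdeal) → Disjoint T W →
    ∀ (R : Set ℂ), IsCompact R → ∀ (u : HeightOneSpectrum (𝓞 K) → ℂ → ℂ), (∀ v, Continuous (u v)) →
    ∀ η : ℝ, 0 < η → ∑ v ∈ W, 8 * (nm v : ℝ) * ∫ s in R, ‖u v s‖ ^ 2 ≤ η →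
    ∀ᶠ X : ℕ in atTop, δ * ((box β X).card : ℝ) ^ 2 ≤
      (Set.ncard {p : 𝓞 K × 𝓞 K | p.1 ∈ box β X ∧ p.2 ∈ box β X ∧ Red c p.1 p.2 ∧
        (∀ v ∈ T, Ideal.Quotient.mk v.asIdeal p.1 = e v ∧ Ideal.Quotient.mk v.asIdeal p.2 = f v) ∧
        ∫ s in R, ‖∑ v ∈ W, (tv v p.1 p.2 : ℂ) * u v s‖ ^ 2 ≤ η} : ℝ)

end Pool.Agent.P8H18.UE
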