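import Pool.Agent.P8H18.UE.Det
import Pool.Agent.P8H18.UE.Stm2
import Pool.Agent.P8H18.AA.Fin

/-! Universality of the Euler products of elliptic curves. -/

set_option autoImplicit false
set_option linter.unusedSectionVars false

namespace Pool.Agent.P8H18.UE

open MeasureTheory Filter Topology NumberField IsDedekindDomain Pool.Agent.P8H18.MF
  Pool.Agent.P8H18.AA
open Pool.Agent.H921R2.TatePole (nm two_le_nm nm_summable)
open Pool.Agent.H341R2 (card_v finite_v)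

/-- the second order terms -/
theorem second_order {a : ℝ} (ha : 1 < a) : ∃ E : ℝ, 0 < E ∧
    ∀ (K : Type) [Field K] [NumberField K] (v : HeightOneSpectrum (𝓞 K)) (x y : 𝓞 K) (s : ℂ),
      (6 : 𝓞 K) ∉ v.asIdeal → a ≤ s.re →
      ‖lv s v x y - (tv v x y : ℂ) * xv v s‖ ≤ E * (nm v : ℝ) ^ (1 - 2 * a) := by
  classical
  obtain ⟨hy0, hy1⟩ := y₀_bounds (σ := a) (by linarith)
  set r₀ : ℝ := (2 : ℝ) ^ (1 / 2 - a) with hr₀
  have hE0 : 0 < 2 * (2 + (1 - r₀)⁻¹) := by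
    have : 0 < (1 - r₀)⁻¹ := by
      rw [inv_pos]
      linarith
    linarith
  refine ⟨2 * (2 + (1 - r₀)⁻¹), hE0, fun K _ _ v x y s h6 hs => ?_⟩
  have hq0 : (0 : ℝ) < nm v := by exact_mod_cast nm_pos v
  have hsz := (sz_le v hs).trans (pow_le_two v (by linarith : 1 / 2 < a))
  have k1 := ll_two (six_ne h6) (Ideal.Quotient.mk v.asIdeal x)
    (Ideal.Quotient.mk v.asIdeal y) hy0 hy1 hsz
  have e1 : lv s v x y - (tv v x y : ℂ) * xv v s =
      ll (Ideal.Quotient.mk v.asIdeal x) (Ideal.Quotient.mk v.asIdeal y) (xv v s) -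
        (tr (Ideal.Quotient.mk v.asIdeal x) (Ideal.Quotient.mk v.asIdeal y) : ℂ) *
          xv v s := by
    unfold lv tv
    rw [if_neg h6, if_neg h6]
    push_cast
    rfl
  rw [e1]
  refine k1.trans ?_
  have k2 : sz (𝓞 K ⧸ v.asIdeal) (xv v s) ^ 2 ≤ (nm v : ℝ) ^ (1 - 2 * a) := by
    calc sz (𝓞 K ⧸ v.asIdeal) (xv v s) ^ 2 ≤ ((nm v : ℝ) ^ (1 / 2 - a)) ^ 2 := by
          refine pow_le_pow_left₀ ?_ (sz_le v hs) 2
          unfold sz
          positivity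
      _ = (nm v : ℝ) ^ (1 - 2 * a) := by
          rw [← Real.rpow_natCast, ← Real.rpow_mul hq0.le]
          congr 1
          push_cast
          ring
  exact mul_le_mul_of_nonneg_left k2 hE0.le

variable {K : Type} [Field K] [NumberField K]

theorem continuous_xv (v : HeightOneSpectrum (𝓞 K)) : Continuous (xv v) :=
  (differentiable_xv v).continuous

/-- the area integral of `q^(-2 s)` -/
theorem int_xv_le (v : HeightOneSpectrum (𝓞 K)) {a b B : ℝ} :
    ∫ s in ZU.rect a b B, ‖xv v s‖ ^ 2 ≤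
      (volume (ZU.rect a b B)).toReal * (nm v : ℝ) ^ (-(2 * a)) := by
  have hp : (0 : ℝ) < nm v := by exact_mod_cast nm_pos v
  have hp1 : (1 : ℝ) ≤ nm v := by exact_mod_cast nm_pos v
  have hc := rect_compact a b B
  have hcont : Continuous fun s : ℂ => ‖xv v s‖ ^ 2 := (continuous_xv v).norm.pow 2
  have h1 : ∫ s in ZU.rect a b B, ‖xv v s‖ ^ 2 ≤ ∫ _s in ZU.rect a b B, (nm v : ℝ) ^ (-(2 * a)) := by
    refine setIntegral_mono_on (hcont.continuousOn.integrableOn_compact hc)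
      (integrableOn_const hc.measure_lt_top.ne) hc.measurableSet fun s hs => ?_
    rw [norm_xv, ← Real.rpow_natCast, ← Real.rpow_mul hp.le]
    refine Real.rpow_le_rpow_of_exponent_le hp1 ?_
    have := hs.1
    push_cast
    linarith
  refine h1.trans (le_of_eq ?_)
  rw [setIntegral_const, smul_eq_mul]
  unfold Measure.real
  ring

theorem exp_close {w g : ℂ} {M η : ℝ} (hM : ‖Complex.exp g‖ ≤ M) (hη : ‖w - g‖ ≤ η) (h1 : η ≤ 1) :
    ‖Complex.exp w - Complex.exp g‖ ≤ M * (2 * η) := by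
  have e : Complex.exp w - Complex.exp g = Complex.exp g * (Complex.exp (w - g) - 1) := by
    rw [mul_sub, ← Complex.exp_add, add_sub_cancel, mul_one]
  rw [e, norm_mul]
  have h2 := Complex.norm_exp_sub_one_le (hη.trans h1)
  have h3 : 0 ≤ ‖Complex.exp g‖ := norm_nonneg _
  calc ‖Complex.exp g‖ * ‖Complex.exp (w - g) - 1‖ ≤ M * (2 * ‖w - g‖) :=
        mul_le_mul hM h2 (norm_nonneg _) (h3.trans hM)
    _ ≤ M * (2 * η) := by
        have : 0 ≤ M := h3.trans hM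
        gcongr

variable {ι : Type} [Fintype ι] [DecidableEq ι] (β : Module.Basis ι ℤ (𝓞 K))

/-- **universality** -/
theorem main (hLD : S_LD) (hFAM : S_FAM) (c : Prop) {a b B : ℝ} (ha : 1 < a) (hab : a ≤ b)
    (hb : b < 3 / 2) (hB : 0 < B) (g : Polynomial ℝ) {η : ℝ} (hη : 0 < η) :
    ∃ δ : ℝ, 0 < δ ∧ ∃ Y₀ X₁ : ℕ, ∀ X : ℕ, X₁ ≤ X → δ * ((box β X).card : ℝ) ^ 2 ≤
      (Set.ncard {p : 𝓞 K × 𝓞 K | p.1 ∈ box β X ∧ p.2 ∈ box β X ∧ Red c p.1 p.2 ∧
        ∀ N : ℕ, Y₀ ≤ N → N ^ 5 ≤ X → ∀ s ∈ ZU.rect a b B,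
          ‖Complex.exp (∑ v ∈ Pr K (N + 1), lv s v p.1 p.2) -
            Complex.exp ((g.map (algebraMap ℝ ℂ)).eval s)‖ ≤ η} : ℝ) := by
  classical
  -- constants
  obtain ⟨M, hM⟩ := (rect_compact a b B).exists_bound_of_continuousOn
    (f := fun s : ℂ => Complex.exp ((g.map (algebraMap ℝ ℂ)).eval s))
    (Complex.continuous_exp.comp (Polynomial.continuous _)).continuousOn
  obtain ⟨Sm, hSm⟩ := (rect_compact a b B).exists_bound_of_continuousOn
    (f := fun s : ℂ => s) continuous_id.continuousOn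
  have hM0 : 0 ≤ M := (norm_nonneg _).trans (hM (a : ℂ) ⟨by simp, by simpa using hab, by simpa using hB.le⟩)
  have hSm0 : 0 ≤ Sm := (norm_nonneg _).trans (hSm (a : ℂ) ⟨by simp, by simpa using hab, by simpa using hB.le⟩)
  set η₁ : ℝ := min (1 / 5) (η / (10 * (M + 1))) with hη₁
  have hη₁0 : 0 < η₁ := lt_min (by norm_num) (by positivity)
  have hη₁1 : 5 * η₁ ≤ 1 := by
    have := min_le_left (1 / 5) (η / (10 * (M + 1)))
    linarith
  have hη₁2 : M * (2 * (5 * η₁)) ≤ η := by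
    have h1 : η₁ ≤ η / (10 * (M + 1)) := min_le_right _ _
    calc M * (2 * (5 * η₁)) ≤ M * (2 * (5 * (η / (10 * (M + 1))))) := by gcongr
      _ = (M / (M + 1)) * η := by
          field_simp
          ring
      _ ≤ 1 * η := by
          gcongr
          rw [div_le_one (by positivity)]
          linarith
      _ = η := one_mul _
  obtain ⟨E, hE0, hE⟩ := second_order ha
  -- the larger rectangle
  set a' : ℝ := (1 + a) / 2 with ha'
  have ha'1 : 1 < a' := by rw [ha']; linarith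
  obtain ⟨Ca, hCa, hsup⟩ := ZU.sup_le_area a b a' (b + 1) B (B + 1)
    (by rw [ha']; linarith) hab (by linarith) hB (by linarith)
  set R := ZU.rect a' (b + 1) (B + 1) with hR
  have hRc : IsCompact R := rect_compact _ _ _
  set vol : ℝ := (volume R).toReal with hvol
  have hvol0 : 0 ≤ vol := ENNReal.toReal_nonneg
  obtain ⟨Z₂, _, htail1⟩ := exists_tail (K := K) (x := 1 - 2 * a) (by linarith)
    (by positivity : 0 < η₁ / E) 0
  obtain ⟨Z₁, hZ₁, htail2⟩ := exists_tail (K := K) (x := 1 - 2 * a') (by linarith)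
    (by positivity : 0 < η₁ ^ 2 / Ca / (8 * (vol + 1))) Z₂
  obtain ⟨Z, hZ, A, A', hdet⟩ := det hLD K ha hab hb hB g hη₁0 Z₁
  -- the class
  obtain ⟨δ, hδ, hfam⟩ := hFAM K ι β c (Pr K Z) (fun v hv => (mem_Pr.1 hv).2)
    (fun v => Ideal.Quotient.mk v.asIdeal (A v)) (fun v => Ideal.Quotient.mk v.asIdeal (A' v))
  -- the exceptional pairs
  obtain ⟨C, hC, X₂, hX₂⟩ := main_count (K := K) β c
  set L : ℝ := Real.sqrt (2 * C / δ) with hL
  have hL0 : 0 < L := Real.sqrt_pos.2 (by positivity)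
  have hL2 : C / L ^ 2 = δ / 2 := by
    rw [hL, Real.sq_sqrt (by positivity)]
    field_simp
  -- the last block
  obtain ⟨D, hD, hblock⟩ := log_sum_bound (K := K) ha
  have hpow : Tendsto (fun y : ℝ => D * (1 + L) * (1 + Sm) * y ^ (-((a - 1) / 2))) atTop
      (𝓝 (D * (1 + L) * (1 + Sm) * 0)) :=
    (tendsto_rpow_neg_atTop (by linarith : 0 < (a - 1) / 2)).const_mul _
  rw [mul_zero] at hpow
  obtain ⟨Y₁, hY₁⟩ := eventually_atTop.1 ((hpow.comp tendsto_natCast_atTop_atTop).eventually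
    (gt_mem_nhds hη₁0))
  set Y : ℕ := max Y₁ (max Z 1) with hY
  have hYb : D * (1 + L) * (1 + Sm) * (Y : ℝ) ^ (-((a - 1) / 2)) < η₁ := hY₁ Y (le_max_left _ _)
  have hYZ : Z ≤ Y := (le_max_left Z 1).trans (le_max_right _ _)
  have hY1 : 1 ≤ Y := (le_max_right Z 1).trans (le_max_right _ _)
  -- the middle block
  set W : Finset (HeightOneSpectrum (𝓞 K)) := Pr K (Y + 1) \ Pr K Z with hW
  have hW6 : ∀ v ∈ W, (6 : 𝓞 K) ∉ v.asIdeal := fun v hv => (mem_Pr.1 (Finset.mem_sdiff.1 hv).1).2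
  have hWZ : ∀ v ∈ W, Z ≤ nm v := fun v hv => by
    by_contra h
    push Not at h
    exact (Finset.mem_sdiff.1 hv).2 (mem_Pr.2 ⟨h, hW6 v hv⟩)
  have hWsum : ∑ v ∈ W, 8 * (nm v : ℝ) * ∫ s in R, ‖xv v s‖ ^ 2 ≤ η₁ ^ 2 / Ca := by
    have h1 : ∀ v ∈ W, 8 * (nm v : ℝ) * ∫ s in R, ‖xv v s‖ ^ 2 ≤
        8 * vol * (nm v : ℝ) ^ (1 - 2 * a') := by
      intro v _
      have hq0 : (0 : ℝ) < nm v := by exact_mod_cast nm_pos v
      calc 8 * (nm v : ℝ) * ∫ s in R, ‖xv v s‖ ^ 2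
          ≤ 8 * (nm v : ℝ) * (vol * (nm v : ℝ) ^ (-(2 * a'))) := by
            gcongr
            exact int_xv_le v
        _ = 8 * vol * ((nm v : ℝ) ^ (1 : ℝ) * (nm v : ℝ) ^ (-(2 * a'))) := by
            rw [Real.rpow_one]
            ring
        _ = 8 * vol * (nm v : ℝ) ^ (1 - 2 * a') := by
            rw [← Real.rpow_add hq0, sub_eq_add_neg]
    refine (Finset.sum_le_sum h1).trans ?_
    rw [← Finset.mul_sum]
    have h2 := htail2 W fun v hv => hZ.trans (hWZ v hv)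
    calc 8 * vol * ∑ v ∈ W, (nm v : ℝ) ^ (1 - 2 * a')
        ≤ 8 * vol * (η₁ ^ 2 / Ca / (8 * (vol + 1))) := by gcongr
      _ = (vol / (vol + 1)) * (η₁ ^ 2 / Ca) := by
          field_simp
      _ ≤ 1 * (η₁ ^ 2 / Ca) := by
          gcongr
          rw [div_le_one (by positivity)]
          linarith
      _ = _ := one_mul _
  have hev := hfam W hW6 (by rw [hW]; exact Finset.disjoint_sdiff) R hRc (fun v => xv v)
    (fun v => continuous_xv v) (η₁ ^ 2 / Ca) (by positivity) hWsum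
  obtain ⟨X₃, hX₃⟩ := eventually_atTop.1 hev
  refine ⟨δ / 2, by positivity, Y, max X₂ X₃, fun X hX => ?_⟩
  have h1 := hX₃ X ((le_max_right _ _).trans hX)
  obtain ⟨_, h2⟩ := hX₂ X ((le_max_left _ _).trans hX)
  have h3 := h2 L hL0
  rw [hL2] at h3
  set G : Set (𝓞 K × 𝓞 K) := {p : 𝓞 K × 𝓞 K | p.1 ∈ box β X ∧ p.2 ∈ box β X ∧ Red c p.1 p.2 ∧
    (∀ v ∈ Pr K Z, Ideal.Quotient.mk v.asIdeal p.1 = Ideal.Quotient.mk v.asIdeal (A v) ∧
      Ideal.Quotient.mk v.asIdeal p.2 = Ideal.Quotient.mk v.asIdeal (A' v)) ∧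
    ∫ s in R, ‖∑ v ∈ W, (tv v p.1 p.2 : ℂ) * xv v s‖ ^ 2 ≤ η₁ ^ 2 / Ca} with hG
  set Bd := (box β X ×ˢ box β X).filter (fun p => Red c p.1 p.2 ∧ ¬ Small L X p.1 p.2) with hBd
  have h4 : (Bd.card : ℝ) ≤ δ / 2 * ((box β X).card : ℝ) ^ 2 := by
    refine h3.trans ?_
    have h5 : (((box β X ×ˢ box β X).filter (fun p => Red c p.1 p.2)).card : ℝ) ≤
        ((box β X).card : ℝ) ^ 2 := by
      have := Finset.card_filter_le (box β X ×ˢ box β X) (fun p => Red c p.1 p.2)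
      rw [Finset.card_product] at this
      rw [sq]
      exact_mod_cast this
    gcongr
  -- the good pairs
  have hsub : G \ (Bd : Set (𝓞 K × 𝓞 K)) ⊆ {p : 𝓞 K × 𝓞 K | p.1 ∈ box β X ∧ p.2 ∈ box β X ∧
      Red c p.1 p.2 ∧ ∀ N : ℕ, Y ≤ N → N ^ 5 ≤ X → ∀ s ∈ ZU.rect a b B,
          ‖Complex.exp (∑ v ∈ Pr K (N + 1), lv s v p.1 p.2) -
            Complex.exp ((g.map (algebraMap ℝ ℂ)).eval s)‖ ≤ η} := by
    rintro ⟨x, y⟩ ⟨hp, hpB⟩
    obtain ⟨hx, hy, hred, hcl, hint⟩ := hp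
    simp only at hx hy hred hcl hint
    refine ⟨hx, hy, hred, fun N hYN hNX s hs => ?_⟩
    have hsmall : Small L X x y := by
      by_contra hcon
      exact hpB (Finset.mem_coe.2 (Finset.mem_filter.2 ⟨Finset.mem_product.2 ⟨hx, hy⟩, hred, hcon⟩))
    refine (exp_close (hM s hs) ?_ hη₁1).trans hη₁2
    -- the decomposition
    have e1 : Pr K (N + 1) = (Pr K Z ∪ W) ∪ Bk K Y N := by
      ext v
      rw [Finset.mem_union, Finset.mem_union, hW, Finset.mem_sdiff, mem_Pr, mem_Pr, mem_Pr, mem_Bk]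
      constructor
      · rintro ⟨h5, h6⟩
        by_cases h7 : nm v < Z
        · exact Or.inl (Or.inl ⟨h7, h6⟩)
        · by_cases h8 : nm v < Y + 1
          · exact Or.inl (Or.inr ⟨⟨h8, h6⟩, fun h9 => h7 h9.1⟩)
          · exact Or.inr ⟨⟨by omega, by omega⟩, h6⟩
      · rintro ((⟨h5, h6⟩ | ⟨⟨h5, h6⟩, _⟩) | ⟨⟨_, h5⟩, h6⟩)
        · exact ⟨by omega, h6⟩
        · exact ⟨by omega, h6⟩
        · exact ⟨by omega, h6⟩
    have d1 : Disjoint (Pr K Z) W := by rw [hW]; exact Finset.disjoint_sdiff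
    have d2 : Disjoint (Pr K Z ∪ W) (Bk K Y N) := by
      rw [Finset.disjoint_left]
      intro v hv hv2
      rw [mem_Bk] at hv2
      rw [Finset.mem_union, hW, Finset.mem_sdiff, mem_Pr, mem_Pr] at hv
      rcases hv with ⟨h5, _⟩ | ⟨⟨h5, _⟩, _⟩
      · omega
      · omega
    rw [e1, Finset.sum_union d2, Finset.sum_union d1]
    have p1 : ‖∑ v ∈ Pr K Z, lv s v x y - (g.map (algebraMap ℝ ℂ)).eval s‖ ≤ η₁ := by
      have h5 := hdet s hs
      rw [← norm_neg, neg_sub] at h5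
      refine le_trans (le_of_eq ?_) h5
      congr 2
      exact Finset.sum_congr rfl fun v hv => lv_congr s (hcl v hv).1 (hcl v hv).2
    have p2 : ‖∑ v ∈ W, (tv v x y : ℂ) * xv v s‖ ≤ η₁ := by
      have hd : Differentiable ℂ fun s : ℂ => ∑ v ∈ W, (tv v x y : ℂ) * xv v s :=
        Differentiable.fun_sum fun v _ => (differentiable_xv v).const_mul _
      have h5 := hsup _ Set.univ isOpen_univ (Set.subset_univ _) hd.differentiableOn s hs
      have h6 : ‖∑ v ∈ W, (tv v x y : ℂ) * xv v s‖ ^ 2 ≤ η₁ ^ 2 := by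
        refine h5.trans ((mul_le_mul_of_nonneg_left hint hCa.le).trans (le_of_eq ?_))
        field_simp
      exact (pow_le_pow_iff_left₀ (norm_nonneg _) hη₁0.le two_ne_zero).1 h6
    have p3 : ‖∑ v ∈ W, (lv s v x y - (tv v x y : ℂ) * xv v s)‖ ≤ η₁ := by
      refine (norm_sum_le _ _).trans ((Finset.sum_le_sum fun v hv =>
        hE K v x y s (hW6 v hv) hs.1).trans ?_)
      rw [← Finset.mul_sum]
      have h5 := htail1 W fun v hv => hZ₁.trans (hZ.trans (hWZ v hv))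
      calc E * ∑ v ∈ W, (nm v : ℝ) ^ (1 - 2 * a) ≤ E * (η₁ / E) := by gcongr
        _ = η₁ := by field_simp
    have p4 : ‖∑ v ∈ Bk K Y N, lv s v x y‖ ≤ η₁ := by
      have h5 := hblock x y L hL0.le s hs.1 (Y : ℝ) Y N (by exact_mod_cast hY1)
        (by linarith) hY1 hYN fun m hm1 hm2 => hsmall m hm1 ((Nat.pow_le_pow_left hm2 5).trans hNX)
      refine h5.trans (le_trans ?_ hYb.le)
      have h6 := hSm s hs
      gcongr
    have e2 : ∑ v ∈ Pr K Z, lv s v x y + ∑ v ∈ W, lv s v x y + ∑ v ∈ Bk K Y N, lv s v x y -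
        (g.map (algebraMap ℝ ℂ)).eval s =
        (∑ v ∈ Pr K Z, lv s v x y - (g.map (algebraMap ℝ ℂ)).eval s) +
          ∑ v ∈ W, (tv v x y : ℂ) * xv v s +
          ∑ v ∈ W, (lv s v x y - (tv v x y : ℂ) * xv v s) + ∑ v ∈ Bk K Y N, lv s v x y := by
      rw [Finset.sum_sub_distrib]
      ring
    rw [e2]
    refine (norm_add_le _ _).trans ?_
    have q1 := norm_add_le ((∑ v ∈ Pr K Z, lv s v x y - (g.map (algebraMap ℝ ℂ)).eval s) +
          ∑ v ∈ W, (tv v x y : ℂ) * xv v s) (∑ v ∈ W, (lv s v x y - (tv v x y : ℂ) * xv v s))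
    have q2 := norm_add_le (∑ v ∈ Pr K Z, lv s v x y - (g.map (algebraMap ℝ ℂ)).eval s)
          (∑ v ∈ W, (tv v x y : ℂ) * xv v s)
    linarith
  have hfin : {p : 𝓞 K × 𝓞 K | p.1 ∈ box β X ∧ p.2 ∈ box β X ∧
      Red c p.1 p.2 ∧ ∀ N : ℕ, Y ≤ N → N ^ 5 ≤ X → ∀ s ∈ ZU.rect a b B,
          ‖Complex.exp (∑ v ∈ Pr K (N + 1), lv s v p.1 p.2) -
            Complex.exp ((g.map (algebraMap ℝ ℂ)).eval s)‖ ≤ η}.Finite :=
    (Finset.finite_toSet (box β X ×ˢ box β X)).subset fun p hp =>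
      Finset.mem_coe.2 (Finset.mem_product.2 ⟨hp.1, hp.2.1⟩)
  have h5 := Set.ncard_le_ncard hsub hfin
  have h6 := Set.le_ncard_sdiff (Bd : Set (𝓞 K × 𝓞 K)) G (Finset.finite_toSet _)
  rw [Set.ncard_coe_finset] at h6
  have h7 : (G.ncard : ℝ) ≤ (G \ (Bd : Set (𝓞 K × 𝓞 K))).ncard + Bd.card := by
    have : G.ncard ≤ (G \ (Bd : Set (𝓞 K × 𝓞 K))).ncard + Bd.card := by omega
    exact_mod_cast this
  have h8 := (Nat.cast_le (α := ℝ)).2 h5
  refine le_trans ?_ h8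
  linarith

end Pool.Agent.P8H18.UE
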