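import Pool.Agent.P8H18.UE.Defs
import Pool.Agent.P8H18.AA.Bad
import Pool.Agent.N134.RS_PIT

/-! Windows of norms of primes, from the prime ideal theorem. -/

set_option autoImplicit false
set_option linter.unusedSectionVars false

namespace Pool.Agent.P8H18.UE

open Finset Filter Topology NumberField IsDedekindDomain Pool.Agent.P8H18.MF Pool.Agent.P8H18.AA
open Pool.Agent.H921R2.TatePole (nm two_le_nm nm_summable)

variable (K : Type) [Field K] [NumberField K]

/-- the number of the primes of norm at most `n` -/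
noncomputable def pik (n : ℕ) : ℕ := Set.ncard {v : HeightOneSpectrum (𝓞 K) | nm v ≤ n}

theorem pik_tendsto : Tendsto (fun n : ℕ => (pik K n : ℝ) * Real.log n / n) atTop (𝓝 1) := by
  have h := Pool.Agent.N134.RS.pit K
  unfold Pool.Agent.N906.RS.S_PIT at h
  refine h.congr fun n => ?_
  unfold pik
  congr 3
  congr 1
  congr 1
  ext v
  show (Ideal.absNorm v.asIdeal : ℝ) ≤ n ↔ Ideal.absNorm v.asIdeal ≤ n
  exact Nat.cast_le

theorem floor_tendsto : Tendsto (fun x : ℝ => ⌊Real.exp x⌋₊) atTop atTop :=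
  tendsto_nat_floor_atTop.comp Real.tendsto_exp_atTop

theorem floor_ratio : Tendsto (fun x : ℝ => (⌊Real.exp x⌋₊ : ℝ) / Real.exp x) atTop (𝓝 1) :=
  (tendsto_nat_floor_div_atTop (R := ℝ)).comp Real.tendsto_exp_atTop

theorem pik_exp : Tendsto (fun x : ℝ => (pik K ⌊Real.exp x⌋₊ : ℝ) * x / Real.exp x) atTop (𝓝 1) := by
  have h1 := (pik_tendsto K).comp floor_tendsto
  have h2 := floor_ratio
  -- `x / log ⌊e^x⌋ → 1`
  have h3 : Tendsto (fun x : ℝ => x / Real.log (⌊Real.exp x⌋₊ : ℝ)) atTop (𝓝 1) := by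
    have e1 : Tendsto (fun x : ℝ => Real.log ((⌊Real.exp x⌋₊ : ℝ) / Real.exp x) / x) atTop (𝓝 0) := by
      have := (Real.continuousAt_log (by norm_num : (1 : ℝ) ≠ 0)).tendsto.comp h2
      rw [Real.log_one] at this
      exact Tendsto.div_atTop this tendsto_id
    have e2 : Tendsto (fun x : ℝ => 1 + Real.log ((⌊Real.exp x⌋₊ : ℝ) / Real.exp x) / x) atTop
        (𝓝 (1 + 0)) := e1.const_add 1
    have e3 := e2.inv₀ (by norm_num)
    rw [add_zero, inv_one] at e3
    refine e3.congr' ?_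
    filter_upwards [eventually_gt_atTop 0] with x hx
    have hf : (0 : ℝ) < ⌊Real.exp x⌋₊ := by
      have : 1 ≤ ⌊Real.exp x⌋₊ := Nat.le_floor (by simpa using Real.one_le_exp hx.le)
      exact_mod_cast this
    rw [Real.log_div hf.ne' (Real.exp_pos x).ne', Real.log_exp]
    have : 1 + (Real.log (⌊Real.exp x⌋₊ : ℝ) - x) / x = Real.log (⌊Real.exp x⌋₊ : ℝ) / x := by
      field_simp
      ring
    rw [this, inv_div]
  have h4 := (h1.mul h2).mul h3
  rw [mul_one, mul_one] at h4
  refine h4.congr' ?_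
  filter_upwards [eventually_gt_atTop 1] with x hx
  simp only [Function.comp]
  have hf : (1 : ℝ) < ⌊Real.exp x⌋₊ := by
    have : 2 ≤ ⌊Real.exp x⌋₊ := Nat.le_floor (by
      have := Real.add_one_le_exp x
      push_cast
      linarith)
    exact_mod_cast this
  have hl : Real.log (⌊Real.exp x⌋₊ : ℝ) ≠ 0 := (Real.log_pos hf).ne'
  have hf0 : (⌊Real.exp x⌋₊ : ℝ) ≠ 0 := by linarith
  have he : Real.exp x ≠ 0 := (Real.exp_pos x).ne'
  field_simp

/-- the set of the norms at most `n` is finite -/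
theorem finite_le (n : ℕ) : {v : HeightOneSpectrum (𝓞 K) | nm v ≤ n}.Finite :=
  (finite_nm (K := K) (n + 1)).subset fun v hv => Nat.lt_succ_of_le hv

/-- **windows** -/
theorem windows (Z₀ : ℕ) : Windows fun v : {v : HeightOneSpectrum (𝓞 K) //
    (6 : 𝓞 K) ∉ v.asIdeal ∧ Z₀ ≤ nm v} => Real.log (nm v.1) := by
  classical
  intro δ hδ
  have hd : 0 < Real.exp δ - 1 := by
    have := Real.add_one_le_exp δ
    linarith
  -- the primes above `6`
  have h6 : (6 : 𝓞 K) ≠ 0 := by norm_num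
  set P6 := (Pool.Agent.H341R2.EC.finite_mem (K := K) h6).toFinset with hP6
  set M₀ : ℕ := P6.sup nm + Z₀ with hM₀
  have hlim : Tendsto (fun x : ℝ => ((pik K ⌊Real.exp (x + δ)⌋₊ : ℝ) - pik K ⌊Real.exp x⌋₊) * x /
      Real.exp x) atTop (𝓝 (Real.exp δ - 1)) := by
    have h1 := (pik_exp K).comp (tendsto_atTop_add_const_right atTop δ tendsto_id)
    have h2 : Tendsto (fun x : ℝ => x / (x + δ)) atTop (𝓝 1) := by
      have e1 : Tendsto (fun x : ℝ => 1 - δ / (x + δ)) atTop (𝓝 (1 - 0)) :=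
        (Tendsto.const_div_atTop (tendsto_atTop_add_const_right atTop δ tendsto_id) δ).const_sub 1
      rw [sub_zero] at e1
      refine e1.congr' ?_
      filter_upwards [eventually_gt_atTop 0] with x hx
      have : x + δ ≠ 0 := by positivity
      -- clear denominators
      field_simp
      ring
    have h3 := ((h1.mul h2).mul_const (Real.exp δ)).sub (pik_exp K)
    rw [mul_one, one_mul] at h3
    refine h3.congr' ?_
    filter_upwards [eventually_gt_atTop 0] with x hx
    simp only [Function.comp, id]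
    have : x + δ ≠ 0 := by positivity
    rw [Real.exp_add]
    have := (Real.exp_pos x).ne'
    have := (Real.exp_pos δ).ne'
    field_simp
  obtain ⟨X₁, hX₁⟩ := eventually_atTop.1 (hlim.eventually
    (lt_mem_nhds (by linarith : (Real.exp δ - 1) / 2 < Real.exp δ - 1)))
  refine ⟨(Real.exp δ - 1) / 2, by linarith, max X₁ (max 1 (Real.log (M₀ + 1))), fun x hx => ?_⟩
  have hx1 : 1 ≤ x := (le_max_left _ _).trans ((le_max_right _ _).trans hx)
  have hx2 : Real.log (M₀ + 1) ≤ x := (le_max_right _ _).trans ((le_max_right _ _).trans hx)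
  have hX := hX₁ x ((le_max_left _ _).trans hx)
  have hM : (M₀ : ℝ) < Real.exp x := by
    have h1 : (M₀ : ℝ) + 1 ≤ Real.exp x := by
      rw [← Real.exp_log (by positivity : (0 : ℝ) < (M₀ : ℝ) + 1)]
      exact Real.exp_le_exp.2 hx2
    linarith
  -- the window
  set A := (finite_le K ⌊Real.exp (x + δ)⌋₊).toFinset \ (finite_le K ⌊Real.exp x⌋₊).toFinset with hA
  have hmem : ∀ v ∈ A, x < Real.log (nm v) ∧ Real.log (nm v) ≤ x + δ := by
    intro v hv
    rw [hA, Finset.mem_sdiff, Set.Finite.mem_toFinset, Set.Finite.mem_toFinset] at hv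
    obtain ⟨h1, h2⟩ := hv
    have hv0 : (0 : ℝ) < nm v := by exact_mod_cast nm_pos v
    simp only [Set.mem_ofPred_eq] at h1 h2
    rw [Nat.le_floor_iff (Real.exp_pos _).le] at h1
    rw [Nat.le_floor_iff (Real.exp_pos _).le] at h2
    push Not at h2
    exact ⟨(Real.lt_log_iff_exp_lt hv0).2 h2, (Real.log_le_iff_le_exp hv0).2 h1⟩
  have hA2 : ∀ v ∈ A, (6 : 𝓞 K) ∉ v.asIdeal ∧ Z₀ ≤ nm v := by
    intro v hv
    have hv0 : (0 : ℝ) < nm v := by exact_mod_cast nm_pos v
    have h1 := (Real.lt_log_iff_exp_lt hv0).1 (hmem v hv).1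
    have h2 : M₀ < nm v := by exact_mod_cast hM.trans h1
    constructor
    · intro h6'
      have h3 : v ∈ P6 := (Set.Finite.mem_toFinset _).2 h6'
      have h4 : nm v ≤ P6.sup nm := le_sup (f := nm) h3
      omega
    · omega
  have hcard : (pik K ⌊Real.exp (x + δ)⌋₊ : ℝ) - pik K ⌊Real.exp x⌋₊ ≤ (A.card : ℝ) := by
    have h1 := le_card_sdiff (finite_le K ⌊Real.exp x⌋₊).toFinset
      (finite_le K ⌊Real.exp (x + δ)⌋₊).toFinset
    rw [← Set.ncard_eq_toFinset_card _ (finite_le K _),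
      ← Set.ncard_eq_toFinset_card _ (finite_le K _), ← hA] at h1
    have h2 : pik K ⌊Real.exp (x + δ)⌋₊ ≤ A.card + pik K ⌊Real.exp x⌋₊ := by
      unfold pik
      omega
    have h3 : (pik K ⌊Real.exp (x + δ)⌋₊ : ℝ) ≤ A.card + pik K ⌊Real.exp x⌋₊ := by
      exact_mod_cast h2
    linarith
  refine ⟨A.attach.image fun v => ⟨v.1, hA2 v.1 v.2⟩, ?_, ?_⟩
  · rw [card_image_of_injective _ (fun v w h => by
      simp only [Subtype.mk.injEq] at h
      exact Subtype.ext h), card_attach]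
    refine le_trans ?_ hcard
    have hx0 : 0 < x := by linarith
    rw [div_le_iff₀ hx0]
    have h1 := (lt_div_iff₀ (Real.exp_pos x)).1 hX
    linarith
  · intro v hv
    obtain ⟨w, _, rfl⟩ := mem_image.1 hv
    exact hmem w.1 w.2

end Pool.Agent.P8H18.UE
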